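import Pool.Agent.H531.VR.Zs
import Pool.Graph.R_pool_sql_team_seeded_707910d6.T2H31.HV.T_E1

set_option autoImplicit false

/-!
# The expected diagonal, with the second order term
-/

open Finset MeasureTheory ProbabilityTheory Filter Topology

namespace Pool.Agent.H531.VR

open Pool.Agent.T2H31.HV
open Pool.Agent

theorem log_fact : ∀ᶠ N : ℕ in atTop, |Real.log (N.factorial : ℝ) - (N * Real.log N - N)| ≤ 3 * Real.log N := by
  have hpi := Real.pi_pos
  have h1 : Tendsto (fun J : ℕ => Real.log (Stirling.stirlingSeq J)) atTop (𝓝 (Real.log (√Real.pi))) :=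
    (Real.continuousAt_log (by positivity)).tendsto.comp Stirling.tendsto_stirlingSeq_sqrt_pi
  have h2 := h1.eventually (Metric.ball_mem_nhds _ one_pos)
  have hlog : Tendsto (fun N : ℕ => Real.log N) atTop atTop := Real.tendsto_log_atTop.comp tendsto_natCast_atTop_atTop
  filter_upwards [h2, hlog.eventually_ge_atTop (2 + |Real.log (√Real.pi)|), eventually_ge_atTop 1] with N h3 h4 h5
  have hN0 : (0 : ℝ) < N := by exact_mod_cast h5
  rw [Real.dist_eq, abs_lt, Stirling.log_stirlingSeq_formula, Real.log_mul (by norm_num) hN0.ne',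
    Real.log_div hN0.ne' (Real.exp_pos _).ne', Real.log_exp] at h3
  have h6 := Real.log_two_lt_d9
  have h7 : 0 ≤ Real.log 2 := Real.log_nonneg (by norm_num)
  have h8 := abs_le.1 (le_refl |Real.log (√Real.pi)|)
  rw [abs_le]
  constructor <;> linarith [h3.1, h3.2, h8.1, h8.2]

open E1 E3 RAT Pool.Agent.T2H32.BF in
theorem E1s (h : P_Z) : ∃ C : ℝ, 0 < C ∧ ∀ᶠ N : ℕ in atTop, ∀ Q : ℕ, 1 ≤ Q → Q ≤ N →
    |EF z0 Q 0 N (fun n => Real.log n * Real.log ((n + 0 : ℕ) : ℝ)) - (N * Real.log N - N)| ≤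
      C * √(N : ℝ) * Real.log N ^ 3 := by
  obtain ⟨hZa, hZb, hZc⟩ := h
  obtain ⟨n1, hn1⟩ := eventually_atTop.1 (hZb.and (eventually_ge_atTop 4))
  have hn14 : 4 ≤ n1 := (hn1 n1 le_rfl).2
  have hn14' : (4 : ℝ) ≤ n1 := by exact_mod_cast hn14
  refine ⟨2 * (2 * n1 + 5) + 6, by positivity, ?_⟩
  filter_upwards [log_fact, eventually_ge_atTop 3] with N hLF hN Q hQ hQN
  have hN' : (3 : ℝ) ≤ N := by exact_mod_cast hN
  have hlog : 1 ≤ Real.log N := by
    rw [Real.le_log_iff_exp_le (by linarith)]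
    have := Real.exp_one_lt_d9
    linarith
  have hs1 : 1 ≤ √(N : ℝ) := Real.one_le_sqrt.2 (by linarith)
  set A : ℝ := 2 * n1 + 5 with hA
  have hA0 : 0 ≤ A := by positivity
  have hterm : ∀ n ∈ Ico 3 (N + 1 - 0),
      |Real.log n * (∏ p ∈ PN N, mf z0 Q 0 n p) - 1| ≤ A * Real.log N * (1 / √(n : ℝ)) := by
    intro n hn
    rw [mem_Ico] at hn
    have hnN : n ≤ N := by omega
    have hn3 : (3 : ℝ) ≤ n := by exact_mod_cast hn.1
    have hsn : 0 < √(n : ℝ) := Real.sqrt_pos.2 (by linarith)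
    have hl0 : 0 ≤ Real.log n := Real.log_natCast_nonneg n
    have hl1 : Real.log n ≤ Real.log N :=
      Real.log_le_log (by linarith) (by exact_mod_cast hnN)
    have hP := prod_mem (z := z0) (Q := Q) (h := 0) (n := n) (N := N)
    by_cases hc : n < n1
    · have h3 : Real.log n * (∏ p ∈ PN N, mf z0 Q 0 n p) ≤ Real.log N := by
        calc Real.log n * (∏ p ∈ PN N, mf z0 Q 0 n p) ≤ Real.log N * 1 := by
              gcongr
              · exact hP.1
              · exact hP.2
          _ = Real.log N := by ring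
      have h4 : 0 ≤ Real.log n * (∏ p ∈ PN N, mf z0 Q 0 n p) := mul_nonneg hl0 hP.1
      have h5 : |Real.log n * (∏ p ∈ PN N, mf z0 Q 0 n p) - 1| ≤ 2 * Real.log N := by
        rw [abs_le]
        constructor <;> linarith
      refine h5.trans ?_
      have h6 : √(n : ℝ) ≤ n1 := by
        have h7 : √(n : ℝ) ≤ n := by
          rw [Real.sqrt_le_left (by linarith)]
          nlinarith
        exact h7.trans (by exact_mod_cast hc.le)
      have h8 : 2 ≤ A * (1 / √(n : ℝ)) := by
        rw [mul_one_div, le_div_iff₀ hsn]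
        linarith
      calc 2 * Real.log N ≤ (A * (1 / √(n : ℝ))) * Real.log N := by gcongr
        _ = A * Real.log N * (1 / √(n : ℝ)) := by ring
    · push Not at hc
      obtain ⟨hz1, hz4⟩ := hn1 n hc
      obtain ⟨ha0, ha1, ha2⟩ := hZc n hn.1
      have hz1' : (1 : ℝ) ≤ z0 n := by exact_mod_cast ha0
      have hzN : z0 n ≤ N := (z0_mono hnN).trans (hZa N)
      have hprod : ∏ p ∈ PN N, mf z0 Q 0 n p = V (z0 n) *
          ∏ p ∈ PN N, (if p ∣ Q ∧ ¬ p ≤ z0 n then 1 - 1 / (p : ℝ) else 1) := by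
        rw [V_eq hzN, ← prod_mul_distrib]
        exact prod_congr rfl fun p _ => mf0
      have hr1 := rest (w := z0 n) ha0 hQ hQN
      have hr2 := rest_le (w := z0 n) (Q := Q) (N := N)
      set r := ∏ p ∈ PN N, (if p ∣ Q ∧ ¬ p ≤ z0 n then 1 - 1 / (p : ℝ) else 1) with hr
      rw [hprod]
      set v := V (z0 n) * Real.log n with hv
      have hu : 1 / (z0 n : ℝ) ≤ 1 / √(n : ℝ) := one_div_le_one_div_of_le hsn hz1
      have hu1 : 1 / (z0 n : ℝ) ≤ 1 := by
        rw [div_le_one (by linarith)]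
        exact hz1'
      have hu0 : 0 < 1 / (z0 n : ℝ) := by positivity
      have e0 : 2 * Real.log N / (z0 n : ℝ) = 2 * Real.log N * (1 / z0 n) := by ring
      rw [e0] at hr1
      set u := 1 / (z0 n : ℝ) with hud
      have e1 : Real.log n * (V (z0 n) * r) = v * r := by
        rw [hv]
        ring
      rw [e1]
      have hv2 : v ≤ 2 := by linarith
      have hv0 : 0 ≤ v := by linarith
      have e2 : v * r ≤ 1 + u := by
        calc v * r ≤ v * 1 := by gcongr
          _ ≤ 1 + u := by linarith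
      have e3 : 1 - 4 * Real.log N * u ≤ v * r := by
        have h7 : v * (1 - 2 * Real.log N * u) ≤ v * r := mul_le_mul_of_nonneg_left hr1 hv0
        have h8 : v * (2 * Real.log N * u) ≤ 2 * (2 * Real.log N * u) := by gcongr
        nlinarith
      have e4 : |v * r - 1| ≤ 5 * Real.log N * u := by
        have h9 : u ≤ Real.log N * u := le_mul_of_one_le_left hu0.le hlog
        rw [abs_le]
        constructor <;> nlinarith
      refine e4.trans ?_
      have h5A : 5 ≤ A := by
        rw [hA]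
        linarith
      calc 5 * Real.log N * u ≤ A * Real.log N * (1 / √(n : ℝ)) := by gcongr
        _ = _ := rfl
  have h3 : ∑ n ∈ Ico 3 (N + 1 - 0), 1 / √(n : ℝ) ≤ 2 * √(N : ℝ) := by
    refine le_trans ?_ (sqrt_sum N)
    apply sum_le_sum_of_subset_of_nonneg
    · intro n hn
      rw [mem_Ico] at hn ⊢
      omega
    · intro n _ _
      positivity
  have hsum : |EF z0 Q 0 N (fun n => Real.log n * Real.log ((n + 0 : ℕ) : ℝ)) -
      ∑ n ∈ Ico 3 (N + 1), Real.log n| ≤ 2 * A * Real.log N ^ 2 * √(N : ℝ) := by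
    unfold EF
    rw [Nat.sub_zero, ← sum_sub_distrib]
    refine (abs_sum_le_sum_abs _ _).trans ?_
    calc ∑ n ∈ Ico 3 (N + 1), |Real.log n * Real.log ((n + 0 : ℕ) : ℝ) *
            (∏ p ∈ PN N, mf z0 Q 0 n p) - Real.log n|
        ≤ ∑ n ∈ Ico 3 (N + 1), Real.log N * (A * Real.log N * (1 / √(n : ℝ))) := by
          apply sum_le_sum
          intro n hn
          have h5 := hterm n hn
          rw [mem_Ico] at hn
          have hn3 : (3 : ℝ) ≤ n := by exact_mod_cast hn.1
          have hl0 : 0 ≤ Real.log n := Real.log_natCast_nonneg n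
          have hl1 : Real.log n ≤ Real.log N :=
            Real.log_le_log (by linarith) (by exact_mod_cast (by omega : n ≤ N))
          rw [add_zero, show Real.log (n : ℝ) * Real.log (n : ℝ) *
            (∏ p ∈ PN N, mf z0 Q 0 n p) - Real.log n =
            Real.log n * (Real.log n * (∏ p ∈ PN N, mf z0 Q 0 n p) - 1) by ring, abs_mul,
            abs_of_nonneg hl0]
          exact mul_le_mul hl1 h5 (abs_nonneg _) (by linarith)
      _ = A * Real.log N ^ 2 * ∑ n ∈ Ico 3 (N + 1), 1 / √(n : ℝ) := by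
          rw [mul_sum]
          exact sum_congr rfl fun n _ => by ring
      _ ≤ A * Real.log N ^ 2 * (2 * √(N : ℝ)) := by
          rw [Nat.sub_zero] at h3
          gcongr
      _ = _ := by ring
  have hb : |∑ n ∈ Ico 3 (N + 1), Real.log n - (N * Real.log N - N)| ≤ 4 * Real.log N := by
    have h1 : ∑ n ∈ range 3, Real.log (n : ℝ) + ∑ n ∈ Ico 3 (N + 1), Real.log (n : ℝ) =
        ∑ n ∈ range (N + 1), Real.log (n : ℝ) := by
      rw [range_eq_Ico, sum_Ico_consecutive _ (by omega) (by omega), range_eq_Ico]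
    have h2 : ∑ n ∈ range 3, Real.log (n : ℝ) = Real.log 2 := by
      simp [sum_range_succ]
    rw [h2, sum_log] at h1
    have h5 := Real.log_two_lt_d9
    have h6 : 0 ≤ Real.log 2 := Real.log_nonneg (by norm_num)
    rw [abs_le] at hLF ⊢
    constructor <;> linarith [hLF.1, hLF.2]
  have hfin := abs_sub_le (EF z0 Q 0 N (fun n => Real.log n * Real.log ((n + 0 : ℕ) : ℝ)))
    (∑ n ∈ Ico 3 (N + 1), Real.log n) (N * Real.log N - N)
  have hb1 : 2 * A * Real.log N ^ 2 * √(N : ℝ) ≤ 2 * A * Real.log N ^ 3 * √(N : ℝ) := by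
    have : Real.log N ^ 2 ≤ Real.log N ^ 3 := pow_le_pow_right₀ hlog (by norm_num)
    gcongr
  have hb2 : 4 * Real.log N ≤ 4 * (Real.log N ^ 3 * √(N : ℝ)) := by
    have h7 : Real.log N * 1 ≤ Real.log N ^ 3 * √(N : ℝ) := by
      apply mul_le_mul _ hs1 (by norm_num) (by positivity)
      calc Real.log N = Real.log N ^ 1 := (pow_one _).symm
        _ ≤ Real.log N ^ 3 := pow_le_pow_right₀ hlog (by norm_num)
    linarith
  have hb3 : 0 ≤ Real.log N ^ 3 * √(N : ℝ) := by positivity
  calc |EF z0 Q 0 N (fun n => Real.log n * Real.log ((n + 0 : ℕ) : ℝ)) - (N * Real.log N - N)|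
      ≤ 2 * A * Real.log N ^ 3 * √(N : ℝ) + 4 * (Real.log N ^ 3 * √(N : ℝ)) := by linarith
    _ ≤ (2 * A + 6) * √(N : ℝ) * Real.log N ^ 3 := by linarith

end Pool.Agent.H531.VR
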