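import Pool.Agent.H531.VR.E1s
import Pool.Graph.R_pool_sql_team_seeded_707910d6.T2H31.HV.All

set_option autoImplicit false

/-!
# The variance in progressions, with the second order term
-/

open Finset MeasureTheory ProbabilityTheory Filter Topology

namespace Pool.Agent.H531.VR

open Pool.Agent.T2H31.HV
open Pool.Agent
open Pool.Agent.T2H32.BF

theorem det_main_s (hE1 : P_E1) (hE3 : P_E3) (hG : P_G) (hZ : P_Z) (ε δ : ℝ) (hε : 0 < ε) (hε4 : ε ≤ 1 / 4) (hδ : 0 < δ) :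
    ∀ᶠ N : ℕ in atTop, ∀ Q : ℕ, (N : ℝ) ^ (1 / 2 + ε) < Q → (Q : ℝ) ≤ (N : ℝ) ^ (1 - ε) → ∀ b : ℕ → ℕ,
      (∀ p ∈ Q.primeFactors, b p < p) → FLat (min (ε / 2) (1 / 4)) N b →
      |GR z0 b N Q - N * Real.log Q + N * (cQ Q + Real.eulerMascheroniConstant + Real.log (2 * Real.pi))| ≤ δ * N ∧
        (N : ℝ) / Nat.totient Q ≤ (N : ℝ) ^ (1 / 2 : ℝ) := by
  obtain ⟨C1, hC1, h1⟩ := hE1
  obtain ⟨C0, hC0, h0⟩ := E1s hZ
  obtain ⟨C3, hC3, h3⟩ := hE3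
  obtain ⟨Cκ, hCκ, hκ⟩ := H336V.TotLog.div_totient_le 1 one_pos
  set η : ℝ := min (ε / 2) (1 / 4) with hη
  have hη1 : η ≤ ε / 2 := min_le_left _ _
  have hη2 : η ≤ 1 / 4 := min_le_right _ _
  have hlog : Tendsto (fun N : ℕ => Real.log N) atTop atTop := Real.tendsto_log_atTop.comp tendsto_natCast_atTop_atTop
  filter_upwards [h1, h3, Zs ε (δ / 4) hε (by positivity), hlog.eventually_ge_atTop 1,
    h0, eventually_ge_atTop 3,
    log_pow_small (4 * (2 + Cκ) * (2 + C1 + C3)) (ε / 2) (δ / 4) (by positivity) (by positivity) 6,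
    log_pow_small (2 + Cκ) ε 1 hε one_pos 1,
    log_pow_small (1 + C0) (1 / 4) (δ / 4) (by norm_num) (by positivity) 3]
    with N h1 h3 h5 hL1 h0 hN3 hS hS2 hS4 Q hQ hQε b hb hFL
  have hQN : Q ≤ N := by
    have h1 : (Q : ℝ) ≤ N := by
      refine hQε.trans ?_
      calc (N : ℝ) ^ (1 - ε) ≤ (N : ℝ) ^ (1 : ℝ) :=
            Real.rpow_le_rpow_of_exponent_le (by exact_mod_cast (by omega : 1 ≤ N)) (by linarith)
        _ = N := Real.rpow_one _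
    exact_mod_cast h1
  have hN1 : (1 : ℝ) ≤ N := by exact_mod_cast (by omega : 1 ≤ N)
  have hN0 : (0 : ℝ) < N := by linarith
  set L : ℝ := Real.log N with hL
  have hQr : (0 : ℝ) < Q := lt_of_le_of_lt (by positivity) hQ
  have hQ1 : 1 ≤ Q := by
    have : 0 < Q := by exact_mod_cast hQr
    omega
  have hφ : (0 : ℝ) < Nat.totient Q := by exact_mod_cast Nat.totient_pos.2 hQ1
  have hQN' : (Q : ℝ) ≤ N := by exact_mod_cast hQN
  have hlogQ : Real.log Q ≤ L := Real.log_le_log hQr hQN'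
  -- H = N / Q ≤ N ^ (1/2 - ε)
  have hH : (N : ℝ) / Q ≤ (N : ℝ) ^ (1 / 2 - ε) := by
    rw [div_le_iff₀ hQr]
    calc (N : ℝ) = (N : ℝ) ^ (1 / 2 - ε) * (N : ℝ) ^ (1 / 2 + ε) := by
          rw [← Real.rpow_add hN0]
          norm_num
      _ ≤ (N : ℝ) ^ (1 / 2 - ε) * Q := by gcongr
  have hHpos : 0 ≤ (N : ℝ) / Q := by positivity
  have hNφ : (N : ℝ) / Nat.totient Q ≤ (1 + Cκ) * L * (N : ℝ) ^ (1 / 2 - ε) := by
    have e : (N : ℝ) / Nat.totient Q = (Q : ℝ) / Nat.totient Q * (N / Q) := by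
      field_simp
    rw [e]
    have h := hκ Q hQ1
    rw [one_mul] at h
    have h' : (Q : ℝ) / Nat.totient Q ≤ (1 + Cκ) * L := by nlinarith
    have h0 : 0 ≤ (Q : ℝ) / Nat.totient Q := by positivity
    calc (Q : ℝ) / Nat.totient Q * (N / Q) ≤ ((1 + Cκ) * L) * (N : ℝ) ^ (1 / 2 - ε) := by
          apply mul_le_mul h' hH hHpos
          positivity
      _ = _ := by ring
  have hsq : √(N : ℝ) = (N : ℝ) ^ (1 / 2 : ℝ) := Real.sqrt_eq_rpow _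
  -- products of powers
  have hP1 : (N : ℝ) ^ (1 / 2 - ε) * (N : ℝ) ^ (1 / 2 + η) ≤ N * (N : ℝ) ^ (-(ε / 2)) := by
    rw [← Real.rpow_add hN0, ← Real.rpow_one_add' hN0.le (by
      intro h0
      have h1 : ε = 2 := by linarith
      subst h1
      have h2 : (N : ℝ) < Q := by
        have h3 : (N : ℝ) ≤ (N : ℝ) ^ (1 / 2 + 2 : ℝ) := by
          calc (N : ℝ) = (N : ℝ) ^ (1 : ℝ) := (Real.rpow_one _).symm
            _ ≤ _ := Real.rpow_le_rpow_of_exponent_le hN1 (by norm_num)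
        linarith
      linarith)]
    exact Real.rpow_le_rpow_of_exponent_le hN1 (by linarith)
  have hP2 : (N : ℝ) ^ (1 / 2 - ε) * √(N : ℝ) ≤ N * (N : ℝ) ^ (-(ε / 2)) := by
    have : √(N : ℝ) ≤ (N : ℝ) ^ (1 / 2 + η) := by
      rw [hsq]
      exact Real.rpow_le_rpow_of_exponent_le hN1 (by
        have : 0 < η := by rw [hη]; exact lt_min (by positivity) (by norm_num)
        linarith)
    calc (N : ℝ) ^ (1 / 2 - ε) * √(N : ℝ) ≤ (N : ℝ) ^ (1 / 2 - ε) * (N : ℝ) ^ (1 / 2 + η) := by gcongr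
      _ ≤ _ := hP1
  have hP3 : (N : ℝ) ^ (1 / 2 + η) ≤ N := by
    calc (N : ℝ) ^ (1 / 2 + η) ≤ (N : ℝ) ^ (1 : ℝ) := Real.rpow_le_rpow_of_exponent_le hN1 (by linarith)
      _ = N := Real.rpow_one _
  -- the single errors
  have e0 := (hFL Q 0 hQN (Nat.zero_le _)).1
  have e0' := h0 Q hQ1 hQN
  have e1 := (hFL Q 0 hQN (Nat.zero_le _)).2
  have e1' := (h1 Q hQ1 hQN).1
  obtain ⟨-, hGR⟩ := hG z0 z0_mono hZ.1 b N Q hQ1 hQN hb
  have hHε : (N : ℝ) ^ ε ≤ (N : ℝ) / Q := by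
    rw [le_div_iff₀ hQr]
    calc (N : ℝ) ^ ε * Q ≤ (N : ℝ) ^ ε * (N : ℝ) ^ (1 - ε) := by gcongr
      _ = N := by
          rw [← Real.rpow_add hN0]
          norm_num
  have hHε' : (N : ℝ) / Q ≤ (N : ℝ) ^ (1 - ε) :=
    hH.trans (Real.rpow_le_rpow_of_exponent_le hN1 (by linarith))
  have hD' := h5 Q hQ1 hQN ((N : ℝ) / Q) hHε hHε'
  set P0 := PF z0 Q 0 N (fun n => Real.log n * Real.log ((n + 0 : ℕ) : ℝ)) b with hP0
  set P1 := PF z0 Q 0 N (fun n => Real.log n) b with hP1'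
  have hj : |∑ j ∈ Icc 1 (N / Q), PF z0 Q (j * Q) N (fun n => Real.log n * Real.log ((n + j * Q : ℕ) : ℝ)) b -
      ∑ j ∈ Icc 1 (N / Q), ((N : ℝ) - j * Q) * Sg N Q j| ≤
      (N : ℝ) ^ (1 / 2 - ε) * ((N : ℝ) ^ (1 / 2 + η) + C3 * √(N : ℝ) * L ^ 5) := by
    rw [← sum_sub_distrib]
    refine (abs_sum_le_sum_abs _ _).trans ?_
    have hc : ((Icc 1 (N / Q)).card : ℝ) ≤ (N : ℝ) ^ (1 / 2 - ε) := by
      rw [Nat.card_Icc, Nat.add_sub_cancel]
      exact (Nat.cast_div_le).trans hH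
    calc ∑ j ∈ Icc 1 (N / Q), |PF z0 Q (j * Q) N (fun n => Real.log n * Real.log ((n + j * Q : ℕ) : ℝ)) b -
          ((N : ℝ) - j * Q) * Sg N Q j| ≤
        ∑ j ∈ Icc 1 (N / Q), ((N : ℝ) ^ (1 / 2 + η) + C3 * √(N : ℝ) * L ^ 5) := by
          apply sum_le_sum
          intro j hj
          rw [mem_Icc] at hj
          have hjQ : j * Q ≤ N := (Nat.mul_le_mul_right _ hj.2).trans (Nat.div_mul_le_self N Q)
          have a1 := (hFL Q (j * Q) hQN hjQ).1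
          have a2 := h3 Q j hQ1 hj.1 hjQ
          have := abs_sub_le (PF z0 Q (j * Q) N (fun n => Real.log n * Real.log ((n + j * Q : ℕ) : ℝ)) b)
            (EF z0 Q (j * Q) N (fun n => Real.log n * Real.log ((n + j * Q : ℕ) : ℝ))) (((N : ℝ) - j * Q) * Sg N Q j)
          linarith
      _ = (Icc 1 (N / Q)).card * ((N : ℝ) ^ (1 / 2 + η) + C3 * √(N : ℝ) * L ^ 5) := by
          rw [sum_const, nsmul_eq_mul]
      _ ≤ _ := by
          apply mul_le_mul_of_nonneg_right hc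
          have : 0 ≤ L := by linarith
          positivity
  set SP := ∑ j ∈ Icc 1 (N / Q), PF z0 Q (j * Q) N (fun n => Real.log n * Real.log ((n + j * Q : ℕ) : ℝ)) b with hSP
  set SS := ∑ j ∈ Icc 1 (N / Q), ((N : ℝ) - j * Q) * Sg N Q j with hSS
  have hlogdiv : Real.log ((N : ℝ) / Q) = L - Real.log Q := Real.log_div hN0.ne' hQr.ne'
  set T : ℝ := cQ Q + Real.eulerMascheroniConstant + Real.log (2 * Real.pi) with hT
  have hD : |2 * SS - (N : ℝ) ^ 2 / Nat.totient Q + N * (Real.log ((N : ℝ) / Q) + T - 1)| ≤ δ / 4 * N := by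
    have e1 : 2 * SS = Q * ZZ N Q ((N : ℝ) / Q) := by
      unfold ZZ
      rw [hSS, Nat.floor_div_eq_div, mul_sum, mul_sum, mul_sum]
      apply sum_congr rfl
      intro j _
      field_simp
    have e2 : 2 * SS - (N : ℝ) ^ 2 / Nat.totient Q + N * (Real.log ((N : ℝ) / Q) + T - 1) =
        Q * (ZZ N Q ((N : ℝ) / Q) - (Q : ℝ) / Nat.totient Q * ((N : ℝ) / Q) ^ 2 + (N : ℝ) / Q *
          (Real.log ((N : ℝ) / Q) + cQ Q + Real.eulerMascheroniConstant + Real.log (2 * Real.pi) - 1)) := by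
      rw [e1, hT]
      field_simp
      ring
    rw [e2, abs_mul, abs_of_pos hQr]
    calc (Q : ℝ) * |_| ≤ Q * (δ / 4 * ((N : ℝ) / Q)) := by gcongr
      _ = δ / 4 * N := by field_simp
  have hid : GR z0 b N Q - N * Real.log Q + N * T = (P0 - (N * L - N)) + 2 * (SP - SS) +
      (2 * SS - (N : ℝ) ^ 2 / Nat.totient Q + N * (Real.log ((N : ℝ) / Q) + T - 1)) -
      2 * (N / Nat.totient Q) * (P1 - N) := by
    rw [hGR, hlogdiv]
    field_simp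
    ring
  have hP0b : |P0 - (N * L - N)| ≤ (N : ℝ) ^ (1 / 2 + η) + C0 * √(N : ℝ) * L ^ 3 := by
    have := abs_sub_le P0 (EF z0 Q 0 N (fun n => Real.log n * Real.log ((n + 0 : ℕ) : ℝ))) (N * L - N)
    linarith
  have hP1b : |P1 - N| ≤ (N : ℝ) ^ (1 / 2 + η) + C1 * √(N : ℝ) * L ^ 3 := by
    have := abs_sub_le P1 (EF z0 Q 0 N (fun n => Real.log n)) N
    linarith
  have hcross : |2 * (N / Nat.totient Q) * (P1 - N)| ≤
      2 * ((1 + Cκ) * L * (N : ℝ) ^ (1 / 2 - ε)) * ((N : ℝ) ^ (1 / 2 + η) + C1 * √(N : ℝ) * L ^ 3) := by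
    rw [abs_mul, abs_of_nonneg (by positivity : (0 : ℝ) ≤ 2 * (N / Nat.totient Q))]
    apply mul_le_mul _ hP1b (abs_nonneg _)
    · have : 0 ≤ L := by linarith
      positivity
    · linarith
  set X := (N : ℝ) * (N : ℝ) ^ (-(ε / 2)) with hX
  have hX0 : 0 ≤ X := by positivity
  have hL0 : 0 ≤ L := by linarith
  have hLp : ∀ m n : ℕ, m ≤ n → L ^ m ≤ L ^ n := fun m n h => pow_le_pow_right₀ hL1 h
  have hj' : |SP - SS| ≤ (1 + C3) * L ^ 6 * X := by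
    refine hj.trans ?_
    have a1 : (N : ℝ) ^ (1 / 2 - ε) * ((N : ℝ) ^ (1 / 2 + η) + C3 * √(N : ℝ) * L ^ 5) =
      (N : ℝ) ^ (1 / 2 - ε) * (N : ℝ) ^ (1 / 2 + η) + C3 * L ^ 5 * ((N : ℝ) ^ (1 / 2 - ε) * √(N : ℝ)) := by ring
    rw [a1]
    have a2 : C3 * L ^ 5 * ((N : ℝ) ^ (1 / 2 - ε) * √(N : ℝ)) ≤ C3 * L ^ 6 * X := by
      have := hLp 5 6 (by norm_num)
      gcongr
    have a3 : X ≤ L ^ 6 * X := by
      have := one_le_pow₀ (n := 6) hL1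
      nlinarith
    nlinarith
  have hcross' : |2 * (N / Nat.totient Q) * (P1 - N)| ≤ 2 * (1 + Cκ) * (1 + C1) * L ^ 6 * X := by
    refine hcross.trans ?_
    have a1 : 2 * ((1 + Cκ) * L * (N : ℝ) ^ (1 / 2 - ε)) * ((N : ℝ) ^ (1 / 2 + η) + C1 * √(N : ℝ) * L ^ 3) =
      2 * (1 + Cκ) * (L * ((N : ℝ) ^ (1 / 2 - ε) * (N : ℝ) ^ (1 / 2 + η)) +
        C1 * L ^ 4 * ((N : ℝ) ^ (1 / 2 - ε) * √(N : ℝ))) := by ring
    rw [a1]
    have a2 : L * ((N : ℝ) ^ (1 / 2 - ε) * (N : ℝ) ^ (1 / 2 + η)) ≤ L ^ 6 * X := by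
      have := hLp 1 6 (by norm_num)
      rw [pow_one] at this
      gcongr
    have a3 : C1 * L ^ 4 * ((N : ℝ) ^ (1 / 2 - ε) * √(N : ℝ)) ≤ C1 * L ^ 6 * X := by
      have := hLp 4 6 (by norm_num)
      gcongr
    calc 2 * (1 + Cκ) * (L * ((N : ℝ) ^ (1 / 2 - ε) * (N : ℝ) ^ (1 / 2 + η)) +
        C1 * L ^ 4 * ((N : ℝ) ^ (1 / 2 - ε) * √(N : ℝ))) ≤ 2 * (1 + Cκ) * (L ^ 6 * X + C1 * L ^ 6 * X) := by
          gcongr
      _ = _ := by ring
  have hsmall : (4 * (2 + Cκ) * (2 + C1 + C3)) * L ^ 6 * X ≤ δ / 4 * N := by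
    have : (4 * (2 + Cκ) * (2 + C1 + C3)) * L ^ 6 * X =
      (4 * (2 + Cκ) * (2 + C1 + C3) * L ^ 6 * (N : ℝ) ^ (-(ε / 2))) * N := by
      rw [hX]; ring
    rw [this]
    exact mul_le_mul_of_nonneg_right hS hN0.le
  have hP0c : (N : ℝ) ^ (1 / 2 + η) + C0 * √(N : ℝ) * L ^ 3 ≤ δ / 4 * N := by
    have hp : (N : ℝ) ^ (1 / 2 + η) ≤ N * (N : ℝ) ^ (-(1 / 4) : ℝ) := by
      rw [← Real.rpow_one_add' hN0.le (by norm_num)]
      apply Real.rpow_le_rpow_of_exponent_le hN1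
      linarith
    have hq : √(N : ℝ) ≤ N * (N : ℝ) ^ (-(1 / 4) : ℝ) := by
      rw [hsq, ← Real.rpow_one_add' hN0.le (by norm_num)]
      apply Real.rpow_le_rpow_of_exponent_le hN1
      norm_num
    set Y := (N : ℝ) * (N : ℝ) ^ (-(1 / 4) : ℝ) with hY
    have hY0 : 0 ≤ Y := by positivity
    have hl3 : 1 ≤ L ^ 3 := one_le_pow₀ hL1
    calc (N : ℝ) ^ (1 / 2 + η) + C0 * √(N : ℝ) * L ^ 3 ≤ L ^ 3 * Y + C0 * Y * L ^ 3 := by
          have h1 : 1 * Y ≤ L ^ 3 * Y := mul_le_mul_of_nonneg_right hl3 hY0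
          have h2 : C0 * √(N : ℝ) * L ^ 3 ≤ C0 * Y * L ^ 3 := by gcongr
          linarith
      _ = ((1 + C0) * L ^ 3 * (N : ℝ) ^ (-(1 / 4) : ℝ)) * N := by
          rw [hY]
          ring
      _ ≤ δ / 4 * N := by gcongr
  constructor
  · rw [hid]
    have t1 : |(P0 - (N * L - N)) + 2 * (SP - SS) +
      (2 * SS - (N : ℝ) ^ 2 / Nat.totient Q + N * (Real.log ((N : ℝ) / Q) + T - 1)) -
      2 * (N / Nat.totient Q) * (P1 - N)| ≤ |P0 - (N * L - N)| + 2 * |SP - SS| +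
      |2 * SS - (N : ℝ) ^ 2 / Nat.totient Q + N * (Real.log ((N : ℝ) / Q) + T - 1)| +
      |2 * (N / Nat.totient Q) * (P1 - N)| := by
      have b1 := abs_sub ((P0 - (N * L - N)) + 2 * (SP - SS) +
        (2 * SS - (N : ℝ) ^ 2 / Nat.totient Q + N * (Real.log ((N : ℝ) / Q) + T - 1)))
        (2 * (N / Nat.totient Q) * (P1 - N))
      have b2 := abs_add_le ((P0 - (N * L - N)) + 2 * (SP - SS))
        (2 * SS - (N : ℝ) ^ 2 / Nat.totient Q + N * (Real.log ((N : ℝ) / Q) + T - 1))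
      have b3 := abs_add_le (P0 - (N * L - N)) (2 * (SP - SS))
      have b4 : |2 * (SP - SS)| = 2 * |SP - SS| := by
        rw [abs_mul, abs_of_pos (by norm_num : (0 : ℝ) < 2)]
      linarith
    refine t1.trans ?_
    have hY : 0 ≤ L ^ 6 * X := by positivity
    have c1 : 2 * ((1 + C3) * L ^ 6 * X) + 2 * (1 + Cκ) * (1 + C1) * L ^ 6 * X ≤
        (4 * (2 + Cκ) * (2 + C1 + C3)) * L ^ 6 * X := by
      have : 2 * (1 + C3) + 2 * (1 + Cκ) * (1 + C1) ≤ 4 * (2 + Cκ) * (2 + C1 + C3) := by nlinarith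
      nlinarith
    have hδN : 0 ≤ δ * N := by positivity
    have c5 := hP0b.trans hP0c
    linarith [c5, hj', hD, hcross', hsmall, c1, hδN]
  · refine hNφ.trans ?_
    have a1 : (1 + Cκ) * L * (N : ℝ) ^ (1 / 2 - ε) = ((1 + Cκ) * L * (N : ℝ) ^ (-ε)) * (N : ℝ) ^ (1 / 2 : ℝ) := by
      have a0 : (N : ℝ) ^ (1 / 2 - ε) = (N : ℝ) ^ (-ε) * (N : ℝ) ^ (1 / 2 : ℝ) := by
        rw [← Real.rpow_add hN0]
        congr 1
        ring
      rw [a0]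
      ring
    rw [a1]
    have a2 : (1 + Cκ) * L * (N : ℝ) ^ (-ε) ≤ 1 := by
      refine le_trans ?_ hS2
      rw [pow_one]
      have : 0 ≤ (N : ℝ) ^ (-ε) := by positivity
      have : (1 + Cκ) * L ≤ (2 + Cκ) * L := by nlinarith
      gcongr
    calc ((1 + Cκ) * L * (N : ℝ) ^ (-ε)) * (N : ℝ) ^ (1 / 2 : ℝ) ≤ 1 * (N : ℝ) ^ (1 / 2 : ℝ) := by gcongr
      _ = _ := one_mul _


end Pool.Agent.H531.VR
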