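import Pool.Agent.H531.VR.FG

set_option autoImplicit false

/-!
# The conjecture of Friedlander and Goldston in the random sieve model
-/

open Finset MeasureTheory ProbabilityTheory Filter Topology

namespace Pool.Agent.H531.VR

open Pool.Agent.T2H31.HV
open Pool.Agent
open Pool.Agent.T2H32.BF

theorem cQ_nonneg (Q : ℕ) : 0 ≤ cQ Q := by
  unfold cQ
  apply sum_nonneg
  intro p hp
  have hp2 : (2 : ℝ) ≤ p := by exact_mod_cast (Nat.prime_of_mem_primeFactors hp).two_le
  exact div_nonneg (Real.log_nonneg (by linarith)) (by linarith)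

theorem cQ_le (Q : ℕ) (hQ : 1 ≤ Q) : cQ Q ≤ Real.log Q := by
  have h1 : cQ Q ≤ ∑ p ∈ Q.primeFactors, Real.log p := by
    unfold cQ
    apply sum_le_sum
    intro p hp
    have hp2 : (2 : ℝ) ≤ p := by exact_mod_cast (Nat.prime_of_mem_primeFactors hp).two_le
    apply div_le_self (Real.log_nonneg (by linarith))
    linarith
  refine h1.trans ?_
  rw [← Real.log_prod (fun p hp => by
    have hp2 : (2 : ℝ) ≤ p := by exact_mod_cast (Nat.prime_of_mem_primeFactors hp).two_le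
    linarith)]
  apply Real.log_le_log
  · apply prod_pos
    intro p hp
    exact_mod_cast (Nat.prime_of_mem_primeFactors hp).pos
  · have h3 : (∏ p ∈ Q.primeFactors, p) ≤ Q := Nat.le_of_dvd (by omega) (Nat.prod_primeFactors_dvd Q)
    have h4 : ((∏ p ∈ Q.primeFactors, p : ℕ) : ℝ) ≤ Q := by exact_mod_cast h3
    rwa [Nat.cast_prod] at h4

theorem main_FG (Ω : Type) [MeasurableSpace Ω] (P : Measure Ω) (a : ℕ → Ω → ℕ) (h : T2H32.BF.Model P a) :
    ∀ᵐ ω ∂P, (∀ Q : ℕ, 1 ≤ Q → (Cl Q (fun q => a q ω)).card = Nat.totient Q) ∧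
      ∀ ε δ : ℝ, 0 < ε → 0 < δ → ∀ᶠ X : ℝ in atTop, ∀ Q : ℕ, X ^ (1 / 2 + ε) < Q → (Q : ℝ) < X ^ (1 - ε) →
        |GX z0 (fun q => a q ω) X Q - X * Real.log Q +
          X * (cQ Q + Real.eulerMascheroniConstant + Real.log (2 * Real.pi))| ≤ δ * X := by
  have hFL := T_FL (T_ANO T_BV) (T_MOM T_FIN) T_TR
  have hE1 := T_E1 T_Z
  have hE3 := T_E3 T_Z T_RAT
  filter_upwards [FLat_of hFL Ω P a h, ae_lt h] with ω hω hlt
  set b : ℕ → ℕ := fun q => a q ω with hb
  have hb' : ∀ Q : ℕ, ∀ p ∈ Q.primeFactors, b p < p := fun Q p hp => hlt p (Nat.prime_of_mem_primeFactors hp)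
  have hcard : ∀ Q : ℕ, 1 ≤ Q → (Cl Q b).card = Nat.totient Q := fun Q hQ =>
    (T_G z0 z0_mono T_Z.1 b Q Q hQ le_rfl (hb' Q)).1
  refine ⟨hcard, fun ε δ hε hδ => ?_⟩
  rcases le_or_gt (1 / 4) ε with hε4 | hε4
  · filter_upwards [eventually_ge_atTop 1] with X hX Q hQ1 hQ2
    have h1 : X ^ (1 - ε) ≤ X ^ (1 / 2 + ε) := Real.rpow_le_rpow_of_exponent_le hX (by linarith)
    linarith
  set ε' : ℝ := ε / 2 with hε'
  have hε'0 : 0 < ε' := by positivity
  set δ' : ℝ := min (δ / 4) 1 with hδ'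
  have hδ'0 : 0 < δ' := lt_min (by positivity) one_pos
  have hδ'1 : δ' ≤ δ / 4 := min_le_left _ _
  have hδ'2 : δ' ≤ 1 := min_le_right _ _
  have hη : 0 < min (ε' / 2) (1 / 4 : ℝ) := lt_min (by positivity) (by norm_num)
  have hN := (det_main_s hE1 hE3 T_G T_Z ε' δ' hε'0 (by linarith) hδ'0).and (hω _ hη)
  have hfl : Tendsto (fun X : ℝ => ⌊X⌋₊) atTop atTop := tendsto_nat_floor_atTop
  have hlogX : Tendsto Real.log atTop atTop := Real.tendsto_log_atTop
  have hlo := (isLittleO_log_rpow_atTop (show (0 : ℝ) < 1 / 2 by norm_num)).bound (show 0 < δ' / 40 by positivity)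
  have hpow : ∀ᶠ X : ℝ in atTop, 2 ≤ X ^ ε' := (tendsto_rpow_atTop hε'0).eventually_ge_atTop 2
  filter_upwards [hfl.eventually hN, eventually_ge_atTop (max 16 (40 / δ')), hlogX.eventually_ge_atTop 4, hlo,
    (tendsto_natCast_atTop_atTop.comp hfl).eventually hpow] with X hX hXb hXl hXo hpow Q hQ1 hQ2
  obtain ⟨hdet, hFL'⟩ := hX
  have hX16 : 16 ≤ X := (le_max_left _ _).trans hXb
  have hXδ : 40 / δ' ≤ X := (le_max_right _ _).trans hXb
  have hX0 : 0 < X := by linarith
  rw [Real.norm_of_nonneg (by linarith), Real.norm_of_nonneg (by positivity)] at hXo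
  set N := ⌊X⌋₊ with hNdef
  have hNX : (N : ℝ) ≤ X := Nat.floor_le hX0.le
  have hXN : X < N + 1 := Nat.lt_floor_add_one X
  have hN15 : (15 : ℝ) ≤ N := by linarith
  have hN0 : (0 : ℝ) < N := by linarith
  have hN1 : (1 : ℝ) ≤ N := by linarith
  have hQr0 : (0 : ℝ) < Q := lt_of_le_of_lt (by positivity) hQ1
  have hQ1' : 1 ≤ Q := by
    have : 0 < Q := by exact_mod_cast hQr0
    omega
  have hQX : (Q : ℝ) < X := by
    refine hQ2.trans_le ?_
    calc X ^ (1 - ε) ≤ X ^ (1 : ℝ) := Real.rpow_le_rpow_of_exponent_le (by linarith) (by linarith)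
      _ = X := Real.rpow_one _
  have hQN : Q ≤ N := Nat.le_floor hQX.le
  have hQl : (N : ℝ) ^ (1 / 2 + ε') < Q := by
    refine lt_of_le_of_lt ?_ hQ1
    calc (N : ℝ) ^ (1 / 2 + ε') ≤ (N : ℝ) ^ (1 / 2 + ε) := Real.rpow_le_rpow_of_exponent_le hN1 (by linarith)
      _ ≤ X ^ (1 / 2 + ε) := Real.rpow_le_rpow hN0.le hNX (by positivity)
  have hQu : (Q : ℝ) ≤ (N : ℝ) ^ (1 - ε') := by
    refine hQ2.le.trans ?_
    calc X ^ (1 - ε) ≤ (2 * N) ^ (1 - ε) := Real.rpow_le_rpow hX0.le (by linarith) (by linarith)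
      _ = 2 ^ (1 - ε) * (N : ℝ) ^ (1 - ε) := Real.mul_rpow (by norm_num) hN0.le
      _ ≤ 2 * (N : ℝ) ^ (1 - ε) := by
          apply mul_le_mul_of_nonneg_right _ (by positivity)
          calc (2 : ℝ) ^ (1 - ε) ≤ 2 ^ (1 : ℝ) := Real.rpow_le_rpow_of_exponent_le (by norm_num) (by linarith)
            _ = 2 := Real.rpow_one _
      _ ≤ (N : ℝ) ^ ε' * (N : ℝ) ^ (1 - ε) := by
          apply mul_le_mul_of_nonneg_right hpow (by positivity)
      _ = (N : ℝ) ^ (1 - ε') := by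
          rw [← Real.rpow_add hN0]
          congr 1
          rw [hε']
          ring
  obtain ⟨hd1, hd2⟩ := hdet Q hQl hQu b (hb' Q) hFL'
  have hcl := GX_close z0 b X Q hX0.le hQ1' (hcard Q hQ1')
  rw [← hNdef] at hcl
  have hφ : (0 : ℝ) < Nat.totient Q := by exact_mod_cast Nat.totient_pos.2 hQ1'
  have hlogQ' : Real.log Q ≤ Real.log X := Real.log_le_log hQr0 hQX.le
  have hlogQ0 : 0 ≤ Real.log Q := Real.log_nonneg (by exact_mod_cast hQ1')
  set LX := Real.log X with hLX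
  set T : ℝ := cQ Q + Real.eulerMascheroniConstant + Real.log (2 * Real.pi) with hT
  have hγ0 : 0 < Real.eulerMascheroniConstant := by
    have := Real.one_half_lt_eulerMascheroniConstant
    linarith
  have hγ1 : Real.eulerMascheroniConstant < 1 := by
    have := Real.eulerMascheroniConstant_lt_two_thirds
    linarith
  have hpi := Real.pi_gt_three
  have hpi4 := Real.pi_le_four
  have hl2π : 0 ≤ Real.log (2 * Real.pi) := Real.log_nonneg (by linarith)
  have hl2π' : Real.log (2 * Real.pi) ≤ 3 := by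
    rw [Real.log_le_iff_le_exp (by positivity)]
    have h1 : (8 : ℝ) ≤ Real.exp 3 := by
      have h2 := Real.exp_one_gt_d9
      have e : Real.exp 3 = Real.exp 1 ^ 3 := by
        rw [← Real.exp_nat_mul]
        norm_num
      rw [e]
      calc (8 : ℝ) = 2 ^ 3 := by norm_num
        _ ≤ Real.exp 1 ^ 3 := by gcongr; linarith
    linarith
  have hT0 : 0 ≤ T := by
    have := cQ_nonneg Q
    rw [hT]
    linarith
  have hT1 : T ≤ LX + 4 := by
    have := cQ_le Q hQ1'
    rw [hT]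
    linarith
  -- the small terms
  have hsq : √X * √X = X := Real.mul_self_sqrt hX0.le
  have hXo' : LX ≤ δ' / 40 * √X := by rwa [Real.sqrt_eq_rpow]
  have hsX1 : 1 ≤ √X := Real.one_le_sqrt.2 (by linarith)
  have hLsq : LX * √X ≤ δ' / 40 * X := by
    calc LX * √X ≤ (δ' / 40 * √X) * √X := by gcongr
      _ = δ' / 40 * X := by rw [mul_assoc, hsq]
  have hGR : GR z0 b N Q / Nat.totient Q ≤ 2 * (LX * √X) := by
    have h1 : GR z0 b N Q ≤ N * (LX + 1) := by
      have h2 := (abs_le.1 hd1).2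
      have h3 : N * Real.log Q ≤ N * LX := by gcongr
      have h4 : 0 ≤ N * T := by positivity
      have h5 : δ' * N ≤ 1 * N := by gcongr
      linarith
    calc GR z0 b N Q / Nat.totient Q ≤ N * (LX + 1) / Nat.totient Q := by gcongr
      _ = (N / Nat.totient Q) * (LX + 1) := by ring
      _ ≤ (N : ℝ) ^ (1 / 2 : ℝ) * (LX + 1) := by gcongr
      _ ≤ X ^ (1 / 2 : ℝ) * (2 * LX) := by
          gcongr
          linarith
      _ = 2 * (LX * √X) := by
          rw [Real.sqrt_eq_rpow]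
          ring
  have t1 : |(N : ℝ) * Real.log Q - X * Real.log Q| ≤ LX := by
    rw [← sub_mul, abs_mul, abs_of_nonneg hlogQ0]
    have : |(N : ℝ) - X| ≤ 1 := by
      rw [abs_le]
      constructor <;> linarith
    calc |(N : ℝ) - X| * Real.log Q ≤ 1 * LX := by
          apply mul_le_mul this hlogQ' hlogQ0 (by norm_num)
      _ = LX := one_mul _
  have t2 : |(N : ℝ) * T - X * T| ≤ LX + 4 := by
    rw [← sub_mul, abs_mul, abs_of_nonneg hT0]
    have : |(N : ℝ) - X| ≤ 1 := by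
      rw [abs_le]
      constructor <;> linarith
    calc |(N : ℝ) - X| * T ≤ 1 * (LX + 4) := by
          apply mul_le_mul this hT1 hT0 (by norm_num)
      _ = LX + 4 := one_mul _
  have hid : GX z0 b X Q - X * Real.log Q + X * T = (GX z0 b X Q - GR z0 b N Q) +
      (GR z0 b N Q - N * Real.log Q + N * T) + (N * Real.log Q - X * Real.log Q) - (N * T - X * T) := by ring
  rw [hid]
  have hLX1 : LX ≤ LX * √X := le_mul_of_one_le_right (by linarith) hsX1
  have hδN : δ' * N ≤ δ' * X := by gcongr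
  have h4X : 40 ≤ δ' * X := by
    rw [div_le_iff₀ hδ'0] at hXδ
    linarith
  have hfinal : 4 * (δ' * X) ≤ δ * X := by
    have : 4 * δ' ≤ δ := by linarith
    calc 4 * (δ' * X) = (4 * δ') * X := by ring
      _ ≤ δ * X := by gcongr
  rw [abs_le] at hcl hd1 t1 t2 ⊢
  constructor <;> linarith [hcl.1, hcl.2, hd1.1, hd1.2, t1.1, t1.2, t2.1, t2.2]

end Pool.Agent.H531.VR
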