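import Pool.Agent.H531.VR.Psi
import Pool.Graph.R_pool_sql_team_seeded_707910d6.T2H31.HV.T_D1
import Pool.Graph.R_pool_sql_team_seeded_707910d6.T2H31.HV.Asm

set_option autoImplicit false

/-!
# The weighted average of the singular series, with the second order term
-/

open Finset Filter Topology

namespace Pool.Agent.H531.VR

open Pool.Agent.T2H31.HV

/-- the weighted average of the singular series -/
noncomputable def ZZ (N Q : ℕ) (H : ℝ) : ℝ := 2 * ∑ j ∈ Icc 1 ⌊H⌋₊, (H - j) * Sg N Q j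

theorem inner (H : ℝ) (hH : 0 < H) (d : ℕ) (hd : 1 ≤ d) :
    2 * ∑ i ∈ Icc 1 (⌊H⌋₊ / d), (H - ((d * i : ℕ) : ℝ)) = H ^ 2 / d - H + gg H d := by
  have hd0 : (0 : ℝ) < d := by exact_mod_cast hd
  have e : ⌊H⌋₊ / d = ⌊H / d⌋₊ := (Nat.floor_div_natCast H d).symm
  rw [e]
  set n := ⌊H / d⌋₊ with hn
  have h3 : ∀ i ∈ Icc 1 n, (H - ((d * i : ℕ) : ℝ)) = H - (d : ℝ) * (i : ℝ) := by
    intro i _
    push_cast
    ring
  rw [sum_congr rfl h3, sum_arith]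
  have hf : Int.fract (H / d) = H / d - n := by
    rw [Int.fract_eq_iff]
    refine ⟨?_, ?_, n, ?_⟩
    · have := Nat.floor_le (show 0 ≤ H / d by positivity)
      linarith
    · have := Nat.lt_floor_add_one (H / d)
      linarith
    · push_cast
      ring
  unfold gg
  rw [hf]
  field_simp
  ring

theorem ZZ_eq (N Q : ℕ) (hQ : 1 ≤ Q) (H : ℝ) (hH : 1 ≤ H) (hHN : H ≤ N) :
    ZZ N Q H = H ^ 2 * (∑ n ∈ Icc 1 ⌊H⌋₊, ww N Q n * (1 / (n : ℝ))) - H * (∑ n ∈ Icc 1 ⌊H⌋₊, ww N Q n * 1) +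
      ∑ n ∈ Icc 1 ⌊H⌋₊, ww N Q n * gg H n := by
  set K := ⌊H⌋₊ with hK
  have hKN : K ≤ N := by
    have h1 : (K : ℝ) ≤ H := Nat.floor_le (by linarith)
    exact_mod_cast h1.trans hHN
  rw [sum_ww, sum_ww, sum_ww]
  set κ : ℝ := (Q : ℝ) / Nat.totient Q with hκ
  unfold ZZ
  rw [← hK]
  have h7 : ∀ j ∈ Icc 1 K, (H - (j : ℝ)) * Sg N Q j =
      κ * ((H - (j : ℝ)) * ∑ d ∈ (SF Q N).filter (fun d => d ∣ j), gd N Q d) := by
    intro j hj
    rw [mem_Icc] at hj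
    rw [T_D1 N Q j hQ hj.1 (hj.2.trans hKN)]
    ring
  rw [sum_congr rfl h7, ← mul_sum, sum_exchange Q N K hKN (fun j : ℕ => H - (j : ℝ)) (fun d => gd N Q d)]
  have h8 : ∀ d ∈ SF Q K, gd N Q d * ∑ i ∈ Icc 1 (K / d), (H - ((d * i : ℕ) : ℝ)) =
      (1 / 2) * (H ^ 2 * (gd N Q d * (1 / (d : ℝ))) - H * (gd N Q d * 1) + gd N Q d * gg H d) := by
    intro d hd
    have hd1 := ((mem_SF Q K d).1 hd).1.1
    have h9 := inner H (by linarith) d hd1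
    rw [← hK] at h9
    have h10 : ∑ i ∈ Icc 1 (K / d), (H - ((d * i : ℕ) : ℝ)) = (1 / 2) * (H ^ 2 / d - H + gg H d) := by
      rw [← h9]
      ring
    rw [h10]
    ring
  rw [sum_congr rfl h8, ← mul_sum, sum_add_distrib, sum_sub_distrib, ← mul_sum, ← mul_sum]
  ring

/-- **The average of the singular series with the second order term.** -/
theorem Zs (ε δ : ℝ) (hε : 0 < ε) (hδ : 0 < δ) : ∀ᶠ N : ℕ in atTop, ∀ Q : ℕ, 1 ≤ Q → Q ≤ N → ∀ H : ℝ,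
    (N : ℝ) ^ ε ≤ H → H ≤ (N : ℝ) ^ (1 - ε) →
      |ZZ N Q H - (Q : ℝ) / Nat.totient Q * H ^ 2 +
        H * (Real.log H + cQ Q + Real.eulerMascheroniConstant + Real.log (2 * Real.pi) - 1)| ≤ δ * H := by
  obtain ⟨C, hC, hw⟩ := sum_ww_asymp (ε / 16) (by positivity)
  obtain ⟨C2, hC2, h2⟩ := T_D2
  obtain ⟨C4, hC4, hM⟩ := ratio_sq_moment
  obtain ⟨Cκ, hCκ, hκ'⟩ := H336V.TotLog.div_totient_le 1 one_pos
  -- the number of pieces
  obtain ⟨J, hJ1, hJ2, hJ3⟩ : ∃ J : ℕ, 1 ≤ J ∧ |∑ j ∈ Ico 1 J, sg j - (2 - Real.log (2 * Real.pi))| ≤ δ / 8 ∧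
      1 / (J : ℝ) ≤ δ / 8 := by
    have h1 := (Metric.tendsto_atTop.1 sg_lim) (δ / 8) (by positivity)
    obtain ⟨J0, hJ0⟩ := h1
    obtain ⟨J1, hJ1⟩ := exists_nat_gt (8 / δ)
    refine ⟨max (max J0 J1) 1, le_max_right _ _, ?_, ?_⟩
    · have := hJ0 (max (max J0 J1) 1) ((le_max_left _ _).trans (le_max_left _ _))
      rw [Real.dist_eq] at this
      exact this.le
    · have h2 : (J1 : ℝ) ≤ ((max (max J0 J1) 1 : ℕ) : ℝ) := by exact_mod_cast (le_max_right _ _).trans (le_max_left _ _)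
      have h3 : 8 / δ < ((max (max J0 J1) 1 : ℕ) : ℝ) := by linarith
      have h4 : (0 : ℝ) < ((max (max J0 J1) 1 : ℕ) : ℝ) := lt_trans (by positivity) h3
      rw [div_lt_iff₀ hδ] at h3
      rw [div_le_div_iff₀ h4 (by norm_num)]
      linarith
  have hJ0 : (0 : ℝ) < J := by exact_mod_cast (by omega : 0 < J)
  have hpow : ∀ r : ℝ, 0 < r → Tendsto (fun N : ℕ => (N : ℝ) ^ (-r)) atTop (𝓝 0) := fun r hr =>
    (tendsto_rpow_neg_atTop hr).comp tendsto_natCast_atTop_atTop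
  have hs1 : ∀ᶠ N : ℕ in atTop, C * (N : ℝ) ^ (-(ε / 16)) ≤ min 1 (δ / (8 * (18 * (J : ℝ) ^ 2 + 4))) := by
    have h1 := (hpow (ε / 16) (by positivity)).const_mul C
    rw [mul_zero] at h1
    exact h1.eventually_le_const (lt_min one_pos (by positivity))
  have hs2 : ∀ᶠ N : ℕ in atTop, (100 * (J : ℝ) ^ 3 + 2) * (N : ℝ) ^ (-ε) ≤ δ / 8 := by
    have h1 := (hpow ε hε).const_mul (100 * (J : ℝ) ^ 3 + 2)
    rw [mul_zero] at h1
    exact h1.eventually_le_const (by positivity)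
  have hs3 : ∀ᶠ N : ℕ in atTop, 5 * (N : ℝ) ^ (-(ε / 4)) ≤ δ / 8 := by
    have h1 := (hpow (ε / 4) (by positivity)).const_mul 5
    rw [mul_zero] at h1
    exact h1.eventually_le_const (by positivity)
  have hs4 : ∀ᶠ N : ℕ in atTop, (2 * (1 + Cκ) * C4) * Real.log N ^ 1 * (N : ℝ) ^ (-(ε / 2)) ≤ δ / 16 :=
    log_pow_small _ _ _ (by positivity) (by positivity) 1
  have hs5 : ∀ᶠ N : ℕ in atTop, ((1 + Cκ) * C2 + 1) * Real.log N ^ 1 * (N : ℝ) ^ (-ε) ≤ δ / 16 :=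
    log_pow_small _ _ _ hε (by positivity) 1
  have hs6 : ∀ᶠ N : ℕ in atTop, 4 * (J : ℝ) ≤ (N : ℝ) ^ (ε / 2) :=
    ((tendsto_rpow_atTop (by positivity : (0 : ℝ) < ε / 2)).comp tendsto_natCast_atTop_atTop).eventually_ge_atTop _
  have hlog : Tendsto (fun N : ℕ => Real.log N) atTop atTop := Real.tendsto_log_atTop.comp tendsto_natCast_atTop_atTop
  filter_upwards [hs1, hs2, hs3, hs4, hs5, hs6, eventually_ge_atTop 3, hlog.eventually_ge_atTop 1]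
    with N s1 s2 s3 s4 s5 s6 hN3 hL1 Q hQ hQN H hH1 hH2
  have hN1 : (1 : ℝ) ≤ N := by exact_mod_cast (by omega : 1 ≤ N)
  have hN0 : (0 : ℝ) < N := by linarith
  rw [pow_one] at s4 s5
  set L := Real.log N with hL
  have hNε1 : 1 ≤ (N : ℝ) ^ ε := Real.one_le_rpow hN1 hε.le
  have hH1' : 1 ≤ H := hNε1.trans hH1
  have hH0 : 0 < H := by linarith
  have hHN : H < N := by
    refine lt_of_le_of_lt hH2 ?_
    calc (N : ℝ) ^ (1 - ε) < (N : ℝ) ^ (1 : ℝ) := by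
          apply Real.rpow_lt_rpow_of_exponent_lt _ (by linarith)
          exact_mod_cast (by omega : 1 < N)
      _ = N := Real.rpow_one _
  set K := ⌊H⌋₊ with hK
  have hKH : (K : ℝ) ≤ H := Nat.floor_le hH0.le
  have hHK : H < K + 1 := Nat.lt_floor_add_one H
  have hK1 : 1 ≤ K := Nat.le_floor (by exact_mod_cast hH1')
  have hK0 : (0 : ℝ) < K := by exact_mod_cast hK1
  have hKN : K < N := by
    have : (K : ℝ) < N := lt_of_le_of_lt hKH hHN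
    exact_mod_cast this
  have hHinv : ∀ r : ℝ, 0 ≤ r → H ^ (-r) ≤ (N : ℝ) ^ (-(ε * r)) := by
    intro r hr
    rw [Real.rpow_neg hH0.le, Real.rpow_neg hN0.le]
    apply inv_anti₀ (by positivity)
    rw [Real.rpow_mul hN0.le]
    exact Real.rpow_le_rpow (by positivity) hH1 hr
  have hHε : 1 ≤ H * (N : ℝ) ^ (-ε) := by
    rw [Real.rpow_neg hN0.le, ← div_eq_mul_inv, le_div_iff₀ (by positivity), one_mul]
    exact hH1
  -- the uniform estimate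
  set D := ⌈(N : ℝ) ^ (ε / 2)⌉₊ with hD
  have hD1 : (N : ℝ) ^ (ε / 2) ≤ D := Nat.le_ceil _
  have hD2 : (D : ℝ) ≤ 2 * (N : ℝ) ^ (ε / 2) := by
    have h1 := Nat.ceil_lt_add_one (show 0 ≤ (N : ℝ) ^ (ε / 2) by positivity)
    have h2 : 1 ≤ (N : ℝ) ^ (ε / 2) := Real.one_le_rpow hN1 (by positivity)
    rw [← hD] at h1
    linarith
  have hDpos : (0 : ℝ) < D := lt_of_lt_of_le (by positivity) hD1
  set δ' := C * (N : ℝ) ^ (-(ε / 16)) with hδ'
  have hδ'0 : 0 ≤ δ' := by positivity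
  have hδ'1 : δ' ≤ 1 := s1.trans (min_le_left _ _)
  have hδ'2 : δ' * (18 * (J : ℝ) ^ 2 + 4) ≤ δ / 8 := by
    have h1 := s1.trans (min_le_right _ _)
    rw [le_div_iff₀ (by positivity)] at h1
    linarith
  have hu : ∀ n, D ≤ n → n ≤ N → |∑ k ∈ Icc 1 n, (ww N Q k - 1 / (k : ℝ)) - cQ Q| ≤ δ' := by
    intro n hn1 hn2
    have hDn : (D : ℝ) ≤ n := by exact_mod_cast hn1
    have hn0 : (0 : ℝ) < n := by linarith
    refine (hw N Q n hQ hQN (by exact_mod_cast hn0) hn2).trans ?_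
    rw [hδ', mul_assoc]
    apply mul_le_mul_of_nonneg_left _ hC.le
    calc (N : ℝ) ^ (ε / 16) * (n : ℝ) ^ (-(1 / 4) : ℝ) ≤ (N : ℝ) ^ (ε / 16) * ((N : ℝ) ^ (ε / 2)) ^ (-(1 / 4) : ℝ) := by
          apply mul_le_mul_of_nonneg_left _ (by positivity)
          exact Real.rpow_le_rpow_of_nonpos (by positivity) (hD1.trans hDn) (by norm_num)
      _ = (N : ℝ) ^ (-(ε / 16)) := by
          rw [← Real.rpow_mul hN0.le, ← Real.rpow_add hN0]
          congr 1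
          ring
  have hsplit : (N : ℝ) ^ ε = (N : ℝ) ^ (ε / 2) * (N : ℝ) ^ (ε / 2) := by
    rw [← Real.rpow_add hN0]
    congr 1
    ring
  have h1ε : 1 ≤ (N : ℝ) ^ (ε / 2) := Real.one_le_rpow hN1 (by positivity)
  have hJH : 2 * (J : ℝ) ≤ H := by
    refine le_trans ?_ hH1
    rw [hsplit]
    nlinarith
  have hDT : D ≤ ⌊H / (J : ℝ)⌋₊ := by
    apply Nat.le_floor
    rw [le_div_iff₀ hJ0]
    refine le_trans ?_ hH1
    rw [hsplit]
    calc (D : ℝ) * J ≤ (2 * (N : ℝ) ^ (ε / 2)) * ((N : ℝ) ^ (ε / 2) / 4) := by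
          apply mul_le_mul hD2 (by linarith) hJ0.le (by positivity)
      _ ≤ (N : ℝ) ^ (ε / 2) * (N : ℝ) ^ (ε / 2) := by nlinarith
  have hDK : D ≤ K := hDT.trans (Nat.floor_le_floor (div_le_self hH0.le (by exact_mod_cast hJ1)))
  -- the factor κ
  have hφ : (0 : ℝ) < Nat.totient Q := by exact_mod_cast Nat.totient_pos.2 hQ
  set κ : ℝ := (Q : ℝ) / Nat.totient Q with hκdef
  have hκ0 : 0 ≤ κ := by positivity
  have hκL : κ ≤ (1 + Cκ) * L := by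
    have h := hκ' Q hQ
    rw [one_mul] at h
    have hQL : Real.log Q ≤ L := Real.log_le_log (by exact_mod_cast hQ) (by exact_mod_cast hQN)
    nlinarith
  -- the small d
  have hR : ∑ n ∈ Icc 1 D, ww N Q n * n ≤ δ / 16 * H := by
    have h1 : ∑ n ∈ Icc 1 D, ww N Q n * (n : ℝ) ≤ κ * (C4 * D) := by
      rw [sum_ww]
      apply mul_le_mul_of_nonneg_left _ hκ0
      calc ∑ d ∈ SF Q D, gd N Q d * (d : ℝ) ≤ ∑ d ∈ SF Q D, ((d : ℝ) / (Nat.totient d : ℝ)) ^ 2 := by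
            refine sum_le_sum fun d hd => ?_
            have h11 := gd_le N Q d
            calc gd N Q d * (d : ℝ) ≤ (d : ℝ) / (Nat.totient d : ℝ) ^ 2 * d := by gcongr
              _ = ((d : ℝ) / (Nat.totient d : ℝ)) ^ 2 := by ring
        _ ≤ ∑ d ∈ Icc 1 D, ((d : ℝ) / (Nat.totient d : ℝ)) ^ 2 := by
            refine sum_le_sum_of_subset_of_nonneg ?_ fun _ _ _ => by positivity
            intro d hd
            exact mem_Icc.2 ((mem_SF Q D d).1 hd).1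
        _ ≤ C4 * D := hM D
    refine h1.trans ?_
    calc κ * (C4 * D) ≤ ((1 + Cκ) * L) * (C4 * (2 * (N : ℝ) ^ (ε / 2))) := by
          gcongr
      _ = (2 * (1 + Cκ) * C4 * L * (N : ℝ) ^ (-(ε / 2))) * ((N : ℝ) ^ (ε / 2) * (N : ℝ) ^ (ε / 2)) := by
          have e : (N : ℝ) ^ (-(ε / 2)) * (N : ℝ) ^ (ε / 2) = 1 := by
            rw [← Real.rpow_add hN0, neg_add_cancel, Real.rpow_zero]
          linear_combination (-(2 * (1 + Cκ) * C4 * L * (N : ℝ) ^ (ε / 2))) * e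
      _ ≤ δ / 16 * ((N : ℝ) ^ (ε / 2) * (N : ℝ) ^ (ε / 2)) := by gcongr
      _ = δ / 16 * (N : ℝ) ^ ε := by rw [hsplit]
      _ ≤ δ / 16 * H := by gcongr
  -- third sum
  have hpsi := psi_total (ww N Q) (ww_nonneg N Q) (cQ Q) δ' hδ'0 hδ'1 H J D (δ / 16 * H) (by positivity) hJ1 hJH hDT
    (fun n h1 h2 => hu n h1 (h2.trans hKN.le)) hR
  rw [← hK] at hpsi
  -- second sum
  have hsec : |∑ n ∈ Icc 1 K, ww N Q n * 1 - (Real.log H + Real.eulerMascheroniConstant + cQ Q)| ≤ δ' + δ / 8 := by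
    have h1 := hu K hDK hKN.le
    have h2 := harmonic_asymp H hH0
    rw [← hK] at h2
    have h3 : 5 * H ^ (-(1 / 4) : ℝ) ≤ δ / 8 := by
      refine le_trans ?_ s3
      have := hHinv (1 / 4) (by norm_num)
      rw [show ε * (1 / 4) = ε / 4 by ring] at this
      linarith
    rw [sum_sub_distrib] at h1
    simp only [mul_one]
    rw [abs_le] at h1 h2 ⊢
    constructor <;> linarith [h1.1, h1.2, h2.1, h2.2]
  -- first sum
  have hfirst : |H ^ 2 * (∑ n ∈ Icc 1 K, ww N Q n * (1 / (n : ℝ))) - κ * H ^ 2 + H| ≤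
      3 * δ' * H + 2 + δ / 16 * H := by
    have hAN : ∑ n ∈ Icc 1 N, ww N Q n * (1 / (n : ℝ)) = κ * ∑ d ∈ SF Q N, gd N Q d / d := by
      rw [sum_ww]
      congr 1
      exact sum_congr rfl fun d _ => by ring
    obtain ⟨t1, t2⟩ := h2 N Q N hQ (by omega) le_rfl
    set AN := ∑ d ∈ SF Q N, gd N Q d / d with hAN'
    have e1 : Icc 1 K = Ioc 0 K := rfl
    have e2 : Icc 1 N = Ioc 0 N := rfl
    have hsum : ∑ n ∈ Icc 1 N, ww N Q n * (1 / (n : ℝ)) = ∑ n ∈ Icc 1 K, ww N Q n * (1 / (n : ℝ)) +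
        ∑ n ∈ Ioc K N, ww N Q n * (1 / (n : ℝ)) := by
      rw [e1, e2, sum_Ioc_consecutive _ (Nat.zero_le K) hKN.le]
    have h3 : ∑ n ∈ Ioc K N, ww N Q n * (1 / (n : ℝ)) = ∑ n ∈ Ioc K N, (ww N Q n - 1 / (n : ℝ)) * (1 / (n : ℝ)) +
        ∑ n ∈ Ioc K N, 1 / (n : ℝ) ^ 2 := by
      rw [← sum_add_distrib]
      apply sum_congr rfl
      intro n _
      ring
    obtain ⟨-, -, b3⟩ := three (ww N Q) (cQ Q) δ' hδ'0 K N hKN (fun n h1 h2 => hu n (hDK.trans h1) h2)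
    obtain ⟨q1, q2⟩ := sum_inv_sq K N hK1 hKN.le
    have hid : H ^ 2 * (∑ n ∈ Icc 1 K, ww N Q n * (1 / (n : ℝ))) - κ * H ^ 2 + H =
        -(κ * (1 - AN) * H ^ 2) - H ^ 2 * (∑ n ∈ Ioc K N, (ww N Q n - 1 / (n : ℝ)) * (1 / (n : ℝ))) -
          (H ^ 2 * (∑ n ∈ Ioc K N, 1 / (n : ℝ) ^ 2) - H) := by
      have h4 : ∑ n ∈ Icc 1 K, ww N Q n * (1 / (n : ℝ)) = κ * AN -
          (∑ n ∈ Ioc K N, (ww N Q n - 1 / (n : ℝ)) * (1 / (n : ℝ)) + ∑ n ∈ Ioc K N, 1 / (n : ℝ) ^ 2) := by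
        rw [← h3, ← hAN, hsum]
        ring
      rw [h4]
      ring
    rw [hid]
    have c1 : |κ * (1 - AN) * H ^ 2| ≤ (1 + Cκ) * C2 * L * (N : ℝ) ^ (-ε) * H := by
      rw [abs_of_nonneg (by positivity)]
      have h5 : H / N ≤ (N : ℝ) ^ (-ε) := by
        rw [div_le_iff₀ hN0]
        refine hH2.trans (le_of_eq ?_)
        rw [← Real.rpow_add_one hN0.ne']
        congr 1
        ring
      calc κ * (1 - AN) * H ^ 2 ≤ ((1 + Cκ) * L) * (C2 / N) * H ^ 2 := by gcongr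
        _ = (1 + Cκ) * C2 * L * (H / N) * H := by ring
        _ ≤ (1 + Cκ) * C2 * L * (N : ℝ) ^ (-ε) * H := by
            have : 0 ≤ L := by linarith
            gcongr
    have c2 : |H ^ 2 * (∑ n ∈ Ioc K N, (ww N Q n - 1 / (n : ℝ)) * (1 / (n : ℝ)))| ≤ 3 * δ' * H := by
      rw [abs_mul, abs_of_nonneg (by positivity)]
      calc H ^ 2 * |∑ n ∈ Ioc K N, (ww N Q n - 1 / (n : ℝ)) * (1 / (n : ℝ))| ≤ H ^ 2 * (3 * δ' / (K + 1)) := by gcongr
        _ = 3 * δ' * H * (H / (K + 1)) := by ring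
        _ ≤ 3 * δ' * H * 1 := by
            have : H / ((K : ℝ) + 1) ≤ 1 := by
              rw [div_le_one (by positivity)]
              exact hHK.le
            gcongr
        _ = 3 * δ' * H := mul_one _
    have c3 : |H ^ 2 * (∑ n ∈ Ioc K N, 1 / (n : ℝ) ^ 2) - H| ≤ 2 + L * (N : ℝ) ^ (-ε) * H := by
      have h5 : H / N ≤ (N : ℝ) ^ (-ε) := by
        rw [div_le_iff₀ hN0]
        refine hH2.trans (le_of_eq ?_)
        rw [← Real.rpow_add_one hN0.ne']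
        congr 1
        ring
      have h5' : H ^ 2 * (1 / ((N : ℝ) + 1)) ≤ L * (N : ℝ) ^ (-ε) * H := by
        calc H ^ 2 * (1 / ((N : ℝ) + 1)) ≤ H ^ 2 * (1 / N) := by
              apply mul_le_mul_of_nonneg_left _ (by positivity)
              exact one_div_le_one_div_of_le hN0 (by linarith)
          _ = 1 * (H / N) * H := by ring
          _ ≤ L * (N : ℝ) ^ (-ε) * H := by gcongr
      have h6 : H ^ 2 * (1 / ((K : ℝ) + 1) - 1 / ((N : ℝ) + 1)) ≤ H ^ 2 * (∑ n ∈ Ioc K N, 1 / (n : ℝ) ^ 2) := by gcongr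
      have h7 : H ^ 2 * (∑ n ∈ Ioc K N, 1 / (n : ℝ) ^ 2) ≤ H ^ 2 * (1 / K - 1 / N) := by gcongr
      have h8 : H - 1 ≤ H ^ 2 * (1 / ((K : ℝ) + 1)) := by
        rw [mul_one_div, le_div_iff₀ (by positivity)]
        nlinarith
      have h9 : H ^ 2 * (1 / (K : ℝ)) ≤ H + 2 := by
        rw [mul_one_div, div_le_iff₀ hK0]
        have : (1 : ℝ) ≤ K := by exact_mod_cast hK1
        nlinarith
      have h10 : 0 ≤ H ^ 2 * (1 / (N : ℝ)) := by positivity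
      have h11 : 0 ≤ L * (N : ℝ) ^ (-ε) * H := by
        have : 0 ≤ L := by linarith
        positivity
      rw [abs_le]
      constructor <;> linarith
    have c4 : (1 + Cκ) * C2 * L * (N : ℝ) ^ (-ε) * H + L * (N : ℝ) ^ (-ε) * H ≤ δ / 16 * H := by
      have e : (1 + Cκ) * C2 * L * (N : ℝ) ^ (-ε) * H + L * (N : ℝ) ^ (-ε) * H =
        (((1 + Cκ) * C2 + 1) * L * (N : ℝ) ^ (-ε)) * H := by ring
      rw [e]
      gcongr
    rw [abs_le] at c1 c2 c3 ⊢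
    constructor <;> linarith [c1.1, c1.2, c2.1, c2.2, c3.1, c3.2]
  rw [ZZ_eq N Q hQ H hH1' hHN.le, ← hK]
  set S1 := ∑ n ∈ Icc 1 K, ww N Q n * (1 / (n : ℝ)) with hS1
  set S2 := ∑ n ∈ Icc 1 K, ww N Q n * 1 with hS2
  set S3 := ∑ n ∈ Icc 1 K, ww N Q n * gg H n with hS3
  set σ := ∑ j ∈ Ico 1 J, sg j with hσ
  have hid : H ^ 2 * S1 - H * S2 + S3 - κ * H ^ 2 +
      H * (Real.log H + cQ Q + Real.eulerMascheroniConstant + Real.log (2 * Real.pi) - 1) =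
      (H ^ 2 * S1 - κ * H ^ 2 + H) - H * (S2 - (Real.log H + Real.eulerMascheroniConstant + cQ Q)) +
        (S3 - H * σ) + H * (σ - (2 - Real.log (2 * Real.pi))) := by ring
  rw [hid]
  have d2 : |H * (S2 - (Real.log H + Real.eulerMascheroniConstant + cQ Q))| ≤ H * (δ' + δ / 8) := by
    rw [abs_mul, abs_of_pos hH0]
    gcongr
  have d4 : |H * (σ - (2 - Real.log (2 * Real.pi)))| ≤ H * (δ / 8) := by
    rw [abs_mul, abs_of_pos hH0]
    gcongr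
  have d5 : H / J ≤ H * (δ / 8) := by
    rw [div_eq_mul_one_div]
    gcongr
  have d6 : 100 * (J : ℝ) ^ 3 + 2 ≤ δ / 8 * H := by
    calc 100 * (J : ℝ) ^ 3 + 2 = (100 * (J : ℝ) ^ 3 + 2) * 1 := (mul_one _).symm
      _ ≤ (100 * (J : ℝ) ^ 3 + 2) * (H * (N : ℝ) ^ (-ε)) := by gcongr
      _ = ((100 * (J : ℝ) ^ 3 + 2) * (N : ℝ) ^ (-ε)) * H := by ring
      _ ≤ δ / 8 * H := by gcongr
  have d7 : 18 * (J : ℝ) ^ 2 * δ' * H + 4 * δ' * H ≤ δ / 8 * H := by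
    have e : 18 * (J : ℝ) ^ 2 * δ' * H + 4 * δ' * H = (δ' * (18 * (J : ℝ) ^ 2 + 4)) * H := by ring
    rw [e]
    gcongr
  have hδH : 0 ≤ δ * H := by positivity
  rw [abs_le] at hfirst hpsi d2 d4 ⊢
  constructor <;> linarith [hfirst.1, hfirst.2, hpsi.1, hpsi.2, d2.1, d2.2, d4.1, d4.2]

end Pool.Agent.H531.VR
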