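import Pool.Agent.H531.VR.E1s
import Pool.Agent.H531.VR.Zs
import Pool.Graph.R_pool_sql_team_seeded_707910d6.T2H31.HV.All

set_option autoImplicit false

/-!
# The variance in short intervals: the deterministic part
-/

open Finset MeasureTheory ProbabilityTheory Filter Topology

namespace Pool.Agent.H531.VR

open Pool.Agent.T2H31.HV
open Pool.Agent
open Pool.Agent.T2H32.BF

theorem Sg_nonneg1 (N j : ℕ) : 0 ≤ Sg N 1 j := by
  unfold Sg
  apply mul_nonneg (by positivity)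
  apply prod_nonneg
  intro p hp
  have hp2 : (2 : ℝ) ≤ p := by
    have := ((mem_PN N p).1 (mem_filter.1 hp).1).2.two_le
    exact_mod_cast this
  split_ifs
  · exact div_nonneg (by linarith) (by linarith)
  · have h1 : 1 ≤ ((p : ℝ) - 1) ^ 2 := by nlinarith
    have h2 : 1 / ((p : ℝ) - 1) ^ 2 ≤ 1 := by
      rw [div_le_one (by linarith)]
      exact h1
    linarith

theorem cQ_one : cQ 1 = 0 := by
  unfold cQ
  simp

theorem det_GM (hE1 : P_E1) (hE3 : P_E3) (hZ : P_Z) (ε δ : ℝ) (hε : 0 < ε) (hε4 : ε ≤ 1 / 4) (hδ : 0 < δ) :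
    ∀ᶠ N : ℕ in atTop, ∀ H : ℝ, (N : ℝ) ^ ε ≤ H → H ≤ (N : ℝ) ^ (1 / 2 - ε) → ∀ b : ℕ → ℕ,
      FLat (min (ε / 2) (1 / 4)) N b →
      |H * PF z0 1 0 N (fun n => Real.log n * Real.log ((n + 0 : ℕ) : ℝ)) b +
        2 * ∑ h ∈ Icc 1 ⌊H⌋₊, (H - h) * PF z0 1 h N (fun n => Real.log n * Real.log ((n + h : ℕ) : ℝ)) b -
        N * H ^ 2 - N * H * (Real.log N - Real.log H - (Real.eulerMascheroniConstant + Real.log (2 * Real.pi)))| ≤
        δ * (N * H) ∧
      |2 * H ^ 2 * (PF z0 1 0 N (fun n => Real.log n) b - N)| ≤ δ * (N * H) := by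
  obtain ⟨C1, hC1, h1⟩ := hE1
  obtain ⟨C0, hC0, h0⟩ := E1s hZ
  obtain ⟨C3, hC3, h3⟩ := hE3
  set η : ℝ := min (ε / 2) (1 / 4) with hη
  have hη1 : η ≤ ε / 2 := min_le_left _ _
  have hη2 : η ≤ 1 / 4 := min_le_right _ _
  have hη0 : 0 < η := lt_min (by positivity) (by norm_num)
  set δ1 : ℝ := min (δ / 4) 1 with hδ1
  have hδ1a : δ1 ≤ δ / 4 := min_le_left _ _
  have hδ1b : δ1 ≤ 1 := min_le_right _ _
  have hδ10 : 0 < δ1 := lt_min (by positivity) one_pos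
  have hlog : Tendsto (fun N : ℕ => Real.log N) atTop atTop := Real.tendsto_log_atTop.comp tendsto_natCast_atTop_atTop
  filter_upwards [h1, h3, Zs ε δ1 hε hδ10, hlog.eventually_ge_atTop 1,
    h0, eventually_ge_atTop 3,
    log_pow_small (8 * (2 + C0 + C1 + C3)) (ε / 2) (δ / 4) (by positivity) (by positivity) 5]
    with N h1 h3 h5 hL1 h0 hN3 hS H hHε hH b hFL
  have hN1 : (1 : ℝ) ≤ N := by exact_mod_cast (by omega : 1 ≤ N)
  have hN0 : (0 : ℝ) < N := by linarith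
  set L : ℝ := Real.log N with hL
  have hL0 : 0 ≤ L := by linarith
  have hH1 : 1 ≤ H := by
    refine le_trans ?_ hHε
    exact Real.one_le_rpow hN1 hε.le
  have hH0 : 0 < H := by linarith
  have hsq : √(N : ℝ) = (N : ℝ) ^ (1 / 2 : ℝ) := Real.sqrt_eq_rpow _
  set Y : ℝ := (N : ℝ) ^ (-(ε / 2)) with hY
  have hY0 : 0 ≤ Y := by positivity
  -- H times the fluctuations
  have hP1 : H * (N : ℝ) ^ (1 / 2 + η) ≤ N * Y := by
    calc H * (N : ℝ) ^ (1 / 2 + η) ≤ (N : ℝ) ^ (1 / 2 - ε) * (N : ℝ) ^ (1 / 2 + η) := by gcongr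
      _ = (N : ℝ) ^ (1 - ε + η) := by
          rw [← Real.rpow_add hN0]
          congr 1
          ring
      _ ≤ (N : ℝ) ^ (1 + -(ε / 2)) := Real.rpow_le_rpow_of_exponent_le hN1 (by linarith)
      _ = N * Y := by rw [Real.rpow_add hN0, Real.rpow_one]
  have hsqη : √(N : ℝ) ≤ (N : ℝ) ^ (1 / 2 + η) := by
    rw [hsq]
    exact Real.rpow_le_rpow_of_exponent_le hN1 (by linarith)
  have hP2 : H * √(N : ℝ) ≤ N * Y := (mul_le_mul_of_nonneg_left hsqη hH0.le).trans hP1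
  have hηN : (N : ℝ) ^ (1 / 2 + η) ≤ N * Y := by
    refine le_trans ?_ hP1
    exact le_mul_of_one_le_left (by positivity) hH1
  have hsN : √(N : ℝ) ≤ N * Y := hsqη.trans hηN
  have hHH : H * H ≤ N * Y := by
    refine le_trans ?_ hP2
    apply mul_le_mul_of_nonneg_left _ hH0.le
    rw [hsq]
    exact hH.trans (Real.rpow_le_rpow_of_exponent_le hN1 (by linarith))
  have hHN : H ≤ N := by
    refine hH.trans ?_
    calc (N : ℝ) ^ (1 / 2 - ε) ≤ (N : ℝ) ^ (1 : ℝ) := Real.rpow_le_rpow_of_exponent_le hN1 (by linarith)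
      _ = N := Real.rpow_one _
  have hfl : ⌊H⌋₊ ≤ N := by
    have := Nat.floor_le hH0.le
    have h2 : (⌊H⌋₊ : ℝ) ≤ N := this.trans hHN
    exact_mod_cast h2
  have hLp : ∀ m n : ℕ, m ≤ n → L ^ m ≤ L ^ n := fun m n h => pow_le_pow_right₀ hL1 h
  have hl5 : 1 ≤ L ^ 5 := one_le_pow₀ hL1
  have hl35 : L ^ 3 ≤ L ^ 5 := hLp 3 5 (by norm_num)
  -- the single errors
  have e0 := (hFL 1 0 (by omega) (Nat.zero_le _)).1
  have e0' := h0 1 le_rfl (by omega)
  have e1 := (hFL 1 0 (by omega) (Nat.zero_le _)).2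
  have e1' := (h1 1 le_rfl (by omega)).1
  set P0 := PF z0 1 0 N (fun n => Real.log n * Real.log ((n + 0 : ℕ) : ℝ)) b with hP0
  set P1 := PF z0 1 0 N (fun n => Real.log n) b with hP1'
  have hP0b : |P0 - (N * L - N)| ≤ (1 + C0) * L ^ 5 * (N * Y) := by
    have a := abs_sub_le P0 (EF z0 1 0 N (fun n => Real.log n * Real.log ((n + 0 : ℕ) : ℝ))) (N * L - N)
    have a1 : (N : ℝ) ^ (1 / 2 + η) ≤ L ^ 5 * (N * Y) := by
      refine hηN.trans (le_mul_of_one_le_left (by positivity) hl5)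
    have a2 : C0 * √(N : ℝ) * L ^ 3 ≤ C0 * (N * Y) * L ^ 5 := by gcongr
    calc |P0 - (N * L - N)| ≤ (N : ℝ) ^ (1 / 2 + η) + C0 * √(N : ℝ) * L ^ 3 := by linarith
      _ ≤ L ^ 5 * (N * Y) + C0 * (N * Y) * L ^ 5 := by linarith
      _ = (1 + C0) * L ^ 5 * (N * Y) := by ring
  have hP1b : H * |P1 - N| ≤ (1 + C1) * L ^ 5 * (N * Y) := by
    have a := abs_sub_le P1 (EF z0 1 0 N (fun n => Real.log n)) N
    have a0 : |P1 - N| ≤ (N : ℝ) ^ (1 / 2 + η) + C1 * √(N : ℝ) * L ^ 3 := by linarith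
    calc H * |P1 - N| ≤ H * ((N : ℝ) ^ (1 / 2 + η) + C1 * √(N : ℝ) * L ^ 3) := by gcongr
      _ = 1 * (H * (N : ℝ) ^ (1 / 2 + η)) + C1 * (H * √(N : ℝ)) * L ^ 3 := by ring
      _ ≤ L ^ 5 * (N * Y) + C1 * (N * Y) * L ^ 5 := by
          have hNY : 0 ≤ N * Y := by positivity
          gcongr
      _ = (1 + C1) * L ^ 5 * (N * Y) := by ring
  set SP := ∑ h ∈ Icc 1 ⌊H⌋₊, (H - h) * PF z0 1 h N (fun n => Real.log n * Real.log ((n + h : ℕ) : ℝ)) b with hSP
  set SS := ∑ h ∈ Icc 1 ⌊H⌋₊, (H - h) * ((N - h) * Sg N 1 h) with hSS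
  set S1 := ∑ h ∈ Icc 1 ⌊H⌋₊, (H - h) * Sg N 1 h with hS1
  have hhH : ∀ h ∈ Icc 1 ⌊H⌋₊, 0 ≤ H - (h : ℝ) := by
    intro h hh
    rw [mem_Icc] at hh
    have := (Nat.le_floor_iff hH0.le).1 hh.2
    linarith
  have hj : |SP - SS| ≤ H * ((1 + C3) * L ^ 5 * (N * Y)) := by
    rw [hSP, hSS, ← sum_sub_distrib]
    refine (abs_sum_le_sum_abs _ _).trans ?_
    have hc : ((Icc 1 ⌊H⌋₊).card : ℝ) ≤ H := by
      rw [Nat.card_Icc, Nat.add_sub_cancel]
      exact Nat.floor_le hH0.le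
    calc ∑ h ∈ Icc 1 ⌊H⌋₊, |(H - h) * PF z0 1 h N (fun n => Real.log n * Real.log ((n + h : ℕ) : ℝ)) b -
          (H - h) * ((N - h) * Sg N 1 h)| ≤
        ∑ h ∈ Icc 1 ⌊H⌋₊, H * ((N : ℝ) ^ (1 / 2 + η) + C3 * √(N : ℝ) * L ^ 5) := by
          apply sum_le_sum
          intro h hh
          have hh' := mem_Icc.1 hh
          rw [← mul_sub, abs_mul, abs_of_nonneg (hhH h hh)]
          have a1 := (hFL 1 h (by omega) (hh'.2.trans hfl)).1
          have a2 := h3 1 h le_rfl hh'.1 (by omega)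
          simp only [mul_one, Nat.cast_one] at a2
          have := abs_sub_le (PF z0 1 h N (fun n => Real.log n * Real.log ((n + h : ℕ) : ℝ)) b)
            (EF z0 1 h N (fun n => Real.log n * Real.log ((n + h : ℕ) : ℝ))) (((N : ℝ) - h) * Sg N 1 h)
          apply mul_le_mul _ _ (abs_nonneg _) hH0.le
          · have : (0 : ℝ) ≤ h := Nat.cast_nonneg h
            linarith
          · linarith
      _ = (Icc 1 ⌊H⌋₊).card * (H * ((N : ℝ) ^ (1 / 2 + η) + C3 * √(N : ℝ) * L ^ 5)) := by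
          rw [sum_const, nsmul_eq_mul]
      _ ≤ H * (H * ((N : ℝ) ^ (1 / 2 + η) + C3 * √(N : ℝ) * L ^ 5)) := by
          gcongr
      _ = H * (1 * (H * (N : ℝ) ^ (1 / 2 + η)) + C3 * (H * √(N : ℝ)) * L ^ 5) := by ring
      _ ≤ H * (L ^ 5 * (N * Y) + C3 * (N * Y) * L ^ 5) := by
          have hNY : 0 ≤ N * Y := by positivity
          gcongr
      _ = _ := by ring
  -- the average of the singular series
  have hγ : 1 / 2 < Real.eulerMascheroniConstant := Real.one_half_lt_eulerMascheroniConstant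
  have hl2π : 1 / 2 ≤ Real.log (2 * Real.pi) := by
    have hpi := Real.pi_gt_three
    have h1 : Real.exp (1 / 2) ≤ 2 * Real.pi := by
      have h2 : Real.exp (1 / 2) ≤ Real.exp 1 := Real.exp_le_exp.2 (by norm_num)
      have h3 := Real.exp_one_lt_d9
      linarith
    exact (Real.le_log_iff_exp_le (by positivity)).2 h1
  set κ : ℝ := Real.eulerMascheroniConstant + Real.log (2 * Real.pi) with hκ
  have hZZ : 2 * S1 = ZZ N 1 H := by
    unfold ZZ
    rfl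
  have hZs := h5 1 le_rfl (by omega) H hHε (hH.trans (Real.rpow_le_rpow_of_exponent_le hN1 (by linarith)))
  rw [cQ_one, ← hZZ] at hZs
  simp only [Nat.cast_one, Nat.totient_one, div_one, one_mul, add_zero] at hZs
  have hlogH : 0 ≤ Real.log H := Real.log_nonneg hH1
  have hS1a : |2 * S1 - H ^ 2 + H * (Real.log H + κ - 1)| ≤ δ1 * H := by
    rw [hκ]
    convert hZs using 3
    ring
  have hS1b : 2 * S1 ≤ 2 * H ^ 2 := by
    have h1 := (abs_le.1 hS1a).2
    have h2 : 0 ≤ H * (Real.log H + κ - 1) := mul_nonneg hH0.le (by linarith)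
    have h3 : δ1 * H ≤ 1 * H := by gcongr
    have h4 : H ≤ H ^ 2 := by nlinarith
    linarith
  have hSSa : |2 * SS - 2 * (N * S1)| ≤ 2 * (H * (N * Y)) := by
    have e : N * S1 - SS = ∑ h ∈ Icc 1 ⌊H⌋₊, (h : ℝ) * ((H - h) * Sg N 1 h) := by
      rw [hS1, hSS, mul_sum, ← sum_sub_distrib]
      apply sum_congr rfl
      intro h _
      ring
    have h1 : 0 ≤ N * S1 - SS := by
      rw [e]
      apply sum_nonneg
      intro h hh
      exact mul_nonneg (Nat.cast_nonneg h) (mul_nonneg (hhH h hh) (Sg_nonneg1 N h))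
    have h2 : N * S1 - SS ≤ H * S1 := by
      rw [e, hS1, mul_sum]
      apply sum_le_sum
      intro h hh
      apply mul_le_mul_of_nonneg_right _ (mul_nonneg (hhH h hh) (Sg_nonneg1 N h))
      have := hhH h hh
      linarith
    have h3 : H * S1 ≤ H * (N * Y) := by
      apply mul_le_mul_of_nonneg_left _ hH0.le
      have : S1 ≤ H * H := by nlinarith
      exact this.trans hHH
    rw [abs_le]
    constructor <;> linarith
  have hsmall : (8 * (2 + C0 + C1 + C3)) * L ^ 5 * (N * Y) ≤ δ / 4 * N := by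
    have : (8 * (2 + C0 + C1 + C3)) * L ^ 5 * (N * Y) =
      ((8 * (2 + C0 + C1 + C3)) * L ^ 5 * Y) * N := by ring
    rw [this]
    exact mul_le_mul_of_nonneg_right hS hN0.le
  have hNY : 0 ≤ N * Y := by positivity
  have hLNY : 0 ≤ L ^ 5 * (N * Y) := by positivity
  have hNYL : N * Y ≤ L ^ 5 * (N * Y) := le_mul_of_one_le_left hNY hl5
  constructor
  · have hid : H * P0 + 2 * SP - N * H ^ 2 - N * H * (L - Real.log H - κ) =
      H * (P0 - (N * L - N)) + 2 * (SP - SS) + (2 * SS - 2 * (N * S1)) +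
        N * (2 * S1 - H ^ 2 + H * (Real.log H + κ - 1)) := by ring
    rw [hid]
    have t1 : |H * (P0 - (N * L - N))| ≤ H * ((1 + C0) * L ^ 5 * (N * Y)) := by
      rw [abs_mul, abs_of_pos hH0]
      gcongr
    have t2 : |N * (2 * S1 - H ^ 2 + H * (Real.log H + κ - 1))| ≤ δ / 4 * (N * H) := by
      rw [abs_mul, abs_of_pos hN0]
      calc (N : ℝ) * |2 * S1 - H ^ 2 + H * (Real.log H + κ - 1)| ≤ N * (δ1 * H) := by gcongr
        _ ≤ N * (δ / 4 * H) := by gcongr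
        _ = _ := by ring
    have t3 : H * ((1 + C0) * L ^ 5 * (N * Y)) + 2 * (H * ((1 + C3) * L ^ 5 * (N * Y))) + 2 * (H * (N * Y)) ≤
        δ / 4 * (N * H) := by
      have c1 : (1 + C0) * (L ^ 5 * (N * Y)) + 2 * ((1 + C3) * (L ^ 5 * (N * Y))) + 2 * (L ^ 5 * (N * Y)) ≤
          (8 * (2 + C0 + C1 + C3)) * (L ^ 5 * (N * Y)) := by
        have : (1 + C0) + 2 * (1 + C3) + 2 ≤ 8 * (2 + C0 + C1 + C3) := by linarith
        calc (1 + C0) * (L ^ 5 * (N * Y)) + 2 * ((1 + C3) * (L ^ 5 * (N * Y))) + 2 * (L ^ 5 * (N * Y)) =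
            ((1 + C0) + 2 * (1 + C3) + 2) * (L ^ 5 * (N * Y)) := by ring
          _ ≤ _ := mul_le_mul_of_nonneg_right this hLNY
      calc H * ((1 + C0) * L ^ 5 * (N * Y)) + 2 * (H * ((1 + C3) * L ^ 5 * (N * Y))) + 2 * (H * (N * Y)) ≤
          H * ((1 + C0) * L ^ 5 * (N * Y)) + 2 * (H * ((1 + C3) * L ^ 5 * (N * Y))) +
            2 * (H * (L ^ 5 * (N * Y))) := by gcongr
        _ = H * ((1 + C0) * (L ^ 5 * (N * Y)) + 2 * ((1 + C3) * (L ^ 5 * (N * Y))) + 2 * (L ^ 5 * (N * Y))) := by ring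
        _ ≤ H * ((8 * (2 + C0 + C1 + C3)) * (L ^ 5 * (N * Y))) := mul_le_mul_of_nonneg_left c1 hH0.le
        _ = H * ((8 * (2 + C0 + C1 + C3)) * L ^ 5 * (N * Y)) := by ring
        _ ≤ H * (δ / 4 * N) := mul_le_mul_of_nonneg_left hsmall hH0.le
        _ = δ / 4 * (N * H) := by ring
    have hδNH : 0 ≤ δ * (N * H) := by positivity
    have b2 := abs_le.1 t1
    have b3 := abs_le.1 hj
    have b4 := abs_le.1 hSSa
    have b5 := abs_le.1 t2
    rw [abs_le]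
    constructor <;> linarith [b2.1, b2.2, b3.1, b3.2, b4.1, b4.2, b5.1, b5.2]
  · rw [abs_mul, abs_of_nonneg (by positivity : 0 ≤ 2 * H ^ 2)]
    calc 2 * H ^ 2 * |P1 - N| = 2 * H * (H * |P1 - N|) := by ring
      _ ≤ 2 * H * ((1 + C1) * L ^ 5 * (N * Y)) := by gcongr
      _ = H * ((2 * (1 + C1)) * (L ^ 5 * (N * Y))) := by ring
      _ ≤ H * ((8 * (2 + C0 + C1 + C3)) * (L ^ 5 * (N * Y))) :=
          mul_le_mul_of_nonneg_left (mul_le_mul_of_nonneg_right (by linarith) hLNY) hH0.le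
      _ = H * ((8 * (2 + C0 + C1 + C3)) * L ^ 5 * (N * Y)) := by ring
      _ ≤ H * (δ / 4 * N) := mul_le_mul_of_nonneg_left hsmall hH0.le
      _ ≤ δ * (N * H) := by
          have : 0 ≤ δ * (N * H) := by positivity
          linarith

end Pool.Agent.H531.VR
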