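import Pool.Agent.H531.VR.GMi
import Pool.Agent.H531.VR.GMd

set_option autoImplicit false

/-!
# The variance in short intervals in the random sieve model
-/

open Finset MeasureTheory ProbabilityTheory Filter Topology

namespace Pool.Agent.H531.VR

open Pool.Agent.T2H31.HV
open Pool.Agent
open Pool.Agent.T2H32.BF

open Classical in
/-- the weighted number of the random primes in the interval of length `H` centred at `x` -/
noncomputable def psiI (b : ℕ → ℕ) (x H : ℝ) : ℝ :=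
  ∑ n ∈ (Icc ⌈x - H / 2⌉₊ ⌊x + H / 2⌋₊).filter (fun n => n ∈ R z0 b), Real.log n

/-- the weights -/
noncomputable def wt (M : ℕ) (b : ℕ → ℕ) (n : ℕ) : ℝ := Real.log n * sv z0 1 M b n

theorem sv_eq (hz : ∀ n, z0 n ≤ n) (M : ℕ) (b : ℕ → ℕ) (n : ℕ) (h3 : 3 ≤ n) (hM : n ≤ M) :
    (n ∈ R z0 b → sv z0 1 M b n = 1) ∧ (n ∉ R z0 b → sv z0 1 M b n = 0) := by
  constructor
  · intro hR
    unfold sv
    rw [if_pos]
    intro p hp hp2
    rw [mem_PN] at hp
    rcases hp2 with h | h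
    · exact hR.2 p h hp.2
    · exact absurd (Nat.dvd_one.1 h) hp.2.one_lt.ne'
  · intro hR
    unfold sv
    rw [if_neg]
    intro h
    apply hR
    refine ⟨h3, fun p hp hpp => ?_⟩
    exact h p ((mem_PN M p).2 ⟨(hp.trans (hz n)).trans hM, hpp⟩) (Or.inl hp)

theorem psiI_eq (hz : ∀ n, z0 n ≤ n) (b : ℕ → ℕ) (X H x : ℝ) (hH : 0 < H) (hx : x ∈ Set.Icc 1 X) :
    psiI b x H = ∑ n ∈ Icc 3 ⌊X + H / 2⌋₊, wt ⌊X + H / 2⌋₊ b n * iw H n x := by
  classical
  obtain ⟨hx1, hx2⟩ := hx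
  set M := ⌊X + H / 2⌋₊ with hM
  have hfl : ⌊x + H / 2⌋₊ ≤ M := Nat.floor_le_floor (by linarith)
  unfold psiI
  have hiff : ∀ n : ℕ, n ∈ Icc ⌈x - H / 2⌉₊ ⌊x + H / 2⌋₊ ↔ x ∈ Set.Icc ((n : ℝ) - H / 2) ((n : ℝ) + H / 2) := by
    intro n
    rw [mem_Icc, Nat.ceil_le, Nat.le_floor_iff (by linarith), Set.mem_Icc]
    constructor
    · rintro ⟨h1, h2⟩
      constructor <;> linarith
    · rintro ⟨h1, h2⟩
      constructor <;> linarith
  have h1 : ∀ n ∈ Icc 3 M, wt M b n * iw H n x =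
      if n ∈ (Icc ⌈x - H / 2⌉₊ ⌊x + H / 2⌋₊).filter (fun n => n ∈ R z0 b) then Real.log n else 0 := by
    intro n hn
    rw [mem_Icc] at hn
    obtain ⟨s1, s2⟩ := sv_eq hz M b n hn.1 hn.2
    unfold wt iw
    have hmem : n ∈ (Icc ⌈x - H / 2⌉₊ ⌊x + H / 2⌋₊).filter (fun n => n ∈ R z0 b) ↔
        x ∈ Set.Icc ((n : ℝ) - H / 2) ((n : ℝ) + H / 2) ∧ n ∈ R z0 b := by
      rw [mem_filter, hiff]
    by_cases hR : n ∈ R z0 b
    · by_cases hx : x ∈ Set.Icc ((n : ℝ) - H / 2) ((n : ℝ) + H / 2)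
      · rw [if_pos (hmem.2 ⟨hx, hR⟩), s1 hR, Set.indicator_of_mem hx]
        simp
      · rw [if_neg (fun h => hx (hmem.1 h).1), Set.indicator_of_notMem hx, mul_zero]
    · rw [if_neg (fun h => hR (hmem.1 h).2), s2 hR]
      simp
  rw [sum_congr rfl h1, ← sum_filter]
  apply sum_congr _ (fun _ _ => rfl)
  ext n
  rw [mem_filter, mem_filter]
  constructor
  · rintro ⟨h2, h3⟩
    refine ⟨?_, mem_filter.2 ⟨h2, h3⟩⟩
    rw [mem_Icc] at h2 ⊢
    exact ⟨h3.1, h2.2.trans hfl⟩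
  · rintro ⟨_, h3⟩
    exact mem_filter.1 h3

theorem main_GM (Ω : Type) [MeasurableSpace Ω] (P : Measure Ω) (a : ℕ → Ω → ℕ) (h : T2H32.BF.Model P a) :
    ∀ᵐ ω ∂P, ∀ ε δ : ℝ, 0 < ε → 0 < δ → ∀ᶠ X : ℝ in atTop, ∀ H : ℝ, X ^ ε < H → H < X ^ (1 / 2 - ε) →
      |1 / X * (∫ x in (1 : ℝ)..X, (psiI (fun q => a q ω) x H - H) ^ 2) -
        H * (Real.log X - Real.log H - (Real.eulerMascheroniConstant + Real.log (2 * Real.pi)))| ≤ δ * H := by
  have hFL := T_FL (T_ANO T_BV) (T_MOM T_FIN) T_TR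
  have hE1 := T_E1 T_Z
  have hE3 := T_E3 T_Z T_RAT
  filter_upwards [FLat_of hFL Ω P a h] with ω hω
  set b : ℕ → ℕ := fun q => a q ω with hb
  intro ε δ hε hδ
  rcases le_or_gt (1 / 4) ε with hε4 | hε4
  · filter_upwards [eventually_ge_atTop 1] with X hX H hH1 hH2
    have h1 : X ^ (1 / 2 - ε) ≤ X ^ ε := Real.rpow_le_rpow_of_exponent_le hX (by linarith)
    linarith
  set ε' : ℝ := ε / 2 with hε'
  have hε'0 : 0 < ε' := by positivity
  have hη : 0 < min (ε' / 2) (1 / 4 : ℝ) := lt_min (by positivity) (by norm_num)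
  obtain ⟨N0, hN0⟩ := eventually_atTop.1 ((det_GM hE1 hE3 T_Z ε' (δ / 8) hε'0 (by linarith) (by positivity)).and
    (hω _ hη))
  have hlo := (isLittleO_log_rpow_atTop hε).bound (show 0 < √(δ / 300) by positivity)
  have hpow : ∀ᶠ X : ℝ in atTop, 2 ≤ X ^ ε := (tendsto_rpow_atTop hε).eventually_ge_atTop 2
  filter_upwards [eventually_ge_atTop (max 4 (N0 : ℝ)), Real.tendsto_log_atTop.eventually_ge_atTop 1, hlo, hpow]
    with X hXb hXl hXo hpow H hH1 hH2
  have hX4 : 4 ≤ X := (le_max_left _ _).trans hXb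
  have hXN0 : (N0 : ℝ) ≤ X := (le_max_right _ _).trans hXb
  have hX0 : 0 < X := by linarith
  have hX1 : 1 ≤ X := by linarith
  rw [Real.norm_of_nonneg (by linarith), Real.norm_of_nonneg (by positivity)] at hXo
  set ℓ : ℝ := Real.log X with hℓ
  have hH2' : 2 ≤ H := by linarith
  have hH0 : 0 < H := by linarith
  have hHX : H ≤ X := by
    refine hH2.le.trans ?_
    calc X ^ (1 / 2 - ε) ≤ X ^ (1 : ℝ) := Real.rpow_le_rpow_of_exponent_le hX1 (by linarith)
      _ = X := Real.rpow_one _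
  set M := ⌊X + H / 2⌋₊ with hMdef
  have hMle : (M : ℝ) ≤ X + H / 2 := Nat.floor_le (by positivity)
  have hMlt : X + H / 2 < M + 1 := Nat.lt_floor_add_one _
  have hMX : X ≤ M := by linarith
  have hM0 : (0 : ℝ) < M := by linarith
  have hM1 : (1 : ℝ) ≤ M := by linarith
  have hM2X : (M : ℝ) ≤ 2 * X := by linarith
  have hMN : N0 ≤ M := by
    have : (N0 : ℝ) ≤ M := hXN0.trans hMX
    exact_mod_cast this
  obtain ⟨hdet, hFL'⟩ := hN0 M hMN
  have hHl : (M : ℝ) ^ ε' ≤ H := by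
    refine le_trans ?_ hH1.le
    calc (M : ℝ) ^ ε' ≤ (X ^ (2 : ℝ)) ^ ε' := by
          apply Real.rpow_le_rpow hM0.le _ hε'0.le
          rw [Real.rpow_two]
          nlinarith
      _ = X ^ ε := by
          rw [← Real.rpow_mul hX0.le]
          congr 1
          rw [hε']
          ring
  have hHu : H ≤ (M : ℝ) ^ (1 / 2 - ε') := by
    refine hH2.le.trans ?_
    calc X ^ (1 / 2 - ε) ≤ X ^ (1 / 2 - ε') := Real.rpow_le_rpow_of_exponent_le hX1 (by linarith)
      _ ≤ (M : ℝ) ^ (1 / 2 - ε') := Real.rpow_le_rpow hX0.le hMX (by linarith)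
  obtain ⟨hd1, hd2⟩ := hdet H hHl hHu b hFL'
  -- the integral
  have hzn := T_Z.1
  have hint : ∫ x in (1 : ℝ)..X, (psiI b x H - H) ^ 2 =
      ∫ x in (1 : ℝ)..X, (∑ n ∈ Icc 3 M, wt M b n * iw H n x - H) ^ 2 := by
    apply intervalIntegral.integral_congr
    intro x hx
    rw [Set.uIcc_of_le hX1] at hx
    simp only
    rw [psiI_eq hzn b X H x hH0 hx]
  rw [hint, integral_sq X H hX1 M (wt M b)]
  have hflH : ⌊H⌋₊ ≤ M := by
    have h1 := Nat.floor_le hH0.le
    have h2 : (⌊H⌋₊ : ℝ) ≤ M := by linarith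
    exact_mod_cast h2
  have hov := ov_sum H hH0.le M hflH (wt M b)
  set L : ℝ := Real.log M with hL
  have hw : ∀ n ∈ Icc 3 M, 0 ≤ wt M b n ∧ wt M b n ≤ L := by
    intro n hn
    rw [mem_Icc] at hn
    have hn3 : (3 : ℝ) ≤ n := by exact_mod_cast hn.1
    have hnM : (n : ℝ) ≤ M := by exact_mod_cast hn.2
    have hlog0 : 0 ≤ Real.log n := Real.log_nonneg (by linarith)
    have hlogL : Real.log n ≤ L := Real.log_le_log (by linarith) hnM
    have hs : sv z0 1 M b n = 1 ∨ sv z0 1 M b n = 0 := by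
      unfold sv
      split_ifs
      · exact Or.inl rfl
      · exact Or.inr rfl
    unfold wt
    rcases hs with hs | hs
    · rw [hs, mul_one]
      exact ⟨hlog0, hlogL⟩
    · rw [hs, mul_zero]
      exact ⟨le_rfl, hlog0.trans hlogL⟩
  have hL0 : 0 ≤ L := Real.log_nonneg hM1
  have hpe := pair_edge X H L M (wt M b) hX1 (by linarith) hMle hw
  have hse := single_edge X H L M (wt M b) hX1 (by linarith) hL0 hMle hw
  rw [hov] at hpe
  -- the pair sums
  have hPF : ∀ j, ∑ n ∈ Ico 3 (M + 1 - j), wt M b n * wt M b (n + j) =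
      PF z0 1 j M (fun n => Real.log n * Real.log ((n + j : ℕ) : ℝ)) b := by
    intro j
    unfold PF
    apply sum_congr rfl
    intro n _
    unfold wt
    ring
  have hPF0 : ∑ n ∈ Icc 3 M, wt M b n * wt M b n = PF z0 1 0 M (fun n => Real.log n * Real.log ((n + 0 : ℕ) : ℝ)) b := by
    unfold PF
    rw [show Ico 3 (M + 1 - 0) = Icc 3 M from by ext n; simp [Nat.lt_succ_iff]]
    apply sum_congr rfl
    intro n _
    unfold wt
    rw [add_zero]
    ring
  have hPF1 : ∑ n ∈ Icc 3 M, wt M b n = PF z0 1 0 M (fun n => Real.log n) b := by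
    unfold PF
    rw [show Ico 3 (M + 1 - 0) = Icc 3 M from by ext n; simp [Nat.lt_succ_iff]]
    apply sum_congr rfl
    intro n _
    unfold wt
    rw [add_zero, sv_mul_self]
  rw [hPF0] at hpe
  simp_rw [hPF] at hpe
  rw [hPF1] at hse
  set P0 := PF z0 1 0 M (fun n => Real.log n * Real.log ((n + 0 : ℕ) : ℝ)) b with hP0
  set P1 := PF z0 1 0 M (fun n => Real.log n) b with hP1
  set SP := ∑ h ∈ Icc 1 ⌊H⌋₊, (H - h) * PF z0 1 h M (fun n => Real.log n * Real.log ((n + h : ℕ) : ℝ)) b with hSP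
  set A2 := ∑ n ∈ Icc 3 M, ∑ m ∈ Icc 3 M, wt M b n * wt M b m * vo X H n m with hA2
  set A1 := ∑ n ∈ Icc 3 M, wt M b n * vo X H n n with hA1
  set κ : ℝ := Real.eulerMascheroniConstant + Real.log (2 * Real.pi) with hκ
  have hγ0 : 0 < Real.eulerMascheroniConstant := by
    have := Real.one_half_lt_eulerMascheroniConstant
    linarith
  have hγ1 : Real.eulerMascheroniConstant < 1 := by
    have := Real.eulerMascheroniConstant_lt_two_thirds
    linarith
  have hpi := Real.pi_gt_three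
  have hpi4 := Real.pi_le_four
  have hl2π : 0 ≤ Real.log (2 * Real.pi) := Real.log_nonneg (by linarith)
  have hl2π' : Real.log (2 * Real.pi) ≤ 3 := by
    rw [Real.log_le_iff_le_exp (by positivity)]
    have h1 : (8 : ℝ) ≤ Real.exp 3 := by
      have h2 := Real.exp_one_gt_d9
      have e : Real.exp 3 = Real.exp 1 ^ 3 := by
        rw [← Real.exp_nat_mul]
        norm_num
      rw [e]
      calc (8 : ℝ) = 2 ^ 3 := by norm_num
        _ ≤ Real.exp 1 ^ 3 := by gcongr; linarith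
    linarith
  have hκ0 : 0 ≤ κ := by rw [hκ]; linarith
  have hκ4 : κ ≤ 4 := by rw [hκ]; linarith
  have hlogH0 : 0 ≤ Real.log H := Real.log_nonneg (by linarith)
  have hlogHX : Real.log H ≤ ℓ := Real.log_le_log hH0 hHX
  -- logarithms
  have hLℓ : ℓ ≤ L := Real.log_le_log hX0 hMX
  have hL2 : L ≤ 2 * ℓ := by
    have h1 : L ≤ Real.log (2 * X) := Real.log_le_log hM0 hM2X
    have h2 : Real.log (2 * X) = Real.log 2 + ℓ := Real.log_mul (by norm_num) hX0.ne'
    have h3 : Real.log 2 ≤ 1 := by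
      have := Real.log_two_lt_d9
      linarith
    linarith
  have hMlog : M * (L - ℓ) ≤ H := by
    have h1 : L - ℓ = Real.log (M / X) := by rw [Real.log_div hM0.ne' hX0.ne']
    have h2 : Real.log ((M : ℝ) / X) ≤ M / X - 1 := Real.log_le_sub_one_of_pos (by positivity)
    have h3 : (M : ℝ) / X - 1 = (M - X) / X := by field_simp
    rw [h1]
    calc (M : ℝ) * Real.log (M / X) ≤ M * ((M - X) / X) := by
          rw [← h3]
          gcongr
      _ = (M - X) * (M / X) := by ring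
      _ ≤ (H / 2) * 2 := by
          apply mul_le_mul
          · linarith
          · rw [div_le_iff₀ hX0]
            exact hM2X
          · positivity
          · positivity
      _ = H := by ring
  have hMlog0 : 0 ≤ M * (L - ℓ) := mul_nonneg hM0.le (by linarith)
  -- the main identity
  have hid : A2 - 2 * H * A1 + H ^ 2 * (X - 1) - X * (H * (ℓ - Real.log H - κ)) =
      (A2 - (H * P0 + 2 * SP)) + (H * P0 + 2 * SP - M * H ^ 2 - M * H * (L - Real.log H - κ)) -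
      2 * H * (A1 - H * P1) - 2 * H ^ 2 * (P1 - M) - H ^ 2 * (M - X + 1) +
      H * ((M - X) * (ℓ - Real.log H - κ) + M * (L - ℓ)) := by ring
  have q1 : |2 * H * (A1 - H * P1)| ≤ 20 * ℓ ^ 2 * H ^ 3 := by
    rw [abs_mul, abs_of_nonneg (by positivity : 0 ≤ 2 * H)]
    calc 2 * H * |A1 - H * P1| ≤ 2 * H * (5 * L * H ^ 2) := by gcongr
      _ ≤ 2 * H * (5 * (2 * ℓ) * H ^ 2) := by gcongr
      _ = 20 * ℓ * H ^ 3 := by ring
      _ ≤ 20 * ℓ ^ 2 * H ^ 3 := by
          have : ℓ ≤ ℓ ^ 2 := by nlinarith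
          gcongr
  have q2 : |A2 - (H * P0 + 2 * SP)| ≤ 120 * ℓ ^ 2 * H ^ 3 := by
    refine hpe.trans ?_
    calc 30 * L ^ 2 * H ^ 3 ≤ 30 * (2 * ℓ) ^ 2 * H ^ 3 := by gcongr
      _ = 120 * ℓ ^ 2 * H ^ 3 := by ring
  have hl1 : 1 ≤ ℓ ^ 2 := one_le_pow₀ hXl
  have hH3 : 0 ≤ H ^ 3 := by positivity
  have hH23 : H ^ 2 ≤ H ^ 3 := by nlinarith [sq_nonneg H]
  have q3 : |H ^ 2 * (M - X + 1)| ≤ 1 * ℓ ^ 2 * H ^ 3 := by
    rw [abs_of_nonneg (mul_nonneg (by positivity) (by linarith))]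
    calc H ^ 2 * (M - X + 1) ≤ H ^ 2 * H := by
          apply mul_le_mul_of_nonneg_left _ (by positivity)
          linarith
      _ = 1 * H ^ 3 := by ring
      _ ≤ ℓ ^ 2 * H ^ 3 := by gcongr
      _ = _ := by ring
  have q4 : |H * ((M - X) * (ℓ - Real.log H - κ) + M * (L - ℓ))| ≤ 7 * ℓ ^ 2 * H ^ 3 := by
    rw [abs_mul, abs_of_pos hH0]
    have h1 : |(M - X) * (ℓ - Real.log H - κ) + M * (L - ℓ)| ≤ H * (ℓ + 5) := by
      have h2 : |(M - X) * (ℓ - Real.log H - κ)| ≤ H * (ℓ + 4) := by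
        rw [abs_mul]
        apply mul_le_mul _ _ (abs_nonneg _) hH0.le
        · rw [abs_le]
          constructor <;> linarith
        · rw [abs_le]
          constructor <;> linarith
      have h3 := abs_add_le ((M - X) * (ℓ - Real.log H - κ)) (M * (L - ℓ))
      rw [abs_of_nonneg hMlog0] at h3
      linarith
    calc H * |(M - X) * (ℓ - Real.log H - κ) + M * (L - ℓ)| ≤ H * (H * (ℓ + 5)) := by gcongr
      _ = (ℓ + 5) * H ^ 2 := by ring
      _ ≤ (7 * ℓ ^ 2) * H ^ 3 := by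
          apply mul_le_mul _ hH23 (by positivity) (by positivity)
          nlinarith
  -- the final bound
  have hsm : 148 * ℓ ^ 2 * H ^ 3 ≤ δ / 2 * (X * H) := by
    have h1 : ℓ ^ 2 ≤ δ / 300 * X ^ (2 * ε) := by
      calc ℓ ^ 2 ≤ (√(δ / 300) * X ^ ε) ^ 2 := by gcongr
        _ = δ / 300 * X ^ (2 * ε) := by
            rw [mul_pow, Real.sq_sqrt (by positivity), ← Real.rpow_natCast (X ^ ε) 2, ← Real.rpow_mul hX0.le]
            congr 2
            push_cast
            ring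
    have h2 : H ^ 2 ≤ X ^ (1 - 2 * ε) := by
      calc H ^ 2 ≤ (X ^ (1 / 2 - ε)) ^ 2 := by gcongr
        _ = X ^ (1 - 2 * ε) := by
            rw [← Real.rpow_natCast (X ^ (1 / 2 - ε)) 2, ← Real.rpow_mul hX0.le]
            congr 1
            push_cast
            ring
    have h3 : X ^ (2 * ε) * X ^ (1 - 2 * ε) = X := by
      rw [← Real.rpow_add hX0]
      norm_num
    calc 148 * ℓ ^ 2 * H ^ 3 = 148 * (ℓ ^ 2 * H ^ 2) * H := by ring
      _ ≤ 148 * ((δ / 300 * X ^ (2 * ε)) * X ^ (1 - 2 * ε)) * H := by gcongr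
      _ = 148 * (δ / 300) * (X ^ (2 * ε) * X ^ (1 - 2 * ε)) * H := by ring
      _ = 148 * (δ / 300) * X * H := by rw [h3]
      _ ≤ δ / 2 * (X * H) := by
          have : 0 ≤ δ * X * H := by positivity
          nlinarith
  have hMH : δ / 8 * (M * H) ≤ δ / 4 * (X * H) := by
    calc δ / 8 * (M * H) ≤ δ / 8 * ((2 * X) * H) := by gcongr
      _ = δ / 4 * (X * H) := by ring
  have hfin : |A2 - 2 * H * A1 + H ^ 2 * (X - 1) - X * (H * (ℓ - Real.log H - κ))| ≤ δ * (X * H) := by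
    rw [hid]
    have c1 := abs_le.1 q1
    have c2 := abs_le.1 q2
    have c3 := abs_le.1 q3
    have c4 := abs_le.1 q4
    have c5 := abs_le.1 hd1
    have c6 := abs_le.1 hd2
    rw [abs_le]
    constructor <;> linarith [c1.1, c1.2, c2.1, c2.2, c3.1, c3.2, c4.1, c4.2, c5.1, c5.2, c6.1, c6.2]
  have e1 : 1 / X * (A2 - 2 * H * A1 + H ^ 2 * (X - 1)) - H * (ℓ - Real.log H - κ) =
      1 / X * (A2 - 2 * H * A1 + H ^ 2 * (X - 1) - X * (H * (ℓ - Real.log H - κ))) := by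
    field_simp
  rw [e1, abs_mul, abs_of_pos (by positivity : 0 < 1 / X)]
  calc 1 / X * |A2 - 2 * H * A1 + H ^ 2 * (X - 1) - X * (H * (ℓ - Real.log H - κ))| ≤ 1 / X * (δ * (X * H)) := by
        gcongr
    _ = δ * H := by field_simp

end Pool.Agent.H531.VR
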