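import Pool.Graph.R_pool_sql_team_seeded_707910d6.T2H31.HV.All

set_option autoImplicit false

/-!
# The mean square over short intervals as a sum over pairs
-/

open Finset MeasureTheory

namespace Pool.Agent.H531.VR

/-- `1` if `n` lies in the interval of length `H` centred at `x` -/
noncomputable def iw (H : ℝ) (n : ℕ) (x : ℝ) : ℝ := (Set.Icc ((n : ℝ) - H / 2) ((n : ℝ) + H / 2)).indicator 1 x

theorem iw_mul (H : ℝ) (n m : ℕ) (x : ℝ) : iw H n x * iw H m x =
    (Set.Icc (max (n : ℝ) m - H / 2) (min (n : ℝ) m + H / 2)).indicator 1 x := by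
  unfold iw
  by_cases h1 : x ∈ Set.Icc ((n : ℝ) - H / 2) ((n : ℝ) + H / 2)
  · by_cases h2 : x ∈ Set.Icc ((m : ℝ) - H / 2) ((m : ℝ) + H / 2)
    · have h3 : x ∈ Set.Icc (max (n : ℝ) m - H / 2) (min (n : ℝ) m + H / 2) := by
        rw [Set.mem_Icc] at h1 h2 ⊢
        constructor
        · have := max_le (a := (n : ℝ)) (b := m) (c := x + H / 2) (by linarith) (by linarith)
          linarith
        · have := le_min (a := (n : ℝ)) (b := m) (c := x - H / 2) (by linarith) (by linarith)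
          linarith
      rw [Set.indicator_of_mem h1, Set.indicator_of_mem h2, Set.indicator_of_mem h3]
      simp
    · have h3 : x ∉ Set.Icc (max (n : ℝ) m - H / 2) (min (n : ℝ) m + H / 2) := by
        intro h3
        apply h2
        rw [Set.mem_Icc] at h3 ⊢
        have a1 := le_max_right (n : ℝ) m
        have a2 := min_le_right (n : ℝ) m
        constructor <;> linarith
      rw [Set.indicator_of_notMem h2, Set.indicator_of_notMem h3, mul_zero]
  · have h3 : x ∉ Set.Icc (max (n : ℝ) m - H / 2) (min (n : ℝ) m + H / 2) := by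
      intro h3
      apply h1
      rw [Set.mem_Icc] at h3 ⊢
      have a1 := le_max_left (n : ℝ) m
      have a2 := min_le_left (n : ℝ) m
      constructor <;> linarith
    rw [Set.indicator_of_notMem h1, Set.indicator_of_notMem h3, zero_mul]

theorem iw_sq (H : ℝ) (n : ℕ) (x : ℝ) : iw H n x * iw H n x = iw H n x := by
  unfold iw
  by_cases h1 : x ∈ Set.Icc ((n : ℝ) - H / 2) ((n : ℝ) + H / 2)
  · rw [Set.indicator_of_mem h1]; simp
  · rw [Set.indicator_of_notMem h1]; simp

theorem iw_meas (H : ℝ) (n : ℕ) : Measurable (iw H n) := by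
  unfold iw
  exact measurable_one.indicator measurableSet_Icc

theorem iw_intervalIntegrable (H : ℝ) (n : ℕ) (A B : ℝ) : IntervalIntegrable (iw H n) volume A B := by
  unfold iw
  have h : Integrable ((Set.Icc ((n : ℝ) - H / 2) ((n : ℝ) + H / 2)).indicator (1 : ℝ → ℝ)) volume := by
    rw [integrable_indicator_iff measurableSet_Icc]
    exact integrableOn_const (by simp)
  exact h.intervalIntegrable

theorem iw2_intervalIntegrable (H : ℝ) (n m : ℕ) (A B : ℝ) :
    IntervalIntegrable (fun x => iw H n x * iw H m x) volume A B := by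
  simp_rw [iw_mul]
  have h : Integrable ((Set.Icc (max (n : ℝ) m - H / 2) (min (n : ℝ) m + H / 2)).indicator (1 : ℝ → ℝ)) volume := by
    rw [integrable_indicator_iff measurableSet_Icc]
    exact integrableOn_const (by simp)
  exact h.intervalIntegrable

/-- the measure of the centres `x ∈ [1, X]` whose interval contains `n` and `m` -/
noncomputable def vo (X H : ℝ) (n m : ℕ) : ℝ := ∫ x in (1 : ℝ)..X, iw H n x * iw H m x

/-- the length of the overlap -/
noncomputable def ov (H : ℝ) (n m : ℕ) : ℝ := max 0 (H - |(n : ℝ) - m|)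

theorem min_sub_max (n m : ℝ) : min n m - max n m = -|n - m| := by
  rcases le_total n m with h | h
  · rw [min_eq_left h, max_eq_right h, abs_of_nonpos (by linarith)]; ring
  · rw [min_eq_right h, max_eq_left h, abs_of_nonneg (by linarith)]; ring

theorem vo_eq (X H : ℝ) (hX : 1 ≤ X) (n m : ℕ) : vo X H n m =
    (volume (Set.Icc (max (n : ℝ) m - H / 2) (min (n : ℝ) m + H / 2) ∩ Set.Icc 1 X)).toReal := by
  unfold vo
  simp_rw [iw_mul]
  rw [intervalIntegral.integral_of_le hX, ← integral_Icc_eq_integral_Ioc, integral_indicator_one measurableSet_Icc]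
  rw [Measure.real, Measure.restrict_apply measurableSet_Icc]

theorem vo_nonneg (X H : ℝ) (hX : 1 ≤ X) (n m : ℕ) : 0 ≤ vo X H n m := by
  rw [vo_eq X H hX]
  exact ENNReal.toReal_nonneg

theorem ov_eq (H : ℝ) (n m : ℕ) : ov H n m =
    (volume (Set.Icc (max (n : ℝ) m - H / 2) (min (n : ℝ) m + H / 2))).toReal := by
  rw [Real.volume_Icc, ENNReal.toReal_ofReal']
  unfold ov
  rw [max_comm]
  congr 1
  have := min_sub_max (n : ℝ) m
  linarith

theorem vo_le (X H : ℝ) (hX : 1 ≤ X) (n m : ℕ) : vo X H n m ≤ ov H n m := by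
  rw [vo_eq X H hX, ov_eq]
  apply ENNReal.toReal_mono
  · simp
  · exact measure_mono Set.inter_subset_left

theorem vo_full (X H : ℝ) (hX : 1 ≤ X) (n m : ℕ) (h1 : 1 + H / 2 ≤ n ∧ (n : ℝ) ≤ X - H / 2)
    (h2 : 1 + H / 2 ≤ m ∧ (m : ℝ) ≤ X - H / 2) : vo X H n m = ov H n m := by
  rw [vo_eq X H hX, ov_eq]
  congr 2
  apply Set.inter_eq_left.2
  apply Set.Icc_subset_Icc
  · have := le_max_left (n : ℝ) m
    linarith
  · have := min_le_left (n : ℝ) m
    linarith

theorem ov_nonneg (H : ℝ) (n m : ℕ) : 0 ≤ ov H n m := le_max_left _ _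

theorem ov_le (H : ℝ) (hH : 0 ≤ H) (n m : ℕ) : ov H n m ≤ H := by
  unfold ov
  apply max_le hH
  have := abs_nonneg ((n : ℝ) - m)
  linarith

theorem ov_zero (H : ℝ) (n m : ℕ) (h : H < |(n : ℝ) - m|) : ov H n m = 0 := by
  unfold ov
  apply max_eq_left
  linarith

theorem ov_comm (H : ℝ) (n m : ℕ) : ov H n m = ov H m n := by
  unfold ov
  rw [abs_sub_comm]

/-- integers in an interval -/
theorem card_int (s : Finset ℕ) (A B : ℝ) (hAB : A ≤ B) (h : ∀ n ∈ s, A ≤ n ∧ (n : ℝ) ≤ B) :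
    (s.card : ℝ) ≤ B - A + 1 := by
  rcases s.eq_empty_or_nonempty with h0 | ⟨n0, hn0⟩
  · rw [h0, card_empty, Nat.cast_zero]; linarith
  have hB : 0 ≤ B := (Nat.cast_nonneg n0).trans (h n0 hn0).2
  have hsub : s ⊆ Icc ⌈A⌉₊ ⌊B⌋₊ := by
    intro n hn
    rw [mem_Icc, Nat.ceil_le, Nat.le_floor_iff hB]
    exact h n hn
  have h1 : (s.card : ℝ) ≤ ((Icc ⌈A⌉₊ ⌊B⌋₊).card : ℝ) := by exact_mod_cast card_le_card hsub
  rw [Nat.card_Icc] at h1
  have h2 : ⌈A⌉₊ ≤ ⌊B⌋₊ + 1 := by
    have := mem_Icc.1 (hsub hn0)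
    omega
  rw [Nat.cast_sub h2] at h1
  push_cast at h1
  have h3 := Nat.le_ceil A
  have h4 := Nat.floor_le hB
  linarith

/-- the edge -/
noncomputable def Ed (X H : ℝ) (M : ℕ) : Finset ℕ :=
  open Classical in (Icc 3 M).filter fun n => ¬ (1 + H / 2 ≤ (n : ℝ) ∧ (n : ℝ) ≤ X - H / 2)

theorem card_Ed (X H : ℝ) (M : ℕ) (hH : 1 ≤ H) (hM : (M : ℝ) ≤ X + H / 2) : ((Ed X H M).card : ℝ) ≤ 5 * H := by
  classical
  have hsub : Ed X H M ⊆ (Icc 3 M).filter (fun n : ℕ => (n : ℝ) < 1 + H / 2) ∪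
      (Icc 3 M).filter (fun n : ℕ => X - H / 2 < n) := by
    intro n hn
    rw [Ed, mem_filter, not_and_or, not_le, not_le] at hn
    rw [mem_union, mem_filter, mem_filter]
    rcases hn.2 with h | h
    · exact Or.inl ⟨hn.1, h⟩
    · exact Or.inr ⟨hn.1, h⟩
  have h1 := (card_le_card hsub).trans (card_union_le _ _)
  have h2 := card_int ((Icc 3 M).filter (fun n : ℕ => (n : ℝ) < 1 + H / 2)) 1 (1 + H / 2) (by linarith) (by
    intro n hn
    rw [mem_filter, mem_Icc] at hn
    have : (3 : ℝ) ≤ n := by exact_mod_cast hn.1.1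
    exact ⟨by linarith, hn.2.le⟩)
  have h3 := card_int ((Icc 3 M).filter (fun n : ℕ => X - H / 2 < n)) (X - H / 2) (X + H / 2) (by linarith) (by
    intro n hn
    rw [mem_filter, mem_Icc] at hn
    have : (n : ℝ) ≤ M := by exact_mod_cast hn.1.2
    exact ⟨hn.2.le, by linarith⟩)
  have h4 : ((Ed X H M).card : ℝ) ≤ (((Icc 3 M).filter (fun n : ℕ => (n : ℝ) < 1 + H / 2)).card : ℝ) +
      (((Icc 3 M).filter (fun n : ℕ => X - H / 2 < n)).card : ℝ) := by exact_mod_cast h1
  linarith

theorem pair_edge (X H L : ℝ) (M : ℕ) (w : ℕ → ℝ) (hX : 1 ≤ X) (hH : 1 ≤ H) (hM : (M : ℝ) ≤ X + H / 2)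
    (hw : ∀ n ∈ Icc 3 M, 0 ≤ w n ∧ w n ≤ L) :
    |∑ n ∈ Icc 3 M, ∑ m ∈ Icc 3 M, w n * w m * vo X H n m - ∑ n ∈ Icc 3 M, ∑ m ∈ Icc 3 M, w n * w m * ov H n m| ≤
      30 * L ^ 2 * H ^ 3 := by
  classical
  have hterm : ∀ n ∈ Icc 3 M, ∀ m ∈ Icc 3 M, |w n * w m * vo X H n m - w n * w m * ov H n m| ≤
      (if n ∈ Ed X H M ∧ |(n : ℝ) - m| ≤ H then L ^ 2 * H else 0) +
      (if m ∈ Ed X H M ∧ |(n : ℝ) - m| ≤ H then L ^ 2 * H else 0) := by
    intro n hn m hm
    obtain ⟨wn0, wnL⟩ := hw n hn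
    obtain ⟨wm0, wmL⟩ := hw m hm
    have hL0 : 0 ≤ L := wn0.trans wnL
    have hLH : 0 ≤ L ^ 2 * H := by positivity
    rw [← mul_sub, abs_mul, abs_of_nonneg (by positivity : 0 ≤ w n * w m)]
    have hv0 := vo_nonneg X H hX n m
    have hv1 := vo_le X H hX n m
    have ho1 := ov_le H (by linarith) n m
    have habs : |vo X H n m - ov H n m| ≤ H := by
      rw [abs_le]
      constructor <;> linarith
    have hprod : w n * w m ≤ L ^ 2 := by
      rw [sq]
      exact mul_le_mul wnL wmL wm0 hL0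
    have hfull : w n * w m * |vo X H n m - ov H n m| ≤ L ^ 2 * H :=
      mul_le_mul hprod habs (abs_nonneg _) (by positivity)
    by_cases hd : |(n : ℝ) - m| ≤ H
    · by_cases h1 : n ∈ Ed X H M
      · rw [if_pos ⟨h1, hd⟩]
        have : 0 ≤ (if m ∈ Ed X H M ∧ |(n : ℝ) - m| ≤ H then L ^ 2 * H else 0) := by
          split_ifs
          · exact hLH
          · exact le_rfl
        linarith
      · by_cases h2 : m ∈ Ed X H M
        · rw [if_pos (⟨h2, hd⟩ : m ∈ Ed X H M ∧ |(n : ℝ) - m| ≤ H)]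
          have : 0 ≤ (if n ∈ Ed X H M ∧ |(n : ℝ) - m| ≤ H then L ^ 2 * H else 0) := by
            split_ifs
            · exact hLH
            · exact le_rfl
          linarith
        · have e1 : 1 + H / 2 ≤ (n : ℝ) ∧ (n : ℝ) ≤ X - H / 2 := by
            by_contra hc
            exact h1 (mem_filter.2 ⟨hn, hc⟩)
          have e2 : 1 + H / 2 ≤ (m : ℝ) ∧ (m : ℝ) ≤ X - H / 2 := by
            by_contra hc
            exact h2 (mem_filter.2 ⟨hm, hc⟩)
          rw [vo_full X H hX n m e1 e2, sub_self, abs_zero, mul_zero]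
          apply add_nonneg <;> · split_ifs <;> first | exact hLH | exact le_rfl
    · rw [not_le] at hd
      have h0 : ov H n m = 0 := ov_zero H n m hd
      have h1 : vo X H n m = 0 := le_antisymm (hv1.trans h0.le) hv0
      rw [h0, h1, sub_self, abs_zero, mul_zero]
      apply add_nonneg <;> · split_ifs <;> first | exact hLH | exact le_rfl
  rcases (Icc 3 M).eq_empty_or_nonempty with hemp | ⟨n0, hn0⟩
  · rw [hemp, sum_empty, sum_empty, sub_zero, abs_zero]
    positivity
  have hL0 : 0 ≤ L := (hw n0 hn0).1.trans (hw n0 hn0).2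
  have hcnt : ∀ n : ℕ, (((Icc 3 M).filter (fun m : ℕ => |(n : ℝ) - m| ≤ H)).card : ℝ) ≤ 3 * H := by
    intro n
    have := card_int ((Icc 3 M).filter (fun m : ℕ => |(n : ℝ) - m| ≤ H)) (n - H) (n + H) (by linarith) (by
      intro m hm
      rw [mem_filter, abs_le] at hm
      constructor <;> linarith [hm.2.1, hm.2.2])
    linarith
  rw [← sum_sub_distrib]
  simp_rw [← sum_sub_distrib]
  refine (abs_sum_le_sum_abs _ _).trans ((sum_le_sum fun n hn => (abs_sum_le_sum_abs _ _).trans
    (sum_le_sum fun m hm => hterm n hn m hm)).trans ?_)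
  simp_rw [sum_add_distrib]
  have hA : ∑ n ∈ Icc 3 M, ∑ m ∈ Icc 3 M, (if n ∈ Ed X H M ∧ |(n : ℝ) - m| ≤ H then L ^ 2 * H else 0) ≤
      15 * L ^ 2 * H ^ 3 := by
    have h1 : ∀ n ∈ Icc 3 M, ∑ m ∈ Icc 3 M, (if n ∈ Ed X H M ∧ |(n : ℝ) - m| ≤ H then L ^ 2 * H else 0) ≤
        if n ∈ Ed X H M then 3 * H * (L ^ 2 * H) else 0 := by
      intro n _
      by_cases h : n ∈ Ed X H M
      · simp only [h, true_and, if_true]
        rw [← sum_filter, sum_const, nsmul_eq_mul]
        exact mul_le_mul_of_nonneg_right (hcnt n) (by positivity)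
      · simp [h]
    refine (sum_le_sum h1).trans ?_
    rw [← sum_filter, sum_const, nsmul_eq_mul]
    have h2 : (((Icc 3 M).filter (fun n => n ∈ Ed X H M)).card : ℝ) ≤ 5 * H := by
      refine le_trans ?_ (card_Ed X H M hH hM)
      have : (Icc 3 M).filter (fun n => n ∈ Ed X H M) ⊆ Ed X H M := by
        intro n hn
        exact (mem_filter.1 hn).2
      exact_mod_cast card_le_card this
    calc (((Icc 3 M).filter (fun n => n ∈ Ed X H M)).card : ℝ) * (3 * H * (L ^ 2 * H)) ≤
        (5 * H) * (3 * H * (L ^ 2 * H)) := by gcongr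
      _ = 15 * L ^ 2 * H ^ 3 := by ring
  have hB : ∑ n ∈ Icc 3 M, ∑ m ∈ Icc 3 M, (if m ∈ Ed X H M ∧ |(n : ℝ) - m| ≤ H then L ^ 2 * H else 0) ≤
      15 * L ^ 2 * H ^ 3 := by
    rw [sum_comm]
    refine le_trans (le_of_eq ?_) hA
    apply sum_congr rfl
    intro n _
    apply sum_congr rfl
    intro m _
    rw [abs_sub_comm]
  linarith

theorem single_edge (X H L : ℝ) (M : ℕ) (w : ℕ → ℝ) (hX : 1 ≤ X) (hH : 1 ≤ H) (hL0 : 0 ≤ L) (hM : (M : ℝ) ≤ X + H / 2)
    (hw : ∀ n ∈ Icc 3 M, 0 ≤ w n ∧ w n ≤ L) :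
    |∑ n ∈ Icc 3 M, w n * vo X H n n - H * ∑ n ∈ Icc 3 M, w n| ≤ 5 * L * H ^ 2 := by
  classical
  have hov : ∀ n : ℕ, ov H n n = H := by
    intro n
    unfold ov
    rw [sub_self, abs_zero, sub_zero]
    exact max_eq_right (by linarith)
  rw [mul_sum, ← sum_sub_distrib]
  have hterm : ∀ n ∈ Icc 3 M, |w n * vo X H n n - H * w n| ≤ if n ∈ Ed X H M then L * H else 0 := by
    intro n hn
    obtain ⟨wn0, wnL⟩ := hw n hn
    have hv0 := vo_nonneg X H hX n n
    have hv1 := vo_le X H hX n n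
    rw [hov] at hv1
    have e : w n * vo X H n n - H * w n = w n * (vo X H n n - H) := by ring
    rw [e, abs_mul, abs_of_nonneg wn0]
    by_cases h1 : n ∈ Ed X H M
    · rw [if_pos h1]
      apply mul_le_mul wnL _ (abs_nonneg _) hL0
      rw [abs_le]
      constructor <;> linarith
    · rw [if_neg h1]
      have e1 : 1 + H / 2 ≤ (n : ℝ) ∧ (n : ℝ) ≤ X - H / 2 := by
        by_contra hc
        exact h1 (mem_filter.2 ⟨hn, hc⟩)
      rw [vo_full X H hX n n e1 e1, hov, sub_self, abs_zero, mul_zero]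
  refine (abs_sum_le_sum_abs _ _).trans ((sum_le_sum hterm).trans ?_)
  rw [← sum_filter, sum_const, nsmul_eq_mul]
  have h2 : (((Icc 3 M).filter (fun n => n ∈ Ed X H M)).card : ℝ) ≤ 5 * H := by
    refine le_trans ?_ (card_Ed X H M hH hM)
    have : (Icc 3 M).filter (fun n => n ∈ Ed X H M) ⊆ Ed X H M := by
      intro n hn
      exact (mem_filter.1 hn).2
    exact_mod_cast card_le_card this
  calc (((Icc 3 M).filter (fun n => n ∈ Ed X H M)).card : ℝ) * (L * H) ≤ (5 * H) * (L * H) := by gcongr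
    _ = 5 * L * H ^ 2 := by ring

theorem sum_pairs (M : ℕ) (f : ℕ → ℕ → ℝ) (hf : ∀ n m, f n m = f m n) :
    ∑ n ∈ Icc 3 M, ∑ m ∈ Icc 3 M, f n m = ∑ n ∈ Icc 3 M, f n n +
      2 * ∑ h ∈ Icc 1 M, ∑ n ∈ Ico 3 (M + 1 - h), f n (n + h) := by
  classical
  set I := Icc 3 M with hI
  have hsplit : ∀ n ∈ I, ∑ m ∈ I, f n m = f n n +
      (∑ m ∈ I.filter (fun m => n < m), f n m) + ∑ m ∈ I.filter (fun m => m < n), f n m := by
    intro n hn
    have h1 : I = insert n (I.filter (fun m => n < m) ∪ I.filter (fun m => m < n)) := by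
      ext m
      simp only [mem_filter, mem_insert, mem_union]
      constructor
      · intro h1
        rcases lt_trichotomy n m with h | h | h
        · exact Or.inr (Or.inl ⟨h1, h⟩)
        · exact Or.inl h.symm
        · exact Or.inr (Or.inr ⟨h1, h⟩)
      · rintro (h | h | h)
        · subst h
          exact hn
        · exact h.1
        · exact h.1
    have h2 : n ∉ I.filter (fun m => n < m) ∪ I.filter (fun m => m < n) := by simp
    have h3 : Disjoint (I.filter (fun m => n < m)) (I.filter (fun m => m < n)) := by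
      rw [disjoint_left]
      intro m hm hm'
      rw [mem_filter] at hm hm'
      omega
    conv_lhs => rw [h1]
    rw [sum_insert h2, sum_union h3, ← add_assoc]
  have hswap : ∑ n ∈ I, ∑ m ∈ I.filter (fun m => m < n), f n m =
      ∑ n ∈ I, ∑ m ∈ I.filter (fun m => n < m), f n m := by
    rw [sum_comm' (t' := I) (s' := fun m => I.filter (fun n => m < n))]
    · apply sum_congr rfl
      intro n _
      apply sum_congr rfl
      intro m _
      exact hf _ _
    · intro n m
      simp only [mem_filter]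
      tauto
  have hpairs : ∑ n ∈ I, ∑ m ∈ I.filter (fun m => n < m), f n m =
      ∑ h ∈ Icc 1 M, ∑ n ∈ Ico 3 (M + 1 - h), f n (n + h) := by
    rw [sum_sigma', sum_sigma']
    symm
    apply sum_nbij' (fun x => ⟨x.2, x.2 + x.1⟩) (fun x => ⟨x.2 - x.1, x.1⟩)
    · rintro ⟨j, n⟩ hx
      simp only [mem_sigma, mem_Icc, mem_Ico] at hx
      simp only [mem_sigma, hI, mem_filter, mem_Icc]
      omega
    · rintro ⟨n, m⟩ hx
      simp only [mem_sigma, hI, mem_filter, mem_Icc] at hx
      simp only [mem_sigma, mem_Icc, mem_Ico]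
      omega
    · rintro ⟨j, n⟩ _
      simp only [Nat.add_sub_cancel_left]
    · rintro ⟨n, m⟩ hx
      simp only [mem_sigma, hI, mem_filter, mem_Icc] at hx
      have h8 : n + (m - n) = m := by omega
      simp only [h8]
    · rintro ⟨j, n⟩ _
      rfl
  rw [sum_congr rfl hsplit, sum_add_distrib, sum_add_distrib, hswap, hpairs]
  ring

/-- the overlap sum in terms of the distances -/
theorem ov_sum (H : ℝ) (hH : 0 ≤ H) (M : ℕ) (hHM : ⌊H⌋₊ ≤ M) (w : ℕ → ℝ) :
    ∑ n ∈ Icc 3 M, ∑ m ∈ Icc 3 M, w n * w m * ov H n m = H * ∑ n ∈ Icc 3 M, w n * w n +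
      2 * ∑ h ∈ Icc 1 ⌊H⌋₊, (H - h) * ∑ n ∈ Ico 3 (M + 1 - h), w n * w (n + h) := by
  rw [sum_pairs M (fun n m => w n * w m * ov H n m) (fun n m => by rw [ov_comm, mul_comm (w n)])]
  congr 1
  · rw [mul_sum]
    apply sum_congr rfl
    intro n _
    have : ov H n n = H := by
      unfold ov
      rw [sub_self, abs_zero, sub_zero]
      exact max_eq_right hH
    rw [this]
    ring
  · congr 1
    have hsub : Icc 1 ⌊H⌋₊ ⊆ Icc 1 M := Icc_subset_Icc_right hHM
    rw [← sum_subset hsub]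
    · apply sum_congr rfl
      intro h hh
      rw [mem_Icc] at hh
      rw [mul_sum]
      apply sum_congr rfl
      intro n _
      have hle : (h : ℝ) ≤ H := (Nat.le_floor_iff hH).1 hh.2
      have : ov H n (n + h) = H - h := by
        unfold ov
        push_cast
        rw [show (n : ℝ) - (n + h) = -h by ring, abs_neg, abs_of_nonneg (Nat.cast_nonneg h)]
        exact max_eq_right (by linarith)
      rw [this]
      ring
    · intro h hh1 hh2
      rw [mem_Icc] at hh1 hh2
      have hgt : H < h := by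
        by_contra hc
        rw [not_lt] at hc
        exact hh2 ⟨hh1.1, (Nat.le_floor_iff hH).2 hc⟩
      apply sum_eq_zero
      intro n _
      have : ov H n (n + h) = 0 := by
        apply ov_zero
        push_cast
        rw [show (n : ℝ) - (n + h) = -h by ring, abs_neg, abs_of_nonneg (Nat.cast_nonneg h)]
        exact hgt
      rw [this, mul_zero]

/-- the integral -/
theorem integral_sq (X H : ℝ) (hX : 1 ≤ X) (M : ℕ) (w : ℕ → ℝ) :
    ∫ x in (1 : ℝ)..X, (∑ n ∈ Icc 3 M, w n * iw H n x - H) ^ 2 =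
      ∑ n ∈ Icc 3 M, ∑ m ∈ Icc 3 M, w n * w m * vo X H n m - 2 * H * ∑ n ∈ Icc 3 M, w n * vo X H n n +
        H ^ 2 * (X - 1) := by
  have e : ∀ x : ℝ, (∑ n ∈ Icc 3 M, w n * iw H n x - H) ^ 2 =
      (∑ n ∈ Icc 3 M, ∑ m ∈ Icc 3 M, w n * w m * (iw H n x * iw H m x) -
        2 * H * ∑ n ∈ Icc 3 M, w n * (iw H n x * iw H n x)) + H ^ 2 := by
    intro x
    have e1 : ∑ n ∈ Icc 3 M, ∑ m ∈ Icc 3 M, w n * w m * (iw H n x * iw H m x) = (∑ n ∈ Icc 3 M, w n * iw H n x) ^ 2 := by
      rw [sq, sum_mul_sum]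
      apply sum_congr rfl
      intro n _
      apply sum_congr rfl
      intro m _
      ring
    simp_rw [iw_sq]
    rw [e1]
    ring
  simp_rw [e]
  have i1 : ∀ n m : ℕ, IntervalIntegrable (fun x => w n * w m * (iw H n x * iw H m x)) volume 1 X := fun n m =>
    (iw2_intervalIntegrable H n m 1 X).const_mul _
  have i1' : IntervalIntegrable (fun x => ∑ n ∈ Icc 3 M, ∑ m ∈ Icc 3 M, w n * w m * (iw H n x * iw H m x)) volume 1 X := by
    have := IntervalIntegrable.sum (Icc 3 M) (f := fun n x => ∑ m ∈ Icc 3 M, w n * w m * (iw H n x * iw H m x))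
      (μ := volume) (a := 1) (b := X) (fun n _ => by
        have := IntervalIntegrable.sum (Icc 3 M) (f := fun m x => w n * w m * (iw H n x * iw H m x))
          (μ := volume) (a := 1) (b := X) (fun m _ => i1 n m)
        simpa [Finset.sum_apply, Finset.sum_fn] using this)
    simpa [Finset.sum_apply, Finset.sum_fn] using this
  have i2 : ∀ n : ℕ, IntervalIntegrable (fun x => w n * (iw H n x * iw H n x)) volume 1 X := fun n =>
    (iw2_intervalIntegrable H n n 1 X).const_mul _
  have i2' : IntervalIntegrable (fun x => ∑ n ∈ Icc 3 M, w n * (iw H n x * iw H n x)) volume 1 X := by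
    have := IntervalIntegrable.sum (Icc 3 M) (f := fun n x => w n * (iw H n x * iw H n x))
      (μ := volume) (a := 1) (b := X) (fun n _ => i2 n)
    simpa [Finset.sum_apply, Finset.sum_fn] using this
  rw [intervalIntegral.integral_add (i1'.sub (i2'.const_mul _)) intervalIntegrable_const,
    intervalIntegral.integral_sub i1' (i2'.const_mul _), intervalIntegral.integral_const_mul,
    intervalIntegral.integral_const, smul_eq_mul,
    intervalIntegral.integral_finset_sum (fun n _ => i2 n),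
    intervalIntegral.integral_finset_sum (fun n _ => by
      have := IntervalIntegrable.sum (Icc 3 M) (f := fun m x => w n * w m * (iw H n x * iw H m x))
          (μ := volume) (a := 1) (b := X) (fun m _ => i1 n m)
      simpa [Finset.sum_apply, Finset.sum_fn] using this)]
  have e2 : ∀ n ∈ Icc 3 M, ∫ x in (1 : ℝ)..X, ∑ m ∈ Icc 3 M, w n * w m * (iw H n x * iw H m x) =
      ∑ m ∈ Icc 3 M, w n * w m * vo X H n m := by
    intro n _
    rw [intervalIntegral.integral_finset_sum (fun m _ => i1 n m)]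
    apply sum_congr rfl
    intro m _
    rw [intervalIntegral.integral_const_mul]
    rfl
  have e3 : ∀ n ∈ Icc 3 M, ∫ x in (1 : ℝ)..X, w n * (iw H n x * iw H n x) = w n * vo X H n n := by
    intro n _
    rw [intervalIntegral.integral_const_mul]
    rfl
  rw [sum_congr rfl e2, sum_congr rfl e3]
  ring

end Pool.Agent.H531.VR
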