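import Pool.Agent.H531.VR.GMf

set_option autoImplicit false

/-!
# The edge effect for long intervals
-/

open Finset MeasureTheory ProbabilityTheory Filter Topology

namespace Pool.Agent.H531.VR

open Pool.Agent.T2H31.HV
open Pool.Agent
open Pool.Agent.T2H32.BF

theorem sq_intervalIntegrable (H : ℝ) (A B : ℝ) (M : ℕ) (w : ℕ → ℝ) :
    IntervalIntegrable (fun x => (∑ n ∈ Icc 3 M, w n * iw H n x - H) ^ 2) volume A B := by
  have e : ∀ x : ℝ, (∑ n ∈ Icc 3 M, w n * iw H n x - H) ^ 2 =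
      (∑ n ∈ Icc 3 M, ∑ m ∈ Icc 3 M, w n * w m * (iw H n x * iw H m x) -
        2 * H * ∑ n ∈ Icc 3 M, w n * (iw H n x * iw H n x)) + H ^ 2 := by
    intro x
    have e1 : ∑ n ∈ Icc 3 M, ∑ m ∈ Icc 3 M, w n * w m * (iw H n x * iw H m x) = (∑ n ∈ Icc 3 M, w n * iw H n x) ^ 2 := by
      rw [sq, sum_mul_sum]
      apply sum_congr rfl
      intro n _
      apply sum_congr rfl
      intro m _
      ring
    simp_rw [iw_sq]
    rw [e1]
    ring
  simp_rw [e]
  have i1 : ∀ n m : ℕ, IntervalIntegrable (fun x => w n * w m * (iw H n x * iw H m x)) volume A B := fun n m =>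
    (iw2_intervalIntegrable H n m A B).const_mul _
  have i1' : IntervalIntegrable (fun x => ∑ n ∈ Icc 3 M, ∑ m ∈ Icc 3 M, w n * w m * (iw H n x * iw H m x)) volume A B := by
    have := IntervalIntegrable.sum (Icc 3 M) (f := fun n x => ∑ m ∈ Icc 3 M, w n * w m * (iw H n x * iw H m x))
      (μ := volume) (a := A) (b := B) (fun n _ => by
        have := IntervalIntegrable.sum (Icc 3 M) (f := fun m x => w n * w m * (iw H n x * iw H m x))
          (μ := volume) (a := A) (b := B) (fun m _ => i1 n m)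
        simpa [Finset.sum_apply, Finset.sum_fn] using this)
    simpa [Finset.sum_apply, Finset.sum_fn] using this
  have i2 : ∀ n : ℕ, IntervalIntegrable (fun x => w n * (iw H n x * iw H n x)) volume A B := fun n =>
    (iw2_intervalIntegrable H n n A B).const_mul _
  have i2' : IntervalIntegrable (fun x => ∑ n ∈ Icc 3 M, w n * (iw H n x * iw H n x)) volume A B := by
    have := IntervalIntegrable.sum (Icc 3 M) (f := fun n x => w n * (iw H n x * iw H n x))
      (μ := volume) (a := A) (b := B) (fun n _ => i2 n)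
    simpa [Finset.sum_apply, Finset.sum_fn] using this
  exact (i1'.sub (i2'.const_mul _)).add intervalIntegrable_const

theorem psiI_nonneg (b : ℕ → ℕ) (x H : ℝ) : 0 ≤ psiI b x H := by
  classical
  unfold psiI
  apply sum_nonneg
  intro n hn
  rw [mem_filter] at hn
  have h3 : (3 : ℝ) ≤ n := by exact_mod_cast hn.2.1
  exact Real.log_nonneg (by linarith)

theorem psiI_le (hz : ∀ n, z0 n ≤ n) (b : ℕ → ℕ) (x H : ℝ) :
    psiI b x H ≤ PF z0 1 0 ⌊x + H / 2⌋₊ (fun n => Real.log n) b := by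
  classical
  set M := ⌊x + H / 2⌋₊ with hM
  have hPF1 : PF z0 1 0 M (fun n => Real.log n) b = ∑ n ∈ Icc 3 M, wt M b n := by
    unfold PF
    rw [show Ico 3 (M + 1 - 0) = Icc 3 M from by ext n; simp]
    apply sum_congr rfl
    intro n _
    unfold wt
    rw [add_zero, sv_mul_self]
  rw [hPF1]
  unfold psiI
  have h1 : ∀ n ∈ (Icc ⌈x - H / 2⌉₊ M).filter (fun n => n ∈ R z0 b), Real.log n = wt M b n := by
    intro n hn
    rw [mem_filter, mem_Icc] at hn
    unfold wt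
    rw [(sv_eq hz M b n hn.2.1 hn.1.2).1 hn.2, mul_one]
  rw [sum_congr rfl h1]
  apply sum_le_sum_of_subset_of_nonneg
  · intro n hn
    rw [mem_filter, mem_Icc] at hn
    rw [mem_Icc]
    exact ⟨hn.2.1, hn.1.2⟩
  · intro n hn _
    rw [mem_Icc] at hn
    have h3 : (3 : ℝ) ≤ n := by exact_mod_cast hn.1
    unfold wt
    apply mul_nonneg (Real.log_nonneg (by linarith))
    unfold sv
    split_ifs <;> norm_num

theorem main_edge (Ω : Type) [MeasurableSpace Ω] (P : Measure Ω) (a : ℕ → Ω → ℕ) (h : T2H32.BF.Model P a) :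
    ∀ᵐ ω ∂P, ∀ ε : ℝ, 0 < ε → ∀ᶠ X : ℝ in atTop, ∀ H : ℝ, X ^ (1 / 2 + ε) < H → H < X ^ (1 - ε) →
      X ^ ε * (H * Real.log X) ≤ 1 / X * (∫ x in (1 : ℝ)..X, (psiI (fun q => a q ω) x H - H) ^ 2) := by
  have hFL := T_FL (T_ANO T_BV) (T_MOM T_FIN) T_TR
  have hE1 := T_E1 T_Z
  have hE3 := T_E3 T_Z T_RAT
  filter_upwards [FLat_of hFL Ω P a h] with ω hω
  set b : ℕ → ℕ := fun q => a q ω with hb
  intro ε hε
  have hη : 0 < min ((1 / 4 : ℝ) / 2) (1 / 4 : ℝ) := lt_min (by positivity) (by norm_num)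
  obtain ⟨N0, hN0⟩ := eventually_atTop.1 (((det_GM hE1 hE3 T_Z (1 / 4) (1 / 5) (by norm_num) le_rfl (by norm_num)).and
    (hω _ hη)).and (eventually_ge_atTop 1))
  have hθ : ∀ N : ℕ, N0 ≤ N → PF z0 1 0 N (fun n => Real.log n) b ≤ 11 / 10 * N := by
    intro N hN
    obtain ⟨⟨hd, hfl⟩, hN1⟩ := hN0 N hN
    have hN1' : (1 : ℝ) ≤ N := by exact_mod_cast hN1
    obtain ⟨-, h2⟩ := hd ((N : ℝ) ^ (1 / 4 : ℝ)) le_rfl (by
      apply le_of_eq
      norm_num) b hfl
    set H : ℝ := (N : ℝ) ^ (1 / 4 : ℝ) with hH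
    have hH1 : 1 ≤ H := Real.one_le_rpow hN1' (by norm_num)
    rw [abs_mul, abs_of_nonneg (by positivity : 0 ≤ 2 * H ^ 2)] at h2
    set D := |PF z0 1 0 N (fun n => Real.log n) b - N| with hD
    have h3 : PF z0 1 0 N (fun n => Real.log n) b - N ≤ D := le_abs_self _
    have h4 : 0 ≤ D := abs_nonneg _
    have h5 : 2 * D ≤ 1 / 5 * N := by
      have h6 : H * (2 * (H * D)) ≤ H * (1 / 5 * N) := by
        calc H * (2 * (H * D)) = 2 * H ^ 2 * D := by ring
          _ ≤ 1 / 5 * (N * H) := h2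
          _ = H * (1 / 5 * N) := by ring
      have h7 := le_of_mul_le_mul_left h6 (by linarith)
      nlinarith
    linarith
  have hlo := (isLittleO_log_rpow_atTop hε).bound (show (0 : ℝ) < 1 / 320 by norm_num)
  filter_upwards [eventually_ge_atTop (max 64 ((2 * N0 + 2 : ℝ) ^ 2)), hlo] with X hXb hXo H hH1 hH2
  have hX64 : 64 ≤ X := (le_max_left _ _).trans hXb
  have hXN0 : (2 * N0 + 2 : ℝ) ^ 2 ≤ X := (le_max_right _ _).trans hXb
  have hX0 : 0 < X := by linarith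
  have hX1 : 1 ≤ X := by linarith
  have hlX0 : 0 ≤ Real.log X := Real.log_nonneg hX1
  rw [Real.norm_of_nonneg hlX0, Real.norm_of_nonneg (by positivity)] at hXo
  have hsX : √X ≤ H := by
    rw [Real.sqrt_eq_rpow]
    exact (Real.rpow_le_rpow_of_exponent_le hX1 (by linarith)).trans hH1.le
  have h8 : 8 ≤ √X := by
    rw [show (8 : ℝ) = √64 by
      rw [show (64 : ℝ) = 8 ^ 2 by norm_num, Real.sqrt_sq (by norm_num)]]
    exact Real.sqrt_le_sqrt hX64
  have hN0H : (2 * N0 + 2 : ℝ) ≤ H := by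
    refine le_trans ?_ hsX
    exact Real.le_sqrt_of_sq_le hXN0
  have hH8 : 8 ≤ H := h8.trans hsX
  have hH0 : 0 < H := by linarith
  have hHX : H ≤ X := by
    refine hH2.le.trans ?_
    calc X ^ (1 - ε) ≤ X ^ (1 : ℝ) := Real.rpow_le_rpow_of_exponent_le hX1 (by linarith)
      _ = X := Real.rpow_one _
  have hzn := T_Z.1
  have hptw : ∀ x ∈ Set.Icc (1 : ℝ) (H / 4), H ^ 2 / 40 ≤ (psiI b x H - H) ^ 2 := by
    intro x hx
    obtain ⟨hx1, hx2⟩ := hx
    have h1 := psiI_le hzn b x H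
    have hN : N0 ≤ ⌊x + H / 2⌋₊ := by
      apply Nat.le_floor
      linarith
    have h2 := hθ _ hN
    have h3 : (⌊x + H / 2⌋₊ : ℝ) ≤ x + H / 2 := Nat.floor_le (by linarith)
    have h4 : psiI b x H ≤ 33 / 40 * H := by linarith
    have h5 : 7 / 40 * H ≤ H - psiI b x H := by linarith
    have h6 : (7 / 40 * H) ^ 2 ≤ (H - psiI b x H) ^ 2 := pow_le_pow_left₀ (by positivity) h5 2
    nlinarith
  set M := ⌊X + H / 2⌋₊ with hMdef
  have hint : ∀ A B : ℝ, 1 ≤ A → A ≤ B → B ≤ X → ∫ x in A..B, (psiI b x H - H) ^ 2 =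
      ∫ x in A..B, (∑ n ∈ Icc 3 M, wt M b n * iw H n x - H) ^ 2 := by
    intro A B hA hAB hB
    apply intervalIntegral.integral_congr
    intro x hx
    rw [Set.uIcc_of_le hAB] at hx
    simp only
    rw [psiI_eq hzn b X H x hH0 ⟨hA.trans hx.1, hx.2.trans hB⟩]
  have hH4X : H / 4 ≤ X := by linarith
  have h1H4 : 1 ≤ H / 4 := by linarith
  have hlow : (H / 4 - 1) * (H ^ 2 / 40) ≤ ∫ x in (1 : ℝ)..X, (psiI b x H - H) ^ 2 := by
    rw [hint 1 X le_rfl hX1 le_rfl]
    have hi := sq_intervalIntegrable H 1 X M (wt M b)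
    have hi2 := sq_intervalIntegrable H 1 (H / 4) M (wt M b)
    have hmono := intervalIntegral.integral_mono_interval (μ := volume) (f := fun x => (∑ n ∈ Icc 3 M, wt M b n * iw H n x - H) ^ 2)
      (a := 1) (b := H / 4) (c := 1) (d := X) le_rfl h1H4 hH4X
      (Filter.Eventually.of_forall fun x => sq_nonneg _) hi
    refine le_trans ?_ hmono
    have hc : ∫ x in (1 : ℝ)..(H / 4), (H ^ 2 / 40 : ℝ) = (H / 4 - 1) * (H ^ 2 / 40) := by
      rw [intervalIntegral.integral_const, smul_eq_mul]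
    rw [← hc]
    apply intervalIntegral.integral_mono_on h1H4 intervalIntegrable_const hi2
    intro x hx
    have := hptw x hx
    rwa [psiI_eq hzn b X H x hH0 ⟨hx.1, hx.2.trans hH4X⟩] at this
  have hH3 : H ^ 3 / 320 ≤ ∫ x in (1 : ℝ)..X, (psiI b x H - H) ^ 2 := by
    refine le_trans ?_ hlow
    have : H / 8 ≤ H / 4 - 1 := by linarith
    calc H ^ 3 / 320 = H / 8 * (H ^ 2 / 40) := by ring
      _ ≤ (H / 4 - 1) * (H ^ 2 / 40) := by gcongr
  have hHsq : X ^ (1 + 2 * ε) ≤ H ^ 2 := by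
    calc X ^ (1 + 2 * ε) = (X ^ (1 / 2 + ε)) ^ 2 := by
          rw [← Real.rpow_natCast (X ^ (1 / 2 + ε)) 2, ← Real.rpow_mul hX0.le]
          congr 1
          push_cast
          ring
      _ ≤ H ^ 2 := by gcongr
  have hfac : X ^ (1 + 2 * ε) = X * (X ^ ε * X ^ ε) := by
    rw [← Real.rpow_add hX0, Real.rpow_add hX0, Real.rpow_one]
    congr 2
    ring
  calc X ^ ε * (H * Real.log X) ≤ X ^ ε * (H * (1 / 320 * X ^ ε)) := by gcongr
    _ = 1 / X * (H * (X * (X ^ ε * X ^ ε)) / 320) := by field_simp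
    _ ≤ 1 / X * (H * H ^ 2 / 320) := by
        rw [← hfac]
        gcongr
    _ = 1 / X * (H ^ 3 / 320) := by ring
    _ ≤ 1 / X * (∫ x in (1 : ℝ)..X, (psiI b x H - H) ^ 2) := by gcongr

end Pool.Agent.H531.VR
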