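import Pool.Graph.R_pool_sql_team_seeded_707910d6.T2H31.HV.T_D5

set_option autoImplicit false

/-!
# The divisor coefficients of the singular series: the sum with its constant

`κ ∑_{d ≤ x} gd(d) = log x + γ + ∑_{p ∣ Q} log p / (p - 1) + O(x ^ (-1/4) N ^ η)`, uniformly in `Q ≤ N`, `x ≤ N`.
The Dirichlet series is `ζ(1+s)` times a finite product of short local factors; every local factor acts on functions of
`x` by `Φ(x) ↦ a0 Φ(x) + a1 Φ(x/p) + a2 Φ(x/p²)`.
-/

open Finset Filter Topology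

namespace Pool.Agent.H531.VR

open Pool.Agent.T2H31.HV

/-- the local factor at `p` -/
noncomputable def hh (Q p n : ℕ) : ℝ :=
  if p ∣ Q then (if p ∣ n then 0 else (p : ℝ) / (p - 1))
  else (if p ^ 2 ∣ n then 0 else if p ∣ n then (p : ℝ) ^ 2 / ((p : ℝ) - 1) ^ 2 else 1 - 1 / ((p : ℝ) - 1) ^ 2)

noncomputable def a0 (Q p : ℕ) : ℝ := if p ∣ Q then (p : ℝ) / (p - 1) else 1 - 1 / ((p : ℝ) - 1) ^ 2
noncomputable def a1 (Q p : ℕ) : ℝ := if p ∣ Q then -(1 / ((p : ℝ) - 1)) else 2 / ((p : ℝ) - 1) ^ 2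
noncomputable def a2 (Q p : ℕ) : ℝ := if p ∣ Q then 0 else -(1 / ((p : ℝ) - 1) ^ 2)
noncomputable def cc (Q p : ℕ) : ℝ := if p ∣ Q then Real.log p / ((p : ℝ) - 1) else 0

theorem hh_eq (Q p n : ℕ) (hp : p.Prime) :
    hh Q p n = a0 Q p + a1 Q p * (if p ∣ n then (p : ℝ) else 0) + a2 Q p * (if p ^ 2 ∣ n then (p : ℝ) ^ 2 else 0) := by
  have h1 : (1 : ℝ) < p := by exact_mod_cast hp.one_lt
  have h2 : (p : ℝ) - 1 ≠ 0 := by linarith
  unfold hh a0 a1 a2
  by_cases hQ : p ∣ Q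
  · simp only [if_pos hQ]
    by_cases hn : p ∣ n
    · simp only [if_pos hn]
      field_simp
      ring
    · simp only [if_neg hn]
      ring
  · simp only [if_neg hQ]
    by_cases hn2 : p ^ 2 ∣ n
    · have hn : p ∣ n := (dvd_pow_self p two_ne_zero).trans hn2
      simp only [if_pos hn2, if_pos hn]
      field_simp
      ring
    · simp only [if_neg hn2]
      by_cases hn : p ∣ n
      · simp only [if_pos hn]
        field_simp
        ring
      · simp only [if_neg hn]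
        ring

/-- the weighted sum -/
noncomputable def FS (Q : ℕ) (S : Finset ℕ) (x : ℝ) : ℝ := ∑ n ∈ Icc 1 ⌊x⌋₊, 1 / (n : ℝ) * ∏ p ∈ S, hh Q p n

theorem hh_mul (Q p q m : ℕ) (hp : p.Prime) (hq : q.Prime) (hpq : q ≠ p) (k : ℕ) : hh Q q (p ^ k * m) = hh Q q m := by
  have hc : Nat.Coprime q (p ^ k) := Nat.Coprime.pow_right k ((Nat.coprime_primes hq hp).2 hpq)
  have h1 : q ∣ p ^ k * m ↔ q ∣ m := Nat.Coprime.dvd_mul_left hc
  have h2 : q ^ 2 ∣ p ^ k * m ↔ q ^ 2 ∣ m := Nat.Coprime.dvd_mul_left (Nat.Coprime.pow_left 2 hc)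
  unfold hh
  simp only [h1, h2]

theorem FS_mult (Q : ℕ) (S : Finset ℕ) (hS : ∀ p ∈ S, p.Prime) (p : ℕ) (hp : p.Prime) (hpS : p ∉ S) (x : ℝ) (k : ℕ) :
    ∑ n ∈ Icc 1 ⌊x⌋₊, 1 / (n : ℝ) * (∏ q ∈ S, hh Q q n) * (if p ^ k ∣ n then (p : ℝ) ^ k else 0) =
      FS Q S (x / (p : ℝ) ^ k) := by
  have hpk : 0 < p ^ k := pow_pos hp.pos k
  have hpk0 : ((p : ℝ) ^ k) ≠ 0 := by
    have := hp.pos
    positivity
  have h1 : ∑ n ∈ Icc 1 ⌊x⌋₊, 1 / (n : ℝ) * (∏ q ∈ S, hh Q q n) * (if p ^ k ∣ n then (p : ℝ) ^ k else 0) =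
      ∑ n ∈ (Icc 1 ⌊x⌋₊).filter (fun n => p ^ k ∣ n), 1 / (n : ℝ) * (∏ q ∈ S, hh Q q n) * (p : ℝ) ^ k := by
    rw [sum_filter]
    apply sum_congr rfl
    intro n _
    split_ifs
    · rfl
    · ring
  rw [h1, sum_multiples ⌊x⌋₊ (p ^ k) hpk]
  unfold FS
  have h2 : ⌊x / (p : ℝ) ^ k⌋₊ = ⌊x⌋₊ / p ^ k := by
    rw [← Nat.floor_div_natCast]
    push_cast
    rfl
  rw [h2]
  apply sum_congr rfl
  intro i hi
  rw [mem_Icc] at hi
  have hi0 : (i : ℝ) ≠ 0 := by
    have : (0 : ℝ) < i := by exact_mod_cast hi.1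
    exact this.ne'
  have h3 : ∏ q ∈ S, hh Q q (p ^ k * i) = ∏ q ∈ S, hh Q q i := by
    apply prod_congr rfl
    intro q hq
    exact hh_mul Q p q i hp (hS q hq) (fun h => hpS (h ▸ hq)) k
  rw [h3]
  push_cast
  field_simp

theorem FS_insert (Q : ℕ) (S : Finset ℕ) (hS : ∀ p ∈ S, p.Prime) (p : ℕ) (hp : p.Prime) (hpS : p ∉ S) (x : ℝ) :
    FS Q (insert p S) x = a0 Q p * FS Q S x + a1 Q p * FS Q S (x / p) + a2 Q p * FS Q S (x / (p : ℝ) ^ 2) := by
  have e1 := FS_mult Q S hS p hp hpS x 1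
  have e2 := FS_mult Q S hS p hp hpS x 2
  simp only [pow_one] at e1
  rw [← e1, ← e2]
  unfold FS
  rw [mul_sum, mul_sum, mul_sum, ← sum_add_distrib, ← sum_add_distrib]
  apply sum_congr rfl
  intro n _
  rw [prod_insert hpS, hh_eq Q p n hp]
  ring

/-! ## The asymptotic formula -/

theorem harmonic_asymp (x : ℝ) (hx : 0 < x) :
    |∑ n ∈ Icc 1 ⌊x⌋₊, 1 / (n : ℝ) - (Real.log x + Real.eulerMascheroniConstant)| ≤ 5 * x ^ (-(1 / 4) : ℝ) := by
  have hγ0 : 0 < Real.eulerMascheroniConstant := by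
    have := Real.one_half_lt_eulerMascheroniConstant
    linarith
  have hγ1 : Real.eulerMascheroniConstant < 1 := by
    have := Real.eulerMascheroniConstant_lt_two_thirds
    linarith
  rcases lt_or_ge x 1 with h1 | h1
  · have h2 : ⌊x⌋₊ = 0 := Nat.floor_eq_zero.2 h1
    rw [h2]
    simp only [Icc_eq_empty_of_lt (by norm_num : (0 : ℕ) < 1), sum_empty, zero_sub, abs_neg]
    have h3 : Real.log x ≤ 0 := Real.log_nonpos hx.le h1.le
    have h4 : -Real.log x ≤ 4 * x ^ (-(1 / 4) : ℝ) := by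
      have h5 : Real.log (x ^ (-(1 / 4) : ℝ)) ≤ x ^ (-(1 / 4) : ℝ) - 1 :=
        Real.log_le_sub_one_of_pos (Real.rpow_pos_of_pos hx _)
      rw [Real.log_rpow hx] at h5
      linarith
    have h6 : 1 ≤ x ^ (-(1 / 4) : ℝ) := Real.one_le_rpow_of_pos_of_le_one_of_nonpos hx h1.le (by norm_num)
    rw [abs_le]
    constructor <;> linarith
  · set n := ⌊x⌋₊ with hn
    have hn1 : 1 ≤ n := Nat.le_floor (by exact_mod_cast h1)
    have hn0 : (0 : ℝ) < n := by exact_mod_cast hn1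
    have hnx : (n : ℝ) ≤ x := Nat.floor_le hx.le
    have hxn : x < n + 1 := Nat.lt_floor_add_one x
    have e : ∑ k ∈ Icc 1 n, 1 / (k : ℝ) = (harmonic n : ℝ) := by
      rw [harmonic_eq_sum_Icc]
      push_cast
      exact sum_congr rfl fun k _ => by rw [one_div]
    rw [e]
    have h2 : Real.eulerMascheroniConstant ≤ (harmonic n : ℝ) - Real.log n := by
      have h3 := Real.eulerMascheroniConstant_lt_eulerMascheroniSeq' n
      unfold Real.eulerMascheroniSeq' at h3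
      rw [if_neg (by omega)] at h3
      exact h3.le
    have h4 : (harmonic n : ℝ) - Real.log (n + 1) ≤ Real.eulerMascheroniConstant := by
      have h3 := Real.eulerMascheroniSeq_lt_eulerMascheroniConstant n
      unfold Real.eulerMascheroniSeq at h3
      exact h3.le
    have h5 : Real.log (n + 1) - Real.log n ≤ 1 / n := by
      rw [← Real.log_div (by positivity) hn0.ne']
      have := Real.log_le_sub_one_of_pos (show 0 < ((n : ℝ) + 1) / n by positivity)
      refine this.trans (le_of_eq ?_)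
      field_simp
      ring
    have h6 : Real.log n ≤ Real.log x := Real.log_le_log hn0 hnx
    have h7 : Real.log x ≤ Real.log (n + 1) := Real.log_le_log hx hxn.le
    have h8 : 1 / (n : ℝ) ≤ 2 / x := by
      rw [div_le_div_iff₀ hn0 hx]
      have : (1 : ℝ) ≤ n := by exact_mod_cast hn1
      linarith
    have h9 : 1 / x ≤ x ^ (-(1 / 4) : ℝ) := by
      rw [one_div, ← Real.rpow_neg_one]
      exact Real.rpow_le_rpow_of_exponent_le h1 (by norm_num)
    have h10 : 2 / x = 2 * (1 / x) := by ring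
    have h11 : 0 < x ^ (-(1 / 4) : ℝ) := Real.rpow_pos_of_pos hx _
    rw [abs_le]
    constructor <;> linarith

/-- the growth of the error -/
noncomputable def BB (Q p : ℕ) : ℝ := |a0 Q p| + |a1 Q p| * (p : ℝ) ^ (1 / 4 : ℝ) + |a2 Q p| * (p : ℝ) ^ (1 / 2 : ℝ)

theorem BB_nonneg (Q p : ℕ) : 0 ≤ BB Q p := by
  unfold BB
  positivity

theorem FS_asymp (Q : ℕ) (S : Finset ℕ) (hS : ∀ p ∈ S, p.Prime) : ∀ x : ℝ, 0 < x →
    |FS Q S x - (Real.log x + Real.eulerMascheroniConstant + ∑ p ∈ S, cc Q p)| ≤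
      5 * x ^ (-(1 / 4) : ℝ) * ∏ p ∈ S, BB Q p := by
  induction S using Finset.induction_on with
  | empty =>
    intro x hx
    have h := harmonic_asymp x hx
    unfold FS
    simp only [prod_empty, mul_one, sum_empty, add_zero]
    exact h
  | insert p S hpS ih =>
    intro x hx
    have hp : p.Prime := hS p (mem_insert_self _ _)
    have hS' : ∀ q ∈ S, q.Prime := fun q hq => hS q (mem_insert_of_mem hq)
    have ih' := ih hS'
    rw [FS_insert Q S hS' p hp hpS x, sum_insert hpS, prod_insert hpS]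
    have hp0 : (0 : ℝ) < p := by exact_mod_cast hp.pos
    have hp1 : (1 : ℝ) < p := by exact_mod_cast hp.one_lt
    have hp1' : (p : ℝ) - 1 ≠ 0 := by linarith
    set C := ∑ q ∈ S, cc Q q with hC
    set B := ∏ q ∈ S, BB Q q with hB
    have hB0 : 0 ≤ B := prod_nonneg fun q _ => BB_nonneg Q q
    set X := x ^ (-(1 / 4) : ℝ) with hX
    have hX0 : 0 < X := Real.rpow_pos_of_pos hx _
    have e0 := ih' x hx
    have e1 := ih' (x / p) (by positivity)
    have e2 := ih' (x / (p : ℝ) ^ 2) (by positivity)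
    have r1 : (x / p) ^ (-(1 / 4) : ℝ) = X * (p : ℝ) ^ (1 / 4 : ℝ) := by
      rw [Real.div_rpow hx.le hp0.le, Real.rpow_neg hp0.le, div_inv_eq_mul]
    have r2 : (x / (p : ℝ) ^ 2) ^ (-(1 / 4) : ℝ) = X * (p : ℝ) ^ (1 / 2 : ℝ) := by
      have h0 : (0 : ℝ) ≤ (p : ℝ) ^ 2 := by positivity
      rw [Real.div_rpow hx.le h0, Real.rpow_neg h0, div_inv_eq_mul, ← Real.rpow_natCast_mul hp0.le,
        show ((2 : ℕ) : ℝ) * (1 / 4) = 1 / 2 by norm_num]
    have l1 : Real.log (x / p) = Real.log x - Real.log p := Real.log_div hx.ne' hp0.ne'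
    have l2 : Real.log (x / (p : ℝ) ^ 2) = Real.log x - 2 * Real.log p := by
      rw [Real.log_div hx.ne' (by positivity), Real.log_pow]
      push_cast
      ring
    rw [r1, l1] at e1
    rw [r2, l2] at e2
    set γ := Real.eulerMascheroniConstant with hγ
    have hid : a0 Q p * FS Q S x + a1 Q p * FS Q S (x / p) + a2 Q p * FS Q S (x / (p : ℝ) ^ 2) -
        (Real.log x + γ + (cc Q p + C)) =
        a0 Q p * (FS Q S x - (Real.log x + γ + C)) + a1 Q p * (FS Q S (x / p) - (Real.log x - Real.log p + γ + C)) +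
          a2 Q p * (FS Q S (x / (p : ℝ) ^ 2) - (Real.log x - 2 * Real.log p + γ + C)) := by
      have h1 : a0 Q p + a1 Q p + a2 Q p = 1 := by
        unfold a0 a1 a2
        split_ifs
        · field_simp
          ring
        · ring
      have h2 : a1 Q p * Real.log p + a2 Q p * (2 * Real.log p) = -cc Q p := by
        unfold a1 a2 cc
        split_ifs
        · ring
        · ring
      linear_combination (Real.log x + γ + C) * h1 - h2
    rw [hid]
    refine (abs_add_three _ _ _).trans ?_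
    rw [abs_mul, abs_mul, abs_mul]
    have b0 : |a0 Q p| * |FS Q S x - (Real.log x + γ + C)| ≤ |a0 Q p| * (5 * X * B) := by gcongr
    have b1 : |a1 Q p| * |FS Q S (x / p) - (Real.log x - Real.log p + γ + C)| ≤
        |a1 Q p| * (5 * (X * (p : ℝ) ^ (1 / 4 : ℝ)) * B) := by gcongr
    have b2 : |a2 Q p| * |FS Q S (x / (p : ℝ) ^ 2) - (Real.log x - 2 * Real.log p + γ + C)| ≤
        |a2 Q p| * (5 * (X * (p : ℝ) ^ (1 / 2 : ℝ)) * B) := by gcongr
    have e : 5 * X * (BB Q p * B) = |a0 Q p| * (5 * X * B) + |a1 Q p| * (5 * (X * (p : ℝ) ^ (1 / 4 : ℝ)) * B) +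
        |a2 Q p| * (5 * (X * (p : ℝ) ^ (1 / 2 : ℝ)) * B) := by
      unfold BB
      ring
    rw [e]
    linarith

end Pool.Agent.H531.VR
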