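import Pool.Agent.H531.VR.Wt

set_option autoImplicit false

/-!
# Partial summation, and the sum of `{H/n} (1 - {H/n})` with weights
-/

open Finset Filter Topology

namespace Pool.Agent.H531.VR

theorem abel (u f : ℕ → ℝ) (A B : ℕ) (hAB : A < B) :
    ∑ n ∈ Ioc A B, (u n - u (n - 1)) * f n =
      u B * f B - u A * f (A + 1) - ∑ n ∈ Ico (A + 1) B, u n * (f (n + 1) - f n) := by
  induction B, hAB using Nat.le_induction with
  | base =>
    rw [Nat.succ_eq_add_one, Nat.Ioc_succ_singleton, Ico_self, sum_empty, sum_singleton, Nat.add_sub_cancel]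
    ring
  | succ B hB ih =>
    have hB' : A + 1 ≤ B := hB
    rw [sum_Ioc_succ_top (by omega : A ≤ B), ih, sum_Ico_succ_top hB', Nat.add_sub_cancel]
    ring

theorem abel_bound (u f : ℕ → ℝ) (A B : ℕ) (hAB : A < B) (δ M W : ℝ) (hδ : 0 ≤ δ)
    (hu : ∀ n, A ≤ n → n ≤ B → |u n| ≤ δ) (h1 : |f (A + 1)| ≤ M) (h2 : |f B| ≤ M)
    (h3 : ∑ n ∈ Ico (A + 1) B, |f (n + 1) - f n| ≤ W) :
    |∑ n ∈ Ioc A B, (u n - u (n - 1)) * f n| ≤ δ * (2 * M + W) := by
  rw [abel u f A B hAB]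
  have a1 : |u B * f B| ≤ δ * M := by
    rw [abs_mul]
    exact mul_le_mul (hu B hAB.le le_rfl) h2 (abs_nonneg _) hδ
  have a2 : |u A * f (A + 1)| ≤ δ * M := by
    rw [abs_mul]
    exact mul_le_mul (hu A le_rfl hAB.le) h1 (abs_nonneg _) hδ
  have a3 : |∑ n ∈ Ico (A + 1) B, u n * (f (n + 1) - f n)| ≤ δ * W := by
    refine (abs_sum_le_sum_abs _ _).trans ?_
    calc ∑ n ∈ Ico (A + 1) B, |u n * (f (n + 1) - f n)| ≤ ∑ n ∈ Ico (A + 1) B, δ * |f (n + 1) - f n| := by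
          apply sum_le_sum
          intro n hn
          rw [mem_Ico] at hn
          rw [abs_mul]
          exact mul_le_mul_of_nonneg_right (hu n (by omega) (by omega)) (abs_nonneg _)
      _ = δ * ∑ n ∈ Ico (A + 1) B, |f (n + 1) - f n| := by rw [mul_sum]
      _ ≤ δ * W := mul_le_mul_of_nonneg_left h3 hδ
  have e := abs_sub (u B * f B - u A * f (A + 1)) (∑ n ∈ Ico (A + 1) B, u n * (f (n + 1) - f n))
  have e' := abs_sub (u B * f B) (u A * f (A + 1))
  linarith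

theorem tele (f : ℕ → ℝ) (A B : ℕ) (hAB : A ≤ B) : ∑ n ∈ Ico A B, (f (n + 1) - f n) = f B - f A :=
  sum_Ico_sub f hAB

/-- the three sums -/
theorem three (w : ℕ → ℝ) (c δ : ℝ) (hδ : 0 ≤ δ) (A B : ℕ) (hAB : A < B)
    (hu : ∀ n, A ≤ n → n ≤ B → |∑ k ∈ Icc 1 n, (w k - 1 / (k : ℝ)) - c| ≤ δ) :
    |∑ n ∈ Ioc A B, (w n - 1 / (n : ℝ))| ≤ 2 * δ ∧
      |∑ n ∈ Ioc A B, (w n - 1 / (n : ℝ)) * n| ≤ 3 * δ * B ∧
      |∑ n ∈ Ioc A B, (w n - 1 / (n : ℝ)) * (1 / (n : ℝ))| ≤ 3 * δ / (A + 1) := by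
  set u : ℕ → ℝ := fun n => ∑ k ∈ Icc 1 n, (w k - 1 / (k : ℝ)) - c with hudef
  have hdiff : ∀ n ∈ Ioc A B, u n - u (n - 1) = w n - 1 / (n : ℝ) := by
    intro n hn
    rw [mem_Ioc] at hn
    obtain ⟨m, rfl⟩ : ∃ m, n = m + 1 := ⟨n - 1, by omega⟩
    simp only [hudef, Nat.add_sub_cancel]
    rw [sum_Icc_succ_top (by omega)]
    ring
  have hE : ∀ f : ℕ → ℝ, ∑ n ∈ Ioc A B, (w n - 1 / (n : ℝ)) * f n = ∑ n ∈ Ioc A B, (u n - u (n - 1)) * f n := by
    intro f
    apply sum_congr rfl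
    intro n hn
    rw [hdiff n hn]
  have hB1 : (A : ℝ) + 1 ≤ B := by exact_mod_cast hAB
  have hA0 : (0 : ℝ) ≤ A := Nat.cast_nonneg A
  refine ⟨?_, ?_, ?_⟩
  · have h := abel_bound u (fun _ => 1) A B hAB δ 1 0 hδ hu (by norm_num) (by norm_num) (by simp)
    rw [← hE] at h
    simp only [mul_one] at h
    linarith
  · have h := abel_bound u (fun n => (n : ℝ)) A B hAB δ B B hδ hu
      (by
        rw [abs_of_nonneg (Nat.cast_nonneg _)]
        push_cast
        exact hB1)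
      (by rw [abs_of_nonneg (Nat.cast_nonneg _)])
      (by
        calc ∑ n ∈ Ico (A + 1) B, |((n + 1 : ℕ) : ℝ) - n| = ∑ n ∈ Ico (A + 1) B, (((n + 1 : ℕ) : ℝ) - n) := by
              apply sum_congr rfl
              intro n _
              apply abs_of_nonneg
              push_cast
              linarith
          _ = (B : ℝ) - ((A + 1 : ℕ) : ℝ) := tele (fun n => (n : ℝ)) (A + 1) B hAB
          _ ≤ B := by
              have : (0 : ℝ) ≤ ((A + 1 : ℕ) : ℝ) := Nat.cast_nonneg _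
              linarith)
    rw [← hE] at h
    linarith
  · have hA1 : (0 : ℝ) < (A : ℝ) + 1 := by linarith
    have h := abel_bound u (fun n => 1 / (n : ℝ)) A B hAB δ (1 / ((A : ℝ) + 1)) (1 / ((A : ℝ) + 1)) hδ hu
      (by
        rw [abs_of_nonneg (by positivity)]
        push_cast
        exact le_rfl)
      (by
        rw [abs_of_nonneg (by positivity)]
        exact one_div_le_one_div_of_le hA1 hB1)
      (by
        calc ∑ n ∈ Ico (A + 1) B, |1 / ((n + 1 : ℕ) : ℝ) - 1 / (n : ℝ)| =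
            ∑ n ∈ Ico (A + 1) B, (-(1 / ((n + 1 : ℕ) : ℝ)) - -(1 / (n : ℝ))) := by
              apply sum_congr rfl
              intro n hn
              rw [mem_Ico] at hn
              have hn0 : (0 : ℝ) < n := by exact_mod_cast (by omega : 0 < n)
              have : 1 / ((n + 1 : ℕ) : ℝ) ≤ 1 / (n : ℝ) := by
                apply one_div_le_one_div_of_le hn0
                push_cast
                linarith
              rw [abs_of_nonpos (by linarith)]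
              ring
          _ = -(1 / (B : ℝ)) - -(1 / ((A + 1 : ℕ) : ℝ)) := tele (fun n => -(1 / (n : ℝ))) (A + 1) B hAB
          _ ≤ 1 / ((A : ℝ) + 1) := by
              have : 0 ≤ 1 / (B : ℝ) := by positivity
              push_cast
              linarith)
    rw [← hE] at h
    refine h.trans (le_of_eq ?_)
    ring

/-! ## Sums of `1 / n` and `1 / n²` -/

theorem sum_inv_sq (A B : ℕ) (hA : 1 ≤ A) (hAB : A ≤ B) :
    1 / ((A : ℝ) + 1) - 1 / ((B : ℝ) + 1) ≤ ∑ n ∈ Ioc A B, 1 / (n : ℝ) ^ 2 ∧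
      ∑ n ∈ Ioc A B, 1 / (n : ℝ) ^ 2 ≤ 1 / (A : ℝ) - 1 / B := by
  induction B, hAB using Nat.le_induction with
  | base => simp
  | succ B hB ih =>
    rw [sum_Ioc_succ_top hB]
    have hB0 : (0 : ℝ) < B := by exact_mod_cast (by omega : 0 < B)
    push_cast
    have h1 : 1 / ((B : ℝ) + 1) - 1 / ((B : ℝ) + 1 + 1) ≤ 1 / ((B : ℝ) + 1) ^ 2 := by
      rw [div_sub_div _ _ (by positivity) (by positivity), div_le_div_iff₀ (by positivity) (by positivity)]
      nlinarith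
    have h2 : 1 / ((B : ℝ) + 1) ^ 2 ≤ 1 / B - 1 / ((B : ℝ) + 1) := by
      rw [div_sub_div _ _ (by positivity) (by positivity), div_le_div_iff₀ (by positivity) (by positivity)]
      nlinarith
    constructor
    · linarith [ih.1]
    · linarith [ih.2]

theorem log_step (n : ℝ) (hn : 0 < n) : Real.log (n + 1) - Real.log n ≤ 1 / n ∧ 1 / (n + 1) ≤ Real.log (n + 1) - Real.log n := by
  rw [← Real.log_div (by positivity) hn.ne']
  constructor
  · refine (Real.log_le_sub_one_of_pos (by positivity)).trans (le_of_eq ?_)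
    field_simp
    ring
  · have h := Real.one_sub_inv_le_log_of_pos (show 0 < (n + 1) / n by positivity)
    refine le_trans (le_of_eq ?_) h
    rw [inv_div]
    field_simp
    ring

theorem sum_inv (A B : ℕ) (hA : 1 ≤ A) (hAB : A ≤ B) :
    Real.log ((B : ℝ) + 1) - Real.log ((A : ℝ) + 1) ≤ ∑ n ∈ Ioc A B, 1 / (n : ℝ) ∧
      ∑ n ∈ Ioc A B, 1 / (n : ℝ) ≤ Real.log B - Real.log A := by
  induction B, hAB using Nat.le_induction with
  | base => simp
  | succ B hB ih =>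
    rw [sum_Ioc_succ_top hB]
    have hB0 : (0 : ℝ) < B := by exact_mod_cast (by omega : 0 < B)
    push_cast
    have h1 := (log_step ((B : ℝ) + 1) (by positivity)).1
    have h2 := (log_step (B : ℝ) hB0).2
    constructor
    · linarith [ih.1]
    · linarith [ih.2]

/-! ## One piece -/

/-- `n {H/n} (1 - {H/n})` -/
noncomputable def gg (H : ℝ) (n : ℕ) : ℝ := n * (Int.fract (H / n) * (1 - Int.fract (H / n)))

theorem gg_nonneg (H : ℝ) (n : ℕ) : 0 ≤ gg H n := by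
  unfold gg
  have h1 := Int.fract_nonneg (H / n)
  have h2 := (Int.fract_lt_one (H / n)).le
  have : 0 ≤ 1 - Int.fract (H / n) := by linarith
  positivity

theorem gg_le (H : ℝ) (n : ℕ) : gg H n ≤ 1 / 4 * n := by
  unfold gg
  have h : Int.fract (H / n) * (1 - Int.fract (H / n)) ≤ 1 / 4 := by nlinarith [sq_nonneg (Int.fract (H / n) - 1 / 2)]
  have : (0 : ℝ) ≤ n := Nat.cast_nonneg n
  nlinarith

theorem gg_eq (H : ℝ) (hH : 0 < H) (j n : ℕ) (hj : 1 ≤ j) (hn : n ∈ Ioc ⌊H / ((j : ℝ) + 1)⌋₊ ⌊H / j⌋₊) :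
    gg H n = -(H ^ 2 * (1 / (n : ℝ))) + (2 * j + 1) * H - j * (j + 1) * n := by
  rw [mem_Ioc] at hn
  have hj0 : (0 : ℝ) < j := by exact_mod_cast hj
  have h1 : H / ((j : ℝ) + 1) < n := Nat.lt_of_floor_lt hn.1
  have hn0 : (0 : ℝ) < n := lt_of_le_of_lt (by positivity) h1
  have h2 : (n : ℝ) ≤ H / j := (Nat.le_floor_iff (by positivity)).1 hn.2
  have h3 : H / n < j + 1 := by
    rw [div_lt_iff₀ (by positivity)] at h1
    rw [div_lt_iff₀ hn0]
    linarith
  have h4 : (j : ℝ) ≤ H / n := by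
    rw [le_div_iff₀ hj0] at h2
    rw [le_div_iff₀ hn0]
    linarith
  have h5 : Int.fract (H / n) = H / n - j := by
    rw [Int.fract_eq_iff]
    refine ⟨by linarith, by linarith, j, ?_⟩
    push_cast
    ring
  unfold gg
  rw [h5]
  field_simp
  ring

/-- the limit of one piece -/
noncomputable def sg (j : ℕ) : ℝ := -2 + (2 * j + 1) * (Real.log ((j : ℝ) + 1) - Real.log j)

theorem piece (w : ℕ → ℝ) (c δ : ℝ) (hδ : 0 ≤ δ) (H : ℝ) (j : ℕ) (hj : 1 ≤ j) (hH : 2 * ((j : ℝ) + 1) ≤ H)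
    (hu : ∀ n, ⌊H / ((j : ℝ) + 1)⌋₊ ≤ n → n ≤ ⌊H / j⌋₊ → |∑ k ∈ Icc 1 n, (w k - 1 / (k : ℝ)) - c| ≤ δ) :
    |∑ n ∈ Ioc ⌊H / ((j : ℝ) + 1)⌋₊ ⌊H / j⌋₊, w n * gg H n - H * sg j| ≤ 18 * j * δ * H + 100 * (j : ℝ) ^ 2 := by
  have hj1 : (1 : ℝ) ≤ j := by exact_mod_cast hj
  have hH0 : 0 < H := by linarith
  set A := ⌊H / ((j : ℝ) + 1)⌋₊ with hA
  set B := ⌊H / j⌋₊ with hB
  have hA1 : (A : ℝ) ≤ H / ((j : ℝ) + 1) := Nat.floor_le (by positivity)
  have hA2 : H / ((j : ℝ) + 1) < A + 1 := Nat.lt_floor_add_one _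
  have hB1 : (B : ℝ) ≤ H / j := Nat.floor_le (by positivity)
  have hB2 : H / j < B + 1 := Nat.lt_floor_add_one _
  have hA1' : A * ((j : ℝ) + 1) ≤ H := by rwa [le_div_iff₀ (by positivity)] at hA1
  have hA2' : H < (A + 1) * ((j : ℝ) + 1) := by rwa [div_lt_iff₀ (by positivity)] at hA2
  have hB1' : B * (j : ℝ) ≤ H := by rwa [le_div_iff₀ (by positivity)] at hB1
  have hB2' : H < (B + 1) * (j : ℝ) := by rwa [div_lt_iff₀ (by positivity)] at hB2
  have hA3 : 2 ≤ A := Nat.le_floor (by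
    push_cast
    rw [le_div_iff₀ (by positivity)]
    exact hH)
  have hA4 : (2 : ℝ) ≤ A := by exact_mod_cast hA3
  have hAB : A ≤ B := Nat.floor_le_floor (by
    apply div_le_div_of_nonneg_left hH0.le (by positivity)
    linarith)
  have hA5 : H ≤ 2 * A * ((j : ℝ) + 1) := by nlinarith
  have hB5 : H ≤ 2 * B * (j : ℝ) := by
    have : (A : ℝ) ≤ B := by exact_mod_cast hAB
    nlinarith
  have hB4 : (2 : ℝ) ≤ B := hA4.trans (by exact_mod_cast hAB)
  -- the formula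
  have hform : ∑ n ∈ Ioc A B, w n * gg H n =
      (-(H ^ 2) * (∑ n ∈ Ioc A B, (w n - 1 / (n : ℝ)) * (1 / (n : ℝ))) +
        (2 * j + 1) * H * (∑ n ∈ Ioc A B, (w n - 1 / (n : ℝ))) -
        j * (j + 1) * ∑ n ∈ Ioc A B, (w n - 1 / (n : ℝ)) * n) +
      (-(H ^ 2) * (∑ n ∈ Ioc A B, 1 / (n : ℝ) ^ 2) + (2 * j + 1) * H * (∑ n ∈ Ioc A B, 1 / (n : ℝ)) -
        j * (j + 1) * ∑ n ∈ Ioc A B, (1 : ℝ)) := by
    rw [mul_sum, mul_sum, mul_sum, mul_sum, mul_sum, mul_sum, ← sum_add_distrib, ← sum_sub_distrib, ← sum_add_distrib,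
      ← sum_sub_distrib, ← sum_add_distrib]
    apply sum_congr rfl
    intro n hn
    rw [gg_eq H hH0 j n hj hn]
    rw [mem_Ioc] at hn
    have hn0 : (n : ℝ) ≠ 0 := by
      have : (0 : ℝ) < n := by exact_mod_cast (by omega : 0 < n)
      exact this.ne'
    field_simp
    ring
  -- first part
  have hI : |-(H ^ 2) * (∑ n ∈ Ioc A B, (w n - 1 / (n : ℝ)) * (1 / (n : ℝ))) +
        (2 * j + 1) * H * (∑ n ∈ Ioc A B, (w n - 1 / (n : ℝ))) -
        j * (j + 1) * ∑ n ∈ Ioc A B, (w n - 1 / (n : ℝ)) * n| ≤ 18 * j * δ * H := by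
    rcases hAB.eq_or_lt with h | h
    · rw [h, Ioc_self]
      simp only [sum_empty, mul_zero, add_zero, sub_zero, abs_zero]
      positivity
    · obtain ⟨t1, t2, t3⟩ := three w c δ hδ A B h hu
      have s3 : H ^ 2 * |∑ n ∈ Ioc A B, (w n - 1 / (n : ℝ)) * (1 / (n : ℝ))| ≤ 3 * δ * (H * (j + 1)) := by
        have h1 : H ^ 2 * (3 * δ / (A + 1)) ≤ 3 * δ * (H * (j + 1)) := by
          have e : H ^ 2 * (3 * δ / (A + 1)) = 3 * δ * (H * (H / (A + 1))) := by ring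
          rw [e]
          have h2 : H / ((A : ℝ) + 1) ≤ j + 1 := by
            rw [div_le_iff₀ (by positivity)]
            linarith
          gcongr
        refine le_trans ?_ h1
        gcongr
      have s1 : (2 * j + 1) * H * |∑ n ∈ Ioc A B, (w n - 1 / (n : ℝ))| ≤ (2 * j + 1) * H * (2 * δ) := by gcongr
      have s2 : j * (j + 1) * |∑ n ∈ Ioc A B, (w n - 1 / (n : ℝ)) * n| ≤ 3 * δ * (H * (j + 1)) := by
        calc j * (j + 1) * |∑ n ∈ Ioc A B, (w n - 1 / (n : ℝ)) * n| ≤ j * (j + 1) * (3 * δ * B) := by gcongr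
          _ = 3 * δ * ((B * j) * (j + 1)) := by ring
          _ ≤ 3 * δ * (H * (j + 1)) := by gcongr
      have habs : |-(H ^ 2) * (∑ n ∈ Ioc A B, (w n - 1 / (n : ℝ)) * (1 / (n : ℝ))) +
          (2 * j + 1) * H * (∑ n ∈ Ioc A B, (w n - 1 / (n : ℝ))) -
          j * (j + 1) * ∑ n ∈ Ioc A B, (w n - 1 / (n : ℝ)) * n| ≤
          H ^ 2 * |∑ n ∈ Ioc A B, (w n - 1 / (n : ℝ)) * (1 / (n : ℝ))| +
          (2 * j + 1) * H * |∑ n ∈ Ioc A B, (w n - 1 / (n : ℝ))| +
          j * (j + 1) * |∑ n ∈ Ioc A B, (w n - 1 / (n : ℝ)) * n| := by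
        refine (abs_sub _ _).trans ?_
        refine add_le_add ((abs_add_le _ _).trans ?_) ?_
        · rw [abs_mul, abs_mul, abs_neg, abs_of_nonneg (by positivity : (0 : ℝ) ≤ H ^ 2),
            abs_of_nonneg (by positivity : (0 : ℝ) ≤ (2 * j + 1) * H)]
        · rw [abs_mul, abs_of_nonneg (by positivity : (0 : ℝ) ≤ (j : ℝ) * (j + 1))]
      refine habs.trans ?_
      have hδH : 0 ≤ δ * H := by positivity
      have e : 3 * δ * (H * (j + 1)) + (2 * j + 1) * H * (2 * δ) + 3 * δ * (H * (j + 1)) = (10 * j + 8) * (δ * H) := by ring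
      have e' : 18 * j * δ * H = (10 * j + 8 * j) * (δ * H) := by ring
      have : (10 * (j : ℝ) + 8) * (δ * H) ≤ (10 * j + 8 * j) * (δ * H) := by
        apply mul_le_mul_of_nonneg_right _ hδH
        linarith
      linarith
  -- second part
  have hII : |(-(H ^ 2) * (∑ n ∈ Ioc A B, 1 / (n : ℝ) ^ 2) + (2 * j + 1) * H * (∑ n ∈ Ioc A B, 1 / (n : ℝ)) -
        j * (j + 1) * ∑ n ∈ Ioc A B, (1 : ℝ)) - H * sg j| ≤ 100 * (j : ℝ) ^ 2 := by
    obtain ⟨q1, q2⟩ := sum_inv_sq A B (by omega) hAB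
    obtain ⟨l1, l2⟩ := sum_inv A B (by omega) hAB
    have hA0 : (0 : ℝ) < A := by linarith
    have hB0 : (0 : ℝ) < B := by linarith
    -- squares
    have k1 : |H ^ 2 * (∑ n ∈ Ioc A B, 1 / (n : ℝ) ^ 2) - H| ≤ 32 * (j : ℝ) ^ 2 := by
      have u1 : 1 / (A : ℝ) - ((j : ℝ) + 1) / H ≤ 1 / (A : ℝ) ^ 2 := by
        have h1 : 1 / ((A : ℝ) + 1) ≤ ((j : ℝ) + 1) / H := by
          rw [div_le_div_iff₀ (by positivity) hH0]
          linarith
        have h2 : 1 / (A : ℝ) - 1 / ((A : ℝ) + 1) ≤ 1 / (A : ℝ) ^ 2 := by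
          rw [div_sub_div _ _ (by positivity) (by positivity), div_le_div_iff₀ (by positivity) (by positivity)]
          nlinarith
        linarith
      have u2 : ((j : ℝ) + 1) / H - 1 / ((A : ℝ) + 1) ≤ 1 / (A : ℝ) ^ 2 := by
        have h1 : ((j : ℝ) + 1) / H ≤ 1 / A := by
          rw [div_le_div_iff₀ hH0 hA0]
          linarith
        have h2 : 1 / (A : ℝ) - 1 / ((A : ℝ) + 1) ≤ 1 / (A : ℝ) ^ 2 := by
          rw [div_sub_div _ _ (by positivity) (by positivity), div_le_div_iff₀ (by positivity) (by positivity)]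
          nlinarith
        linarith
      have v1 : (j : ℝ) / H - 1 / (B : ℝ) ≤ 0 := by
        rw [sub_nonpos, div_le_div_iff₀ hH0 hB0]
        linarith
      have v2 : 1 / ((B : ℝ) + 1) - (j : ℝ) / H ≤ 0 := by
        rw [sub_nonpos, div_le_div_iff₀ (by positivity) hH0]
        linarith
      have v3 : 1 / (B : ℝ) - 1 / ((B : ℝ) + 1) ≤ 1 / (B : ℝ) ^ 2 := by
        rw [div_sub_div _ _ (by positivity) (by positivity), div_le_div_iff₀ (by positivity) (by positivity)]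
        nlinarith
      have eH : ((j : ℝ) + 1) / H - j / H = 1 / H := by ring
      have w1 : 1 / (A : ℝ) ^ 2 ≤ (4 * ((j : ℝ) + 1) ^ 2) / H ^ 2 := by
        rw [div_le_div_iff₀ (by positivity) (by positivity)]
        have := mul_self_le_mul_self hH0.le hA5
        nlinarith
      have w2 : 1 / (B : ℝ) ^ 2 ≤ 1 / (A : ℝ) ^ 2 := by
        apply one_div_le_one_div_of_le (by positivity)
        have : (A : ℝ) ≤ B := by exact_mod_cast hAB
        gcongr
      have w3 : 4 * ((j : ℝ) + 1) ^ 2 ≤ 16 * (j : ℝ) ^ 2 := by nlinarith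
      have z1 : |(∑ n ∈ Ioc A B, 1 / (n : ℝ) ^ 2) - 1 / H| ≤ 2 * ((4 * ((j : ℝ) + 1) ^ 2) / H ^ 2) := by
        rw [abs_le]
        constructor <;> linarith
      have e : H ^ 2 * (∑ n ∈ Ioc A B, 1 / (n : ℝ) ^ 2) - H = H ^ 2 * ((∑ n ∈ Ioc A B, 1 / (n : ℝ) ^ 2) - 1 / H) := by
        field_simp
      rw [e, abs_mul, abs_of_nonneg (by positivity)]
      calc H ^ 2 * |(∑ n ∈ Ioc A B, 1 / (n : ℝ) ^ 2) - 1 / H| ≤ H ^ 2 * (2 * ((4 * ((j : ℝ) + 1) ^ 2) / H ^ 2)) := by gcongr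
        _ = 2 * (4 * ((j : ℝ) + 1) ^ 2) := by field_simp
        _ ≤ 32 * (j : ℝ) ^ 2 := by linarith
    -- logarithms
    have k2 : |(2 * j + 1) * H * (∑ n ∈ Ioc A B, 1 / (n : ℝ)) - (2 * j + 1) * H * (Real.log ((j : ℝ) + 1) - Real.log j)| ≤
        36 * (j : ℝ) ^ 2 + 12 * j ^ 2 := by
      have hj0 : (0 : ℝ) < j := by linarith
      have L1 : Real.log (H / ((j : ℝ) + 1)) = Real.log H - Real.log ((j : ℝ) + 1) := Real.log_div hH0.ne' (by positivity)
      have L2 : Real.log (H / (j : ℝ)) = Real.log H - Real.log j := Real.log_div hH0.ne' hj0.ne'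
      have m1 : Real.log A ≤ Real.log (H / ((j : ℝ) + 1)) := Real.log_le_log hA0 hA1
      have m2 : Real.log (H / ((j : ℝ) + 1)) ≤ Real.log ((A : ℝ) + 1) := Real.log_le_log (by positivity) hA2.le
      have m3 : Real.log B ≤ Real.log (H / (j : ℝ)) := Real.log_le_log hB0 hB1
      have m4 : Real.log (H / (j : ℝ)) ≤ Real.log ((B : ℝ) + 1) := Real.log_le_log (by positivity) hB2.le
      have m5 := (log_step (A : ℝ) hA0).1
      have m6 := (log_step (B : ℝ) hB0).1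
      have w1 : 1 / (A : ℝ) ≤ 2 * ((j : ℝ) + 1) / H := by
        rw [div_le_div_iff₀ hA0 hH0]
        linarith
      have w2 : 1 / (B : ℝ) ≤ 1 / A := by
        apply one_div_le_one_div_of_le hA0
        exact_mod_cast hAB
      have z1 : |(∑ n ∈ Ioc A B, 1 / (n : ℝ)) - (Real.log ((j : ℝ) + 1) - Real.log j)| ≤ 2 * (2 * ((j : ℝ) + 1) / H) := by
        rw [abs_le]
        constructor <;> linarith
      rw [← mul_sub, abs_mul, abs_of_nonneg (by positivity)]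
      calc (2 * j + 1) * H * |(∑ n ∈ Ioc A B, 1 / (n : ℝ)) - (Real.log ((j : ℝ) + 1) - Real.log j)| ≤
          (2 * j + 1) * H * (2 * (2 * ((j : ℝ) + 1) / H)) := by gcongr
        _ = (2 * j + 1) * (4 * ((j : ℝ) + 1)) := by field_simp; ring
        _ ≤ 36 * (j : ℝ) ^ 2 + 12 * j ^ 2 := by nlinarith
    -- the number
    have k3 : |j * (j + 1) * (∑ n ∈ Ioc A B, (1 : ℝ)) - H| ≤ 4 * (j : ℝ) ^ 2 := by
      have hc : ∑ n ∈ Ioc A B, (1 : ℝ) = B - A := by
        rw [sum_const, Nat.card_Ioc, nsmul_eq_mul, mul_one, Nat.cast_sub hAB]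
      rw [hc]
      have e1 : (j : ℝ) * (j + 1) * (B - A) - H = (j + 1) * (B * j - H) - j * (A * (j + 1) - H) := by ring
      rw [e1, abs_le]
      have p1 : (B : ℝ) * j - H ≤ 0 := by linarith
      have p2 : -(j : ℝ) ≤ B * j - H := by linarith
      have p3 : (A : ℝ) * (j + 1) - H ≤ 0 := by linarith
      have p4 : -((j : ℝ) + 1) ≤ A * (j + 1) - H := by linarith
      constructor
      · nlinarith
      · nlinarith
    have e : (-(H ^ 2) * (∑ n ∈ Ioc A B, 1 / (n : ℝ) ^ 2) + (2 * j + 1) * H * (∑ n ∈ Ioc A B, 1 / (n : ℝ)) -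
        j * (j + 1) * ∑ n ∈ Ioc A B, (1 : ℝ)) - H * sg j =
        -(H ^ 2 * (∑ n ∈ Ioc A B, 1 / (n : ℝ) ^ 2) - H) + ((2 * j + 1) * H * (∑ n ∈ Ioc A B, 1 / (n : ℝ)) -
          (2 * j + 1) * H * (Real.log ((j : ℝ) + 1) - Real.log j)) -
        (j * (j + 1) * (∑ n ∈ Ioc A B, (1 : ℝ)) - H) := by
      unfold sg
      ring
    rw [e]
    rw [abs_le] at k1 k2 k3 ⊢
    constructor <;> linarith [k1.1, k1.2, k2.1, k2.2, k3.1, k3.2, sq_nonneg (j : ℝ)]
  rw [hform]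
  have e : ∀ a b c : ℝ, a + b - c = a + (b - c) := fun a b c => by ring
  rw [e]
  exact (abs_add_le _ _).trans (add_le_add hI hII)

end Pool.Agent.H531.VR
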