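import Pool.Agent.H531.VR.PS

set_option autoImplicit false

/-!
# The sum of `{H/n} (1 - {H/n})` with weights: the constant `2 - log (2 π)`
-/

open Finset Filter Topology

namespace Pool.Agent.H531.VR

theorem sum_sg (J : ℕ) (hJ : 1 ≤ J) :
    ∑ j ∈ Ico 1 J, sg j = -2 * ((J : ℝ) - 1) + (2 * J + 1) * Real.log J - 2 * Real.log (J.factorial : ℝ) := by
  induction J, hJ using Nat.le_induction with
  | base => simp
  | succ J hJ ih =>
    rw [sum_Ico_succ_top hJ, ih]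
    unfold sg
    have hJ0 : (0 : ℝ) < J := by exact_mod_cast (by omega : 0 < J)
    have hf : (0 : ℝ) < J.factorial := by exact_mod_cast Nat.factorial_pos J
    rw [Nat.factorial_succ]
    push_cast
    rw [Real.log_mul (by positivity) hf.ne']
    ring

theorem sg_lim : Tendsto (fun J : ℕ => ∑ j ∈ Ico 1 J, sg j) atTop (𝓝 (2 - Real.log (2 * Real.pi))) := by
  have hpi := Real.pi_pos
  have h1 : Tendsto (fun J : ℕ => Real.log (Stirling.stirlingSeq J)) atTop (𝓝 (Real.log (√Real.pi))) :=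
    (Real.continuousAt_log (by positivity)).tendsto.comp Stirling.tendsto_stirlingSeq_sqrt_pi
  have h2 : Tendsto (fun J : ℕ => 2 - Real.log 2 - 2 * Real.log (Stirling.stirlingSeq J)) atTop
      (𝓝 (2 - Real.log 2 - 2 * Real.log (√Real.pi))) := (h1.const_mul 2).const_sub _
  have e : 2 - Real.log 2 - 2 * Real.log (√Real.pi) = 2 - Real.log (2 * Real.pi) := by
    rw [Real.log_sqrt hpi.le, Real.log_mul (by norm_num) hpi.ne']
    ring
  rw [← e]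
  refine h2.congr' ?_
  filter_upwards [eventually_ge_atTop 1] with J hJ
  rw [sum_sg J hJ, Stirling.log_stirlingSeq_formula]
  have hJ0 : (0 : ℝ) < J := by exact_mod_cast (by omega : 0 < J)
  rw [Real.log_mul (by norm_num) hJ0.ne', Real.log_div hJ0.ne' (Real.exp_pos _).ne', Real.log_exp]
  ring

theorem split_pieces (F : ℕ → ℝ) (H : ℝ) (hH : 0 ≤ H) (J : ℕ) (hJ : 1 ≤ J) :
    ∑ n ∈ Ioc ⌊H / (J : ℝ)⌋₊ ⌊H⌋₊, F n = ∑ j ∈ Ico 1 J, ∑ n ∈ Ioc ⌊H / ((j : ℝ) + 1)⌋₊ ⌊H / (j : ℝ)⌋₊, F n := by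
  induction J, hJ using Nat.le_induction with
  | base => simp
  | succ J hJ ih =>
    have hJ0 : (0 : ℝ) < J := by exact_mod_cast (by omega : 0 < J)
    have h1 : ⌊H / ((J : ℝ) + 1)⌋₊ ≤ ⌊H / (J : ℝ)⌋₊ := by
      apply Nat.floor_le_floor
      apply div_le_div_of_nonneg_left hH hJ0
      linarith
    have h2 : ⌊H / (J : ℝ)⌋₊ ≤ ⌊H⌋₊ := by
      apply Nat.floor_le_floor
      apply div_le_self hH
      exact_mod_cast hJ
    rw [sum_Ico_succ_top hJ, ← ih]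
    push_cast
    rw [← sum_Ioc_consecutive F h1 h2, add_comm]

theorem head_bound (w : ℕ → ℝ) (c δ : ℝ) (hδ : 0 ≤ δ) (hδ1 : δ ≤ 1) (D T : ℕ) (hD : D ≤ T)
    (hu : ∀ n, D ≤ n → n ≤ T → |∑ k ∈ Icc 1 n, (w k - 1 / (k : ℝ)) - c| ≤ δ) (R0 : ℝ)
    (hR : ∑ n ∈ Icc 1 D, w n * n ≤ R0) : ∑ n ∈ Icc 1 T, w n * n ≤ R0 + 4 * T := by
  have e : Icc 1 T = Ioc 0 T := rfl
  have e' : Icc 1 D = Ioc 0 D := rfl
  rw [e]
  rw [e'] at hR
  rw [← sum_Ioc_consecutive _ (Nat.zero_le D) hD]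
  have h1 : ∑ n ∈ Ioc D T, w n * n ≤ 4 * T := by
    rcases hD.eq_or_lt with h | h
    · rw [h, Ioc_self, sum_empty]
      positivity
    · obtain ⟨-, t2, -⟩ := three w c δ hδ D T h hu
      have h2 : ∑ n ∈ Ioc D T, w n * (n : ℝ) = ∑ n ∈ Ioc D T, (w n - 1 / (n : ℝ)) * n + ∑ n ∈ Ioc D T, (1 : ℝ) := by
        rw [← sum_add_distrib]
        apply sum_congr rfl
        intro n hn
        rw [mem_Ioc] at hn
        have hn0 : (n : ℝ) ≠ 0 := by
          have : (0 : ℝ) < n := by exact_mod_cast (by omega : 0 < n)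
          exact this.ne'
        field_simp
        ring
      rw [h2]
      have h3 : ∑ n ∈ Ioc D T, (1 : ℝ) ≤ T := by
        rw [sum_const, Nat.card_Ioc, nsmul_eq_mul, mul_one]
        exact_mod_cast Nat.sub_le _ _
      have h4 := le_abs_self (∑ n ∈ Ioc D T, (w n - 1 / (n : ℝ)) * n)
      have h5 : 3 * δ * (T : ℝ) ≤ 3 * 1 * T := by gcongr
      linarith
  linarith

theorem psi_total (w : ℕ → ℝ) (hw : ∀ n, 0 ≤ w n) (c δ : ℝ) (hδ : 0 ≤ δ) (hδ1 : δ ≤ 1) (H : ℝ) (J D : ℕ)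
    (R0 : ℝ) (hR0 : 0 ≤ R0) (hJ : 1 ≤ J) (hH : 2 * (J : ℝ) ≤ H) (hD : D ≤ ⌊H / (J : ℝ)⌋₊)
    (hu : ∀ n, D ≤ n → n ≤ ⌊H⌋₊ → |∑ k ∈ Icc 1 n, (w k - 1 / (k : ℝ)) - c| ≤ δ)
    (hR : ∑ n ∈ Icc 1 D, w n * n ≤ R0) :
    |∑ n ∈ Icc 1 ⌊H⌋₊, w n * gg H n - H * ∑ j ∈ Ico 1 J, sg j| ≤
      18 * (J : ℝ) ^ 2 * δ * H + 100 * (J : ℝ) ^ 3 + R0 + H / J := by
  have hJ0 : (0 : ℝ) < J := by exact_mod_cast (by omega : 0 < J)
  have hJ1 : (1 : ℝ) ≤ J := by exact_mod_cast hJ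
  have hH0 : 0 < H := by linarith
  set T := ⌊H / (J : ℝ)⌋₊ with hT
  have hTH : T ≤ ⌊H⌋₊ := Nat.floor_le_floor (div_le_self hH0.le hJ1)
  have hT1 : (T : ℝ) ≤ H / J := Nat.floor_le (by positivity)
  have e : ∑ n ∈ Icc 1 ⌊H⌋₊, w n * gg H n = ∑ n ∈ Icc 1 T, w n * gg H n + ∑ n ∈ Ioc T ⌊H⌋₊, w n * gg H n := by
    have e1 : Icc 1 ⌊H⌋₊ = Ioc 0 ⌊H⌋₊ := rfl
    have e2 : Icc 1 T = Ioc 0 T := rfl
    rw [e1, e2, sum_Ioc_consecutive _ (Nat.zero_le T) hTH]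
  have h1 : |∑ n ∈ Ioc T ⌊H⌋₊, w n * gg H n - H * ∑ j ∈ Ico 1 J, sg j| ≤ 18 * (J : ℝ) ^ 2 * δ * H + 100 * (J : ℝ) ^ 3 := by
    rw [hT, split_pieces (fun n => w n * gg H n) H hH0.le J hJ, mul_sum, ← sum_sub_distrib]
    refine (abs_sum_le_sum_abs _ _).trans ?_
    calc ∑ j ∈ Ico 1 J, |∑ n ∈ Ioc ⌊H / ((j : ℝ) + 1)⌋₊ ⌊H / (j : ℝ)⌋₊, w n * gg H n - H * sg j| ≤
        ∑ j ∈ Ico 1 J, (18 * J * δ * H + 100 * (J : ℝ) ^ 2) := by
          apply sum_le_sum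
          intro j hj
          rw [mem_Ico] at hj
          have hj1 : (1 : ℝ) ≤ j := by exact_mod_cast hj.1
          have hjJ : (j : ℝ) + 1 ≤ J := by exact_mod_cast hj.2
          have h2 := piece w c δ hδ H j hj.1 (by linarith) (fun n hn1 hn2 => hu n (by
            refine hD.trans (le_trans ?_ hn1)
            apply Nat.floor_le_floor
            apply div_le_div_of_nonneg_left hH0.le (by positivity) hjJ) (hn2.trans (Nat.floor_le_floor (div_le_self hH0.le hj1))))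
          refine h2.trans ?_
          have h3 : (j : ℝ) ≤ J := by linarith
          gcongr
      _ = ((J - 1 : ℕ) : ℝ) * (18 * J * δ * H + 100 * (J : ℝ) ^ 2) := by
          rw [sum_const, Nat.card_Ico, nsmul_eq_mul]
      _ ≤ J * (18 * J * δ * H + 100 * (J : ℝ) ^ 2) := by
          apply mul_le_mul_of_nonneg_right _ (by positivity)
          exact_mod_cast Nat.sub_le _ _
      _ = _ := by ring
  have h2 : 0 ≤ ∑ n ∈ Icc 1 T, w n * gg H n := sum_nonneg fun n _ => mul_nonneg (hw n) (gg_nonneg H n)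
  have h3 : ∑ n ∈ Icc 1 T, w n * gg H n ≤ R0 + H / J := by
    calc ∑ n ∈ Icc 1 T, w n * gg H n ≤ ∑ n ∈ Icc 1 T, w n * (1 / 4 * n) := by
          apply sum_le_sum
          intro n _
          exact mul_le_mul_of_nonneg_left (gg_le H n) (hw n)
      _ = 1 / 4 * ∑ n ∈ Icc 1 T, w n * n := by
          rw [mul_sum]
          apply sum_congr rfl
          intro n _
          ring
      _ ≤ 1 / 4 * (R0 + 4 * T) := by
          apply mul_le_mul_of_nonneg_left _ (by norm_num)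
          exact head_bound w c δ hδ hδ1 D T hD (fun n h4 h5 => hu n h4 (h5.trans hTH)) R0 hR
      _ ≤ R0 + H / J := by linarith
  rw [e]
  rw [abs_le] at h1 ⊢
  constructor <;> linarith [h1.1, h1.2]

end Pool.Agent.H531.VR
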