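import Pool.Agent.H531.VR.Op

set_option autoImplicit false

/-!
# The sum of the divisor coefficients, uniformly in the modulus
-/

open Finset Filter Topology

namespace Pool.Agent.H531.VR

open Pool.Agent.T2H31.HV

theorem ratio_prod (n : ℕ) (hn : 1 ≤ n) : (n : ℝ) / Nat.totient n = ∏ p ∈ n.primeFactors, (p : ℝ) / (p - 1) := by
  have hn0 : (n : ℝ) ≠ 0 := by
    have : (0 : ℝ) < n := by exact_mod_cast hn
    exact this.ne'
  have h1 : (Nat.totient n : ℝ) = n * ∏ p ∈ n.primeFactors, (1 - (p : ℝ)⁻¹) := by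
    have h := Nat.totient_eq_mul_prod_factors n
    have h2 : ((Nat.totient n : ℚ) : ℝ) = ((n * ∏ p ∈ n.primeFactors, (1 - (p : ℚ)⁻¹) : ℚ) : ℝ) := by rw [h]
    push_cast at h2
    exact h2
  rw [h1]
  have h3 : ∏ p ∈ n.primeFactors, (p : ℝ) / (p - 1) = (∏ p ∈ n.primeFactors, (1 - (p : ℝ)⁻¹))⁻¹ := by
    rw [← prod_inv_distrib]
    apply prod_congr rfl
    intro p hp
    have hp1 : (1 : ℝ) < p := by exact_mod_cast (Nat.prime_of_mem_primeFactors hp).one_lt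
    have h4 : (p : ℝ) - 1 ≠ 0 := by linarith
    have h5 : (p : ℝ) ≠ 0 := by linarith
    have h6 : (1 : ℝ) - (p : ℝ)⁻¹ = (p - 1) / p := by field_simp
    rw [h6, inv_div]
  rw [h3]
  have h7 : ∏ p ∈ n.primeFactors, (1 - (p : ℝ)⁻¹) ≠ 0 := by
    rw [prod_ne_zero_iff]
    intro p hp
    have hp1 : (1 : ℝ) < p := by exact_mod_cast (Nat.prime_of_mem_primeFactors hp).one_lt
    have h4 : (p : ℝ) - 1 ≠ 0 := by linarith
    have h5 : (p : ℝ) ≠ 0 := by linarith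
    have h6 : (1 : ℝ) - (p : ℝ)⁻¹ = (p - 1) / p := by field_simp
    rw [h6]
    exact div_ne_zero h4 h5
  field_simp

/-- the weights -/
noncomputable def ww (N Q n : ℕ) : ℝ :=
  open Classical in if Squarefree n ∧ Nat.Coprime n Q then (Q : ℝ) / Nat.totient Q * gd N Q n else 0

theorem prod_hh (N Q n : ℕ) (hQ : 1 ≤ Q) (hQN : Q ≤ N) (hn : 1 ≤ n) (hnN : n ≤ N) :
    1 / (n : ℝ) * ∏ p ∈ PN N, hh Q p n = ww N Q n := by
  classical
  have hn0 : (n : ℝ) ≠ 0 := by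
    have : (0 : ℝ) < n := by exact_mod_cast hn
    exact this.ne'
  unfold ww
  by_cases hsc : Squarefree n ∧ Nat.Coprime n Q
  · rw [if_pos hsc]
    obtain ⟨hs, hc⟩ := hsc
    have hno : ∀ p, p.Prime → p ∣ n → ¬ p ∣ Q := fun p hp h1 h2 =>
      Nat.Prime.not_dvd_one hp (hc ▸ Nat.dvd_gcd h1 h2)
    rw [← prod_filter_mul_prod_filter_not (PN N) (fun p => p ∣ Q)]
    have e1 : ∏ p ∈ (PN N).filter (fun p => p ∣ Q), hh Q p n = (Q : ℝ) / Nat.totient Q := by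
      rw [ratio_prod Q hQ]
      have h1 : (PN N).filter (fun p => p ∣ Q) = Q.primeFactors := by
        ext p
        rw [mem_filter, mem_PN, Nat.mem_primeFactors]
        constructor
        · rintro ⟨⟨h1, h2⟩, h3⟩
          exact ⟨h2, h3, by omega⟩
        · rintro ⟨h1, h2, h3⟩
          exact ⟨⟨(Nat.le_of_dvd (by omega) h2).trans hQN, h1⟩, h2⟩
      rw [h1]
      apply prod_congr rfl
      intro p hp
      rw [Nat.mem_primeFactors] at hp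
      unfold hh
      rw [if_pos hp.2.1, if_neg (fun h => hno p hp.1 h hp.2.1)]
    have e2 : ∏ p ∈ (PN N).filter (fun p => ¬ p ∣ Q), hh Q p n =
        ((n : ℝ) / Nat.totient n) ^ 2 * ∏ p ∈ (PQ N Q).filter (fun p => ¬ p ∣ n), (1 - 1 / ((p : ℝ) - 1) ^ 2) := by
      rw [← prod_filter_mul_prod_filter_not ((PN N).filter fun p => ¬ p ∣ Q) (fun p => p ∣ n)]
      congr 1
      · have h1 : ((PN N).filter (fun p => ¬ p ∣ Q)).filter (fun p => p ∣ n) = n.primeFactors := by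
          ext p
          rw [mem_filter, mem_filter, mem_PN, Nat.mem_primeFactors]
          constructor
          · rintro ⟨⟨⟨h1, h2⟩, h3⟩, h4⟩
            exact ⟨h2, h4, by omega⟩
          · rintro ⟨h1, h2, h3⟩
            exact ⟨⟨⟨(Nat.le_of_dvd (by omega) h2).trans hnN, h1⟩, hno p h1 h2⟩, h2⟩
        rw [h1, ratio_prod n hn, ← prod_pow]
        apply prod_congr rfl
        intro p hp
        rw [Nat.mem_primeFactors] at hp
        unfold hh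
        rw [if_neg (hno p hp.1 hp.2.1), if_neg, if_pos hp.2.1, div_pow]
        intro h2
        have h3 := (Nat.squarefree_iff_prime_squarefree.1 hs) p hp.1
        exact h3 (by rwa [← pow_two])
      · unfold PQ
        apply prod_congr rfl
        intro p hp
        rw [mem_filter, mem_filter] at hp
        unfold hh
        rw [if_neg hp.1.2, if_neg (fun h => hp.2 ((dvd_pow_self p two_ne_zero).trans h)), if_neg hp.2]
    rw [e1, e2]
    unfold gd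
    have hφ : (Nat.totient n : ℝ) ≠ 0 := by
      have : (0 : ℝ) < Nat.totient n := by exact_mod_cast Nat.totient_pos.2 hn
      exact this.ne'
    field_simp
  · rw [if_neg hsc]
    have : ∏ p ∈ PN N, hh Q p n = 0 := by
      rw [not_and_or] at hsc
      rcases hsc with h | h
      · rw [Nat.squarefree_iff_prime_squarefree] at h
        push Not at h
        obtain ⟨p, hp, h2⟩ := h
        have hpn : p ∣ n := (dvd_mul_right p p).trans h2
        refine prod_eq_zero (i := p) ((mem_PN N p).2 ⟨(Nat.le_of_dvd (by omega) hpn).trans hnN, hp⟩) ?_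
        unfold hh
        rw [pow_two, if_pos h2, if_pos hpn]
        simp
      · obtain ⟨p, hp, h1, h2⟩ := Nat.Prime.not_coprime_iff_dvd.1 h
        refine prod_eq_zero (i := p) ((mem_PN N p).2 ⟨(Nat.le_of_dvd (by omega) h1).trans hnN, hp⟩) ?_
        unfold hh
        rw [if_pos h2, if_pos h1]
    rw [this, mul_zero]

theorem ww_nonneg (N Q n : ℕ) : 0 ≤ ww N Q n := by
  unfold ww
  split_ifs
  · have := gd_nonneg N Q n
    positivity
  · exact le_rfl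

theorem sum_ww (N Q K : ℕ) (F : ℕ → ℝ) :
    ∑ n ∈ Icc 1 K, ww N Q n * F n = (Q : ℝ) / Nat.totient Q * ∑ d ∈ SF Q K, gd N Q d * F d := by
  classical
  unfold SF ww
  rw [sum_filter, mul_sum]
  apply sum_congr rfl
  intro n _
  split_ifs
  · ring
  · ring

/-! ## The product of the local bounds -/

theorem BB_le (Q p : ℕ) (hp : p.Prime) (hpQ : ¬ p ∣ Q) : BB Q p ≤ 1 + 12 * (p : ℝ) ^ (-(3 / 2) : ℝ) := by
  have h2 : (2 : ℝ) ≤ p := by exact_mod_cast hp.two_le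
  have hp0 : (0 : ℝ) < p := by linarith
  unfold BB a0 a1 a2
  simp only [if_neg hpQ]
  have hq : (0 : ℝ) < ((p : ℝ) - 1) ^ 2 := by
    have : (0 : ℝ) < (p : ℝ) - 1 := by linarith
    positivity
  have h3 : |1 - 1 / ((p : ℝ) - 1) ^ 2| ≤ 1 := by
    rw [abs_of_nonneg (local_nonneg p hp)]
    exact local_le_one p
  have h4 : |2 / ((p : ℝ) - 1) ^ 2| = 2 / ((p : ℝ) - 1) ^ 2 := abs_of_nonneg (by positivity)
  have h5 : |-(1 / ((p : ℝ) - 1) ^ 2)| = 1 / ((p : ℝ) - 1) ^ 2 := by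
    rw [abs_neg]
    exact abs_of_nonneg (by positivity)
  rw [h4, h5]
  have h6 : (p : ℝ) ^ (1 / 4 : ℝ) ≤ (p : ℝ) ^ (1 / 2 : ℝ) :=
    Real.rpow_le_rpow_of_exponent_le (by linarith) (by norm_num)
  have h7 : 1 / ((p : ℝ) - 1) ^ 2 ≤ 4 * (p : ℝ) ^ (-2 : ℝ) := by
    rw [Real.rpow_neg hp0.le, Real.rpow_two, ← div_eq_mul_inv, div_le_div_iff₀ hq (by positivity)]
    nlinarith
  have h8 : (p : ℝ) ^ (-2 : ℝ) * (p : ℝ) ^ (1 / 2 : ℝ) = (p : ℝ) ^ (-(3 / 2) : ℝ) := by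
    rw [← Real.rpow_add hp0]
    norm_num
  have h9 : 0 ≤ (p : ℝ) ^ (1 / 2 : ℝ) := by positivity
  have h10 : 2 / ((p : ℝ) - 1) ^ 2 = 2 * (1 / ((p : ℝ) - 1) ^ 2) := by ring
  rw [h10]
  calc |1 - 1 / ((p : ℝ) - 1) ^ 2| + 2 * (1 / ((p : ℝ) - 1) ^ 2) * (p : ℝ) ^ (1 / 4 : ℝ) +
      1 / ((p : ℝ) - 1) ^ 2 * (p : ℝ) ^ (1 / 2 : ℝ) ≤
      1 + 2 * (4 * (p : ℝ) ^ (-2 : ℝ)) * (p : ℝ) ^ (1 / 2 : ℝ) + 4 * (p : ℝ) ^ (-2 : ℝ) * (p : ℝ) ^ (1 / 2 : ℝ) := by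
        gcongr
    _ = 1 + 12 * ((p : ℝ) ^ (-2 : ℝ) * (p : ℝ) ^ (1 / 2 : ℝ)) := by ring
    _ = _ := by rw [h8]

theorem BB_le' (Q p : ℕ) (hp : p.Prime) (hpQ : p ∣ Q) : BB Q p ≤ 1 + 4 * (p : ℝ) ^ (-(3 / 4) : ℝ) := by
  have h2 : (2 : ℝ) ≤ p := by exact_mod_cast hp.two_le
  have hp0 : (0 : ℝ) < p := by linarith
  have hp1 : (0 : ℝ) < (p : ℝ) - 1 := by linarith
  unfold BB a0 a1 a2
  simp only [if_pos hpQ, abs_zero, zero_mul, add_zero]
  rw [abs_of_nonneg (by positivity : (0 : ℝ) ≤ (p : ℝ) / (p - 1)), abs_neg,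
    abs_of_nonneg (by positivity : (0 : ℝ) ≤ 1 / ((p : ℝ) - 1))]
  have h6 : 1 ≤ (p : ℝ) ^ (1 / 4 : ℝ) := Real.one_le_rpow (by linarith) (by norm_num)
  have h7 : 1 / ((p : ℝ) - 1) ≤ 2 * (p : ℝ) ^ (-1 : ℝ) := by
    rw [Real.rpow_neg_one, ← div_eq_mul_inv, div_le_div_iff₀ hp1 hp0]
    linarith
  have h8 : (p : ℝ) ^ (-1 : ℝ) * (p : ℝ) ^ (1 / 4 : ℝ) = (p : ℝ) ^ (-(3 / 4) : ℝ) := by
    rw [← Real.rpow_add hp0]
    norm_num
  have h9 : (p : ℝ) / (p - 1) = 1 + 1 / ((p : ℝ) - 1) * 1 := by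
    field_simp
    ring
  have h10 : 0 < 1 / ((p : ℝ) - 1) := by positivity
  rw [h9]
  calc 1 + 1 / ((p : ℝ) - 1) * 1 + 1 / ((p : ℝ) - 1) * (p : ℝ) ^ (1 / 4 : ℝ) ≤
      1 + 1 / ((p : ℝ) - 1) * (p : ℝ) ^ (1 / 4 : ℝ) + 1 / ((p : ℝ) - 1) * (p : ℝ) ^ (1 / 4 : ℝ) := by gcongr
    _ = 1 + 2 * (1 / ((p : ℝ) - 1)) * (p : ℝ) ^ (1 / 4 : ℝ) := by ring
    _ ≤ 1 + 2 * (2 * (p : ℝ) ^ (-1 : ℝ)) * (p : ℝ) ^ (1 / 4 : ℝ) := by gcongr
    _ = 1 + 4 * ((p : ℝ) ^ (-1 : ℝ) * (p : ℝ) ^ (1 / 4 : ℝ)) := by ring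
    _ = _ := by rw [h8]

theorem prod_a : ∃ C : ℝ, 0 < C ∧ ∀ S : Finset ℕ, ∏ p ∈ S, (1 + 12 * (p : ℝ) ^ (-(3 / 2) : ℝ)) ≤ C := by
  have hs : Summable fun n : ℕ => (n : ℝ) ^ (-(3 / 2) : ℝ) := Real.summable_nat_rpow.2 (by norm_num)
  refine ⟨Real.exp (12 * ∑' n : ℕ, (n : ℝ) ^ (-(3 / 2) : ℝ)), Real.exp_pos _, fun S => ?_⟩
  calc ∏ p ∈ S, (1 + 12 * (p : ℝ) ^ (-(3 / 2) : ℝ)) ≤ ∏ p ∈ S, Real.exp (12 * (p : ℝ) ^ (-(3 / 2) : ℝ)) := by
        apply Finset.prod_le_prod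
        · intro p _
          positivity
        · intro p _
          have := Real.add_one_le_exp (12 * (p : ℝ) ^ (-(3 / 2) : ℝ))
          linarith
    _ = Real.exp (12 * ∑ p ∈ S, (p : ℝ) ^ (-(3 / 2) : ℝ)) := by rw [← Real.exp_sum, mul_sum]
    _ ≤ _ := by
        apply Real.exp_le_exp.2
        apply mul_le_mul_of_nonneg_left _ (by norm_num)
        exact hs.sum_le_tsum S fun n _ => by positivity

theorem prod_b (η : ℝ) (hη : 0 < η) : ∃ C : ℝ, 0 < C ∧ ∀ Q : ℕ, 1 ≤ Q →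
    ∏ p ∈ Q.primeFactors, (1 + 4 * (p : ℝ) ^ (-(3 / 4) : ℝ)) ≤ C * (Q : ℝ) ^ η := by
  classical
  have h1 : Tendsto (fun n : ℕ => 1 + 4 * (n : ℝ) ^ (-(3 / 4) : ℝ)) atTop (𝓝 (1 + 4 * 0)) := by
    have h2 := (tendsto_rpow_neg_atTop (show (0 : ℝ) < 3 / 4 by norm_num)).comp (tendsto_natCast_atTop_atTop (R := ℝ))
    exact (h2.const_mul 4).const_add 1
  have h2 : (1 : ℝ) + 4 * 0 < 2 ^ η := by
    rw [mul_zero, add_zero]
    exact Real.one_lt_rpow (by norm_num) hη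
  obtain ⟨P, hP⟩ := eventually_atTop.1 (h1.eventually_le_const h2)
  refine ⟨5 ^ P, by positivity, fun Q hQ => ?_⟩
  have hterm : ∀ p ∈ Q.primeFactors, 1 + 4 * (p : ℝ) ^ (-(3 / 4) : ℝ) ≤ (if p < P then (5 : ℝ) else 1) * (p : ℝ) ^ η := by
    intro p hp
    have hpp := Nat.prime_of_mem_primeFactors hp
    have hp2 : (2 : ℝ) ≤ p := by exact_mod_cast hpp.two_le
    have hpη : 2 ^ η ≤ (p : ℝ) ^ η := Real.rpow_le_rpow (by norm_num) hp2 hη.le
    split_ifs with h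
    · have h3 : (p : ℝ) ^ (-(3 / 4) : ℝ) ≤ 1 := Real.rpow_le_one_of_one_le_of_nonpos (by linarith) (by norm_num)
      have h4 : 1 ≤ (p : ℝ) ^ η := Real.one_le_rpow (by linarith) hη.le
      nlinarith
    · rw [one_mul]
      exact (hP p (by omega)).trans hpη
  calc ∏ p ∈ Q.primeFactors, (1 + 4 * (p : ℝ) ^ (-(3 / 4) : ℝ)) ≤
      ∏ p ∈ Q.primeFactors, ((if p < P then (5 : ℝ) else 1) * (p : ℝ) ^ η) := by
        apply Finset.prod_le_prod
        · intro p _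
          positivity
        · exact hterm
    _ = (∏ p ∈ Q.primeFactors, (if p < P then (5 : ℝ) else 1)) * (∏ p ∈ Q.primeFactors, (p : ℝ)) ^ η := by
        rw [prod_mul_distrib, Real.finsetProd_rpow _ _ (fun p _ => Nat.cast_nonneg p)]
    _ ≤ 5 ^ P * (Q : ℝ) ^ η := by
        apply mul_le_mul
        · rw [← prod_filter, prod_const]
          apply pow_le_pow_right₀ (by norm_num)
          calc ((Q.primeFactors).filter fun p => p < P).card ≤ (range P).card := by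
                apply card_le_card
                intro p hp
                exact mem_range.2 (mem_filter.1 hp).2
            _ = P := card_range P
        · apply Real.rpow_le_rpow (prod_nonneg fun p _ => Nat.cast_nonneg p) _ hη.le
          have h3 : (∏ p ∈ Q.primeFactors, p) ≤ Q := Nat.le_of_dvd (by omega) (Nat.prod_primeFactors_dvd Q)
          have h4 : ((∏ p ∈ Q.primeFactors, p : ℕ) : ℝ) ≤ Q := by exact_mod_cast h3
          rwa [Nat.cast_prod] at h4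
        · positivity
        · positivity

theorem prod_BB (η : ℝ) (hη : 0 < η) : ∃ C : ℝ, 0 < C ∧ ∀ N Q : ℕ, 1 ≤ Q → Q ≤ N →
    ∏ p ∈ PN N, BB Q p ≤ C * (N : ℝ) ^ η := by
  classical
  obtain ⟨C1, hC1, h1⟩ := prod_a
  obtain ⟨C2, hC2, h2⟩ := prod_b η hη
  refine ⟨C1 * C2, by positivity, fun N Q hQ hQN => ?_⟩
  rw [← prod_filter_mul_prod_filter_not (PN N) (fun p => p ∣ Q), mul_comm]
  have e1 : (PN N).filter (fun p => p ∣ Q) = Q.primeFactors := by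
    ext p
    rw [mem_filter, mem_PN, Nat.mem_primeFactors]
    constructor
    · rintro ⟨⟨h1, h2⟩, h3⟩
      exact ⟨h2, h3, by omega⟩
    · rintro ⟨h1, h2, h3⟩
      exact ⟨⟨(Nat.le_of_dvd (by omega) h2).trans hQN, h1⟩, h2⟩
  rw [e1]
  have b1 : ∏ p ∈ (PN N).filter (fun p => ¬ p ∣ Q), BB Q p ≤ C1 := by
    refine le_trans ?_ (h1 ((PN N).filter fun p => ¬ p ∣ Q))
    apply Finset.prod_le_prod
    · intro p _
      exact BB_nonneg Q p
    · intro p hp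
      rw [mem_filter, mem_PN] at hp
      exact BB_le Q p hp.1.2 hp.2
  have b2 : ∏ p ∈ Q.primeFactors, BB Q p ≤ C2 * (N : ℝ) ^ η := by
    refine le_trans ?_ ((h2 Q hQ).trans ?_)
    · apply Finset.prod_le_prod
      · intro p _
        exact BB_nonneg Q p
      · intro p hp
        rw [Nat.mem_primeFactors] at hp
        exact BB_le' Q p hp.1 hp.2.1
    · gcongr
  calc (∏ p ∈ (PN N).filter (fun p => ¬ p ∣ Q), BB Q p) * ∏ p ∈ Q.primeFactors, BB Q p ≤ C1 * (C2 * (N : ℝ) ^ η) := by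
        apply mul_le_mul b1 b2 (prod_nonneg fun p _ => BB_nonneg Q p) hC1.le
    _ = _ := by ring

/-- the constant of the modulus -/
noncomputable def cQ (Q : ℕ) : ℝ := ∑ p ∈ Q.primeFactors, Real.log p / ((p : ℝ) - 1)

theorem cQ_eq (N Q : ℕ) (hQ : 1 ≤ Q) (hQN : Q ≤ N) : ∑ p ∈ PN N, cc Q p = cQ Q := by
  classical
  unfold cQ cc
  rw [← sum_filter]
  apply sum_congr _ fun _ _ => rfl
  ext p
  rw [mem_filter, mem_PN, Nat.mem_primeFactors]
  constructor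
  · rintro ⟨⟨h1, h2⟩, h3⟩
    exact ⟨h2, h3, by omega⟩
  · rintro ⟨h1, h2, h3⟩
    exact ⟨⟨(Nat.le_of_dvd (by omega) h2).trans hQN, h1⟩, h2⟩

/-- **The sum of the weights.** -/
theorem sum_ww_asymp (η : ℝ) (hη : 0 < η) : ∃ C : ℝ, 0 < C ∧ ∀ N Q n : ℕ, 1 ≤ Q → Q ≤ N → 1 ≤ n → n ≤ N →
    |∑ k ∈ Icc 1 n, (ww N Q k - 1 / (k : ℝ)) - cQ Q| ≤ C * (N : ℝ) ^ η * (n : ℝ) ^ (-(1 / 4) : ℝ) := by
  obtain ⟨C, hC, h⟩ := prod_BB η hη
  refine ⟨5 * C + 5, by positivity, fun N Q n hQ hQN hn hnN => ?_⟩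
  have hn0 : (0 : ℝ) < n := by exact_mod_cast hn
  have h1 := FS_asymp Q (PN N) (fun p hp => ((mem_PN N p).1 hp).2) n hn0
  have h2 := harmonic_asymp n hn0
  rw [Nat.floor_natCast] at h2
  rw [cQ_eq N Q hQ hQN] at h1
  have e : FS Q (PN N) n = ∑ k ∈ Icc 1 n, ww N Q k := by
    unfold FS
    rw [Nat.floor_natCast]
    apply sum_congr rfl
    intro k hk
    rw [mem_Icc] at hk
    exact prod_hh N Q k hQ hQN hk.1 (hk.2.trans hnN)
  rw [e] at h1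
  rw [sum_sub_distrib]
  set X := (n : ℝ) ^ (-(1 / 4) : ℝ) with hX
  have hX0 : 0 < X := Real.rpow_pos_of_pos hn0 _
  have hN1 : (1 : ℝ) ≤ (N : ℝ) ^ η := Real.one_le_rpow (by exact_mod_cast (by omega : 1 ≤ N)) hη.le
  have h3 : 5 * X * ∏ p ∈ PN N, BB Q p ≤ 5 * X * (C * (N : ℝ) ^ η) := by
    gcongr
    exact h N Q hQ hQN
  have h4 : 5 * X ≤ 5 * (N : ℝ) ^ η * X := by
    have : 1 * X ≤ (N : ℝ) ^ η * X := mul_le_mul_of_nonneg_right hN1 hX0.le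
    linarith
  have h5 : (5 * C + 5) * (N : ℝ) ^ η * X = 5 * X * (C * (N : ℝ) ^ η) + 5 * (N : ℝ) ^ η * X := by ring
  rw [h5]
  rw [abs_le] at h1 h2 ⊢
  constructor <;> linarith [h1.1, h1.2, h2.1, h2.2]

end Pool.Agent.H531.VR
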